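import Pool.Agent.H207.TP.Fam

/-! Project TP: the classes of maps. -/

set_option autoImplicit false

open Metric Set MeasureTheory Filter Topology Polynomial
open scoped OnePoint ENNReal

namespace Pool.Agent.H207.TP

open Pool.Agent.H792R2.CE Pool.Agent.H792R2 Pool.Agent.H207.TF
open Pool.Agent.H211.LR Pool.Agent.H211.AD
open Pool.Agent.H211.LD (pol pol_coeff pol_natDegree_le pol_add_smul)

/-- the Collet-Eckmann condition -/
def CE (T : ℂ[X]) (c : ℂ) : Prop :=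
  ∃ μ : ℝ, 1 < μ ∧ ∀ᶠ n : ℕ in atTop, μ ^ n ≤ ‖deriv ((ev T)^[n]) (T.eval c)‖

section
variable {d : ℕ} {b : ℂ} {T : ℂ[X]}

/-- two-sided bounds for the factor in the derivatives -/
theorem factor_bd (hp : Pack) (hT2 : 2 ≤ T.natDegree) (hb : Esc T b) {c : ℂ}
    (hc : ¬ (Esc T c ∨ Atr T c)) :
    ∃ κ : ℝ, 0 < κ ∧ ∃ κ' : ℝ, 0 < κ' ∧ ∀ n : ℕ,
      κ ≤ ‖((T.eval c - b) / ((ev T)^[n] (T.eval c) - b)) ^ 2‖ ∧
      ‖((T.eval c - b) / ((ev T)^[n] (T.eval c) - b)) ^ 2‖ ≤ κ' := by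
  have hcE : ¬ Esc T c := fun h => hc (Or.inl h)
  obtain ⟨R, hR, hRb⟩ := (hp.ESCB T hT2).2
  have hs : ∀ n, (ev T)^[n] (T.eval c) = (ev T)^[n + 1] c := fun n =>
    (Function.iterate_succ_apply _ _ _).symm
  have h8 : T.eval c ≠ b := esc_ne hb hcE 1
  have h9 : 0 < ‖T.eval c - b‖ := norm_pos_iff.2 (sub_ne_zero.2 h8)
  -- distance of the orbit from `b`
  have hdist : ∃ δ : ℝ, 0 < δ ∧ ∀ n, δ ≤ ‖(ev T)^[n] (T.eval c) - b‖ := by
    -- the orbit stays in the compact set of the points whose orbits are bounded by `R`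
    obtain ⟨N, hN⟩ : ∃ N : ℕ, R < ‖(ev T)^[N] b‖ := by
      obtain ⟨N, hN⟩ := (Filter.eventually_atTop.1 (hb.eventually_gt_atTop R))
      exact ⟨N, hN N le_rfl⟩
    have hcont : Continuous (fun z : ℂ => (ev T)^[N] z) := by
      have h1 : Continuous (ev T) := T.continuous
      exact h1.iterate N
    have h1 : ∀ᶠ z in 𝓝 b, R < ‖(ev T)^[N] z‖ :=
      (hcont.norm.continuousAt (x := b)).eventually (lt_mem_nhds hN)
    obtain ⟨δ, hδ, h2⟩ := Metric.eventually_nhds_iff.1 h1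
    refine ⟨δ, hδ, fun n => ?_⟩
    by_contra hlt
    push Not at hlt
    have h3 := h2 (y := (ev T)^[n] (T.eval c)) (by rw [dist_eq_norm]; exact hlt)
    rw [hs, ← Function.iterate_add_apply] at h3
    exact absurd (hRb c hcE (N + (n + 1))) (not_le.2 h3)
  obtain ⟨δ, hδ, hδn⟩ := hdist
  refine ⟨(‖T.eval c - b‖ / (R + ‖b‖)) ^ 2, by positivity, (‖T.eval c - b‖ / δ) ^ 2,
    by positivity, fun n => ?_⟩
  have h10 : ‖(ev T)^[n] (T.eval c) - b‖ ≤ R + ‖b‖ := by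
    refine (norm_sub_le _ _).trans ?_
    rw [hs]
    have := hRb c hcE (n + 1)
    linarith
  have h11 := hδn n
  rw [norm_pow, norm_div]
  constructor
  · gcongr
    exact lt_of_lt_of_le hδ h11
  · gcongr

/-- exponential growth -/
theorem ce_conj (hp : Pack) (hd : 2 ≤ d) (hT : T.natDegree = d) (hb : Esc T b) {c : ℂ}
    (hc : ¬ (Esc T c ∨ Atr T c)) (hCE : CE T c) :
    ∃ μ : ℝ, 1 < μ ∧ ∀ᶠ n : ℕ in atTop,
      μ ^ n ≤ ‖deriv ((rf (X ^ d) (DQ d b T))^[n]) (rf (X ^ d) (DQ d b T) (M b c))‖ := by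
  have hcE : ¬ Esc T c := fun h => hc (Or.inl h)
  obtain ⟨κ, hκ, _, _, hκn⟩ := factor_bd hp (by omega) hb hc
  obtain ⟨μ, hμ, h⟩ := hCE
  have hs : 1 < Real.sqrt μ := by
    rw [show (1 : ℝ) = Real.sqrt 1 by simp]
    exact Real.sqrt_lt_sqrt zero_le_one hμ
  refine ⟨Real.sqrt μ, hs, ?_⟩
  have h1 : ∀ᶠ n : ℕ in atTop, κ⁻¹ ≤ Real.sqrt μ ^ n :=
    (tendsto_pow_atTop_atTop_of_one_lt hs).eventually_ge_atTop _
  filter_upwards [h, h1] with n hn hn1
  obtain ⟨h2, -, h3⟩ := deriv_comp hp hd hT hb hcE n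
  rw [h2, h3, norm_mul]
  have h4 : Real.sqrt μ ^ n * Real.sqrt μ ^ n = μ ^ n := by
    rw [← mul_pow, Real.mul_self_sqrt (by linarith)]
  have h5 : 0 < Real.sqrt μ ^ n := by positivity
  calc Real.sqrt μ ^ n = Real.sqrt μ ^ n * (κ⁻¹ * κ) := by rw [inv_mul_cancel₀ hκ.ne', mul_one]
    _ ≤ Real.sqrt μ ^ n * (Real.sqrt μ ^ n * κ) := by gcongr
    _ = μ ^ n * κ := by rw [← mul_assoc, h4]
    _ ≤ _ := mul_le_mul hn (hκn n).1 hκ.le (norm_nonneg _)

theorem base_conj (hp : Pack) (hd : 2 ≤ d) (hT : T.natDegree = d) (hb : Esc T b)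
    (h : ∀ c : ℂ, (derivative T).eval c = 0 → (Esc T c ∨ Atr T c) ∨ CE T c) :
    Base d (X ^ d) (DQ d b T) := by
  refine ⟨hd, cop_of hp hd hT, (natDegree_X_pow d).le, DQ_deg hp hT.le (esc_fix hb), ?_,
    fun w hw => ?_⟩
  · have := (hp.ATT2 d b T hd hT hb).2 b (Or.inl hb)
    rwa [Mh_self] at this
  · rcases crit_cases hp hd hT.le hw with rfl | ⟨c, hcb, rfl, hc⟩
    · exact Or.inl (hp.ATT2 d b T hd hT hb).1
    · by_cases hA : Esc T c ∨ Atr T c
      · left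
        have := (hp.ATT2 d b T hd hT hb).2 c hA
        rwa [Mh_ne hcb] at this
      · exact Or.inr (ce_conj hp hd hT hb hA ((h c hc).resolve_left hA))

/-- the summability condition -/
def Smb (T : ℂ[X]) (c : ℂ) : Prop :=
  (∀ m : ℕ, deriv ((ev T)^[m]) (T.eval c) ≠ 0) ∧
    Summable fun m : ℕ => ‖deriv ((ev T)^[m]) (T.eval c)‖⁻¹

theorem null_conj (hp : Pack) (hd : 2 ≤ d) (hT : T.natDegree = d) (hb : Esc T b)
    (h : volume {z : ℂ | ¬ (Esc T z ∨ Atr T z)} = 0) :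
    volume {w : ℂ | ¬ Att d (X ^ d) (DQ d b T) (w : OnePoint ℂ)} = 0 := by
  have h1 : {w : ℂ | ¬ Att d (X ^ d) (DQ d b T) (w : OnePoint ℂ)} ⊆
      M b '' ({z : ℂ | ¬ (Esc T z ∨ Atr T z)} ∩ {b}ᶜ) := by
    intro w hw
    obtain ⟨z, hz, hwz, hA⟩ := natt_form hp hd hT hb hw
    exact ⟨z, ⟨hA, hz⟩, hwz.symm⟩
  refine measure_mono_null h1 ?_
  have h2 : volume ({z : ℂ | ¬ (Esc T z ∨ Atr T z)} ∩ {b}ᶜ) = 0 :=
    measure_mono_null Set.inter_subset_left h
  refine MeasureTheory.addHaar_image_eq_zero_of_differentiableOn_of_addHaar_eq_zero volume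
    (f := M b) ?_ h2
  intro z hz
  have h3 : DifferentiableAt ℂ (M b) z := by
    unfold M
    exact (differentiableAt_id.sub_const b).inv (sub_ne_zero.2 hz.2)
  exact (h3.restrictScalars ℝ).differentiableWithinAt

theorem sbase_conj (hp : Pack) (hd : 2 ≤ d) (hT : T.natDegree = d) (hb : Esc T b)
    (hnull : volume {z : ℂ | ¬ (Esc T z ∨ Atr T z)} = 0)
    (h : ∀ c : ℂ, (derivative T).eval c = 0 → (Esc T c ∨ Atr T c) ∨ Smb T c) :
    SBase d (X ^ d) (DQ d b T) := by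
  have key : ∀ {w : ℂ}, (wr (X ^ d) (DQ d b T)).eval w = 0 →
      ¬ Att d (X ^ d) (DQ d b T) (w : OnePoint ℂ) →
      (∀ j : ℕ, deriv ((rf (X ^ d) (DQ d b T))^[j]) (rf (X ^ d) (DQ d b T) w) ≠ 0) ∧
      Summable fun m => ‖deriv ((rf (X ^ d) (DQ d b T))^[m]) (rf (X ^ d) (DQ d b T) w)‖⁻¹ := by
    intro w hw hA
    rcases crit_cases hp hd hT.le hw with rfl | ⟨c, hcb, rfl, hc⟩
    · exact absurd (hp.ATT2 d b T hd hT hb).1 hA
    · have hA' : ¬ (Esc T c ∨ Atr T c) := fun h' => hA (by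
        have := (hp.ATT2 d b T hd hT hb).2 c h'
        rwa [Mh_ne hcb] at this)
      have hcE : ¬ Esc T c := fun h => hA' (Or.inl h)
      obtain ⟨h1, h2⟩ := (h c hc).resolve_left hA'
      obtain ⟨κ, hκ, _, _, hκn⟩ := factor_bd hp (by omega) hb hA'
      constructor
      · intro j
        obtain ⟨h3, -, h4⟩ := deriv_comp hp hd hT hb hcE j
        rw [h3, h4]
        refine mul_ne_zero (h1 j) fun h5 => ?_
        have := (hκn j).1
        rw [h5, norm_zero] at this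
        linarith
      · refine Summable.of_nonneg_of_le (fun m => by positivity) (fun m => ?_) (h2.mul_right κ⁻¹)
        obtain ⟨h3, -, h4⟩ := deriv_comp hp hd hT hb hcE m
        rw [h3, h4, norm_mul, mul_inv]
        gcongr
        exact (hκn m).1
  refine ⟨hd, cop_of hp hd hT, (natDegree_X_pow d).le, DQ_deg hp hT.le (esc_fix hb), ?_,
    null_conj hp hd hT hb hnull, fun hw hA => (key hw hA).1, fun hw hA => (key hw hA).2⟩
  have := (hp.ATT2 d b T hd hT hb).2 b (Or.inl hb)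
  rwa [Mh_self] at this

/-- growth at infinitely many times -/
theorem grow_conj (hp : Pack) (hd : 2 ≤ d) (hT : T.natDegree = d) (hb : Esc T b)
    (h : ∃ μ : ℝ, 1 < μ ∧ ∃ᶠ n : ℕ in atTop, ∀ c : ℂ, (derivative T).eval c = 0 →
      (Esc T c ∨ Atr T c) ∨ ∃ m ≤ n, μ ^ n ≤ ‖deriv ((ev T)^[m]) (T.eval c)‖) :
    ∃ μ : ℝ, 1 < μ ∧ ∃ᶠ n : ℕ in atTop, GrR d (X ^ d) (DQ d b T) μ n := by
  classical
  obtain ⟨μ, hμ, h⟩ := h
  have hT' : derivative T ≠ 0 := by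
    intro h0
    have := Polynomial.derivative_eq_zero.1 h0
    omega
  -- a common lower bound for the factors
  have hκ : ∀ c ∈ (derivative T).roots.toFinset, ∃ κ : ℝ, 0 < κ ∧ (¬ (Esc T c ∨ Atr T c) →
      ∀ n, κ ≤ ‖((T.eval c - b) / ((ev T)^[n] (T.eval c) - b)) ^ 2‖) := by
    intro c _
    by_cases hA : Esc T c ∨ Atr T c
    · exact ⟨1, one_pos, fun h => absurd hA h⟩
    · obtain ⟨κ, hκ, _, _, hκn⟩ := factor_bd hp (by omega) hb hA
      exact ⟨κ, hκ, fun _ n => (hκn n).1⟩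
  choose! κ hκ0 hκn using hκ
  have hs : 1 < Real.sqrt μ := by
    rw [show (1 : ℝ) = Real.sqrt 1 by simp]
    exact Real.sqrt_lt_sqrt zero_le_one hμ
  refine ⟨Real.sqrt μ, hs, ?_⟩
  have h1 : ∀ᶠ n : ℕ in atTop, ∀ c ∈ (derivative T).roots.toFinset,
      (κ c)⁻¹ ≤ Real.sqrt μ ^ n := by
    rw [Filter.eventually_all_finset]
    intro c _
    exact (tendsto_pow_atTop_atTop_of_one_lt hs).eventually_ge_atTop _
  refine (h.and_eventually h1).mono fun n ⟨hn, hn1⟩ w hw => ?_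
  rcases crit_cases hp hd hT.le hw with rfl | ⟨c, hcb, rfl, hc⟩
  · exact Or.inl (hp.ATT2 d b T hd hT hb).1
  · have hcm : c ∈ (derivative T).roots.toFinset := by
      rw [Multiset.mem_toFinset, mem_roots hT']
      exact hc
    by_cases hA : Esc T c ∨ Atr T c
    · left
      have := (hp.ATT2 d b T hd hT hb).2 c hA
      rwa [Mh_ne hcb] at this
    · right
      have hcE : ¬ Esc T c := fun h => hA (Or.inl h)
      obtain ⟨m, hm, hm2⟩ := (hn c hc).resolve_left hA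
      refine ⟨m, hm, ?_⟩
      obtain ⟨h2, -, h3⟩ := deriv_comp hp hd hT hb hcE m
      rw [h2, h3, norm_mul]
      have h4 : Real.sqrt μ ^ n * Real.sqrt μ ^ n = μ ^ n := by
        rw [← mul_pow, Real.mul_self_sqrt (by linarith)]
      have h5 : 0 < Real.sqrt μ ^ n := by positivity
      have h6 := hκ0 c hcm
      calc Real.sqrt μ ^ n = Real.sqrt μ ^ n * ((κ c)⁻¹ * κ c) := by
            rw [inv_mul_cancel₀ h6.ne', mul_one]
        _ ≤ Real.sqrt μ ^ n * (Real.sqrt μ ^ n * κ c) := by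
            have := hn1 c hcm
            gcongr
        _ = μ ^ n * κ c := by rw [← mul_assoc, h4]
        _ ≤ _ := mul_le_mul hm2 (hκn c hcm hA m) h6.le (norm_nonneg _)

end

end Pool.Agent.H207.TP
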