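import Pool.Agent.H207.TP.Stm2

/-! Project TP: independence of the relations on the deformations of a polynomial. -/

set_option autoImplicit false

open Metric Set MeasureTheory Filter Topology Polynomial
open scoped OnePoint ENNReal

namespace Pool.Agent.H207.TP

open Pool.Agent.H792R2.CE Pool.Agent.H792R2 Pool.Agent.H207.TF
open Pool.Agent.H211.LR Pool.Agent.H211.AD
open Pool.Agent.H211.LD (pol pol_coeff pol_natDegree_le pol_add_smul avg)

/-- a rational deformation which keeps infinity gives a polynomial deformation -/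
theorem down (hp : Pack) {d : ℕ} (hd : 2 ≤ d) {T : ℂ[X]} (hT : T.natDegree = d) {b : ℂ}
    (hcb : ∀ c, (derivative T).eval c = 0 → c ≠ b)
    {S : ℂ[X]} {u κ : ℂ → ℂ}
    (hSd : S.natDegree ≤ 2 * d) (hDf : Dfm (X ^ d) (DQ d b T) S u κ)
    (hK : (⟨0, 1, 0, 0⟩ : Reln).Keep (X ^ d) (DQ d b T) S κ) :
    ∃ (H : ℂ[X]) (u' κ' : ℂ → ℂ) (α : ℂ), H.natDegree ≤ d ∧ DfmP T H u' κ' ∧
      ∀ (c : ℂ) (m : ℕ), (∀ j ≤ m, (ev T)^[j] c ≠ b) →
        spd (X ^ d) (DQ d b T) S (M b c) (κ (M b c)) m =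
          -(M b ((ev T)^[m] c) ^ 2 * spdP T H c (κ' c) m) + α := by
  classical
  have hQ0 : (DQ d b T).eval 0 ≠ 0 := by
    rw [DQ_zero hp hd hT.le, ← hT]
    have h8 : T ≠ 0 := by
      rintro rfl
      simp at hT
      omega
    exact leadingCoeff_ne_zero.2 h8
  have hrf0 : rf (X ^ d) (DQ d b T) 0 = 0 := by
    unfold rf
    rw [eval_pow, eval_X, zero_pow (by omega), zero_div]
  have hwr0 : (wr (X ^ d) (DQ d b T)).eval 0 = 0 := wr_eval_zero hp hd hT.le
  have hcrit : ∀ c, (derivative T).eval c = 0 →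
      (wr (X ^ d) (DQ d b T)).eval (M b c) = 0 := by
    intro c hc
    rw [wr_eval hp (by omega) hT.le (hcb c hc), hc, mul_zero]
  obtain ⟨α, hα⟩ : ∃ α, α = κ 0 := ⟨_, rfl⟩
  have hS0 : S.eval 0 = α * (DQ d b T).eval 0 ^ 2 := by
    have h1 := hK
    unfold Reln.Keep at h1
    simp only [spd, Function.iterate_zero, id_eq, hwr0, zero_div, zero_mul, add_zero] at h1
    rw [hα, ← h1, div_mul_cancel₀ _ (pow_ne_zero _ hQ0)]
  obtain ⟨S', hS'⟩ : ∃ S', S' = S - conjS (X ^ d) (DQ d b T) α 0 0 := ⟨_, rfl⟩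
  have hconj0 : conjS (X ^ d) (DQ d b T) α 0 0 = C α * (DQ d b T) ^ 2 -
      C α * wr (X ^ d) (DQ d b T) := by
    unfold conjS
    rw [C_0]
    ring
  have hdvd : X ^ d ∣ S' := by
    have h1 := hDf 0 hwr0
    rw [mult_zero hp hd hT, show d - 1 + 1 = d by omega, hrf0, ← hα, C_0, sub_zero] at h1
    have h2 : u 0 = α := by
      have h3 : (X : ℂ[X]) ∣ S - C (u 0) * DQ d b T ^ 2 +
          C α * wr (X ^ d) (DQ d b T) :=
        (dvd_pow_self X (by omega : d ≠ 0)).trans h1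
      rw [X_dvd_iff, coeff_zero_eq_eval_zero] at h3
      simp only [eval_add, eval_sub, eval_mul, eval_C, eval_pow, hwr0, mul_zero,
        add_zero] at h3
      rw [hS0, ← sub_mul] at h3
      have h4 := (mul_eq_zero.1 h3).resolve_right (pow_ne_zero _ hQ0)
      exact (sub_eq_zero.1 h4).symm
    rw [h2] at h1
    rw [hS', hconj0]
    convert h1 using 1
    ring
  obtain ⟨G, hG⟩ := hdvd
  have hQd2 : (DQ d b T ^ 2).natDegree ≤ 2 * d := by
    have := DQ_deg_le hp hT.le b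
    refine natDegree_pow_le.trans ?_
    omega
  have hwrd : (wr (X ^ d) (DQ d b T)).natDegree ≤ 2 * d := by
    have := wr_natDegree (P := X ^ d) (Q := DQ d b T) (d := d) (by omega)
      (natDegree_X_pow d).le (DQ_deg_le hp hT.le b)
    omega
  have hS'd : S'.natDegree ≤ 2 * d := by
    rw [hS', hconj0]
    refine (natDegree_sub_le _ _).trans (max_le hSd ((natDegree_sub_le _ _).trans
      (max_le ?_ ?_)))
    · exact (natDegree_C_mul_le _ _).trans hQd2
    · exact (natDegree_C_mul_le _ _).trans hwrd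
  have hGd : G.natDegree ≤ d := by
    by_cases hG0 : G = 0
    · rw [hG0]; simp
    · rw [hG, natDegree_mul (pow_ne_zero _ X_ne_zero) hG0, natDegree_X_pow] at hS'd
      omega
  obtain ⟨H, hHd, hH⟩ := hp.RLI.2.2.1 d b (-G) (by rwa [natDegree_neg])
  have hS'H : S' = -(X ^ d * rev d b H) := by rw [hH, hG]; ring
  have hSS : S = -(X ^ d * rev d b H) + conjS (X ^ d) (DQ d b T) α 0 0 := by
    rw [← hS'H, hS']; ring
  -- the polynomial deformation
  obtain ⟨u', hu'⟩ : ∃ u' : ℂ → ℂ, u' = fun y => -((u (M b y) - α) * (y - b) ^ 2) := ⟨_, rfl⟩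
  obtain ⟨κ', hκ'⟩ : ∃ κ' : ℂ → ℂ, κ' = fun y => -((κ (M b y) - α) * (y - b) ^ 2) := ⟨_, rfl⟩
  have hDP : DfmP T H u' κ' := by
    intro c hc
    have hcb' := hcb c hc
    have h1 := hDf (M b c) (hcrit c hc)
    rw [mult_conj hp hd hT hcb'] at h1
    have hrf : rf (X ^ d) (DQ d b T) (M b c) = M b (T.eval c) := by
      have := (hp.ITD d b T (by omega) hT.le c 1 fun j hj => by
        have : j = 0 := by omega
        subst this
        exact hcb').1
      simpa [ev] using this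
    rw [hrf] at h1
    obtain ⟨ut, hut⟩ : ∃ ut, ut = u (M b (T.eval c)) - α := ⟨_, rfl⟩
    obtain ⟨kt, hkt⟩ : ∃ kt, kt = κ (M b c) - α := ⟨_, rfl⟩
    obtain ⟨F₀, hF₀⟩ : ∃ F₀ : ℂ[X], F₀ = -H - C ut * (T - C b) ^ 2 +
        C kt * ((X - C b) ^ 2 * derivative T) := ⟨_, rfl⟩
    have hF₀d : F₀.natDegree ≤ 2 * d := by
      have e1 : ((T - C b) ^ 2).natDegree ≤ 2 * d := by
        have := deg_sub_C hT.le b
        refine natDegree_pow_le.trans ?_
        omega
      have e2 : ((X - C b) ^ 2 * derivative T : ℂ[X]).natDegree ≤ 2 * d := by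
        have e3 : (derivative T).natDegree ≤ d - 1 :=
          (natDegree_derivative_le _).trans (by omega)
        have e4 : ((X - C b : ℂ[X]) ^ 2).natDegree ≤ 2 := by
          refine natDegree_pow_le.trans ?_
          rw [natDegree_X_sub_C]
        refine natDegree_mul_le.trans ?_
        omega
      rw [hF₀]
      refine (natDegree_add_le _ _).trans (max_le ((natDegree_sub_le _ _).trans
        (max_le ?_ ?_)) ?_)
      · rw [natDegree_neg]; omega
      · exact (natDegree_C_mul_le _ _).trans e1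
      · exact (natDegree_C_mul_le _ _).trans e2
    have heq : S - C (u (M b (T.eval c))) * DQ d b T ^ 2 +
        C (κ (M b c)) * wr (X ^ d) (DQ d b T) = rev (2 * d) b F₀ := by
      refine ext_M (b := b) fun z hz => ?_
      rw [(hp.REV (2 * d) b F₀ hF₀d).2.1 z hz, hSS, hconj0]
      simp only [eval_neg, eval_mul, eval_pow, eval_X, eval_sub, eval_add, eval_C,
        DQ_eval hp hT.le hz, wr_eval hp (show 1 ≤ d by omega) hT.le hz,
        (hp.REV d b H hHd).2.1 z hz, hF₀]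
      obtain ⟨k, rfl⟩ : ∃ k, d = k + 1 := ⟨d - 1, by omega⟩
      have e : 2 * (k + 1) - 2 = 2 * k := by omega
      rw [e, hut, hkt]
      have a3 : M b z * (z - b) = 1 := by
        have := M_pow hz 1
        simpa using this
      linear_combination (-(κ (M b c) - α) * M b z ^ (2 * k) * (derivative T).eval z *
        (M b z * (z - b) + 1)) * a3
    rw [heq] at h1
    have h2 : (X - C c) ^ ((derivative T).rootMultiplicity c + 1) ∣ F₀ := by
      by_cases hF0 : F₀ = 0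
      · rw [hF0]; exact dvd_zero _
      · obtain ⟨h3, h4⟩ := (hp.REV (2 * d) b F₀ hF₀d).2.2.2.2 hF0
        have h5 := (le_rootMultiplicity_iff h3).2 h1
        rw [h4 c hcb'] at h5
        exact (le_rootMultiplicity_iff hF0).1 h5
    have h3 := val_dvd (by omega : 1 ≤ T.natDegree) c
    have h4 : (X - C c) ^ ((derivative T).rootMultiplicity c + 1) ∣
        (X - C c) * derivative T := by
      rw [pow_succ, mul_comm]
      exact mul_dvd_mul_left _ (pow_rootMultiplicity_dvd _ _)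
    have h5 : H - C (u' (T.eval c)) + C (κ' c) * derivative T =
        -F₀ + (-(C ut * (T + C (T.eval c) - 2 * C b))) * (T - C (T.eval c)) +
          (C kt * (X + C c - 2 * C b)) * ((X - C c) * derivative T) := by
      rw [hu', hκ', hF₀]
      simp only [← hut, ← hkt]
      simp only [C_neg, C_mul, C_pow, C_sub]
      ring
    rw [h5]
    exact dvd_add (dvd_add (dvd_neg.2 h2) (Dvd.dvd.mul_left h3 _)) (Dvd.dvd.mul_left h4 _)
  refine ⟨H, u', κ', α, hHd, hDP, fun c m hav => ?_⟩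
  have hκM : κ (M b c) = -(M b c ^ 2 * κ' c) + α := by
    have hc := hav 0 (Nat.zero_le _)
    rw [hκ']
    have a3 := sub_ne_zero.2 hc
    have a4 : M b c = (c - b)⁻¹ := rfl
    simp only
    rw [a4]
    have a5 : c - b ≠ 0 := a3
    field_simp
    ring
  rw [hκM, hSS, spd_add, spd_conj hp hd hT.le hHd hav, spd_trans hp hd hT.le hav]

/-- density of the attracted points -/
theorem dense_conj (hp : Pack) {d : ℕ} (hd : 2 ≤ d) {T : ℂ[X]} (hT : T.natDegree = d) {b : ℂ}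
    (hb : Esc T b) (h : Dense {z : ℂ | Esc T z ∨ Atr T z}) :
    Dense {w : ℂ | Att d (X ^ d) (DQ d b T) (w : OnePoint ℂ)} := by
  rw [Metric.dense_iff]
  intro w₀ ε hε
  obtain ⟨w₁, hw₁, hw₁0⟩ : ∃ w₁ ∈ ball w₀ ε, w₁ ≠ 0 := by
    by_cases h0 : w₀ = 0
    · refine ⟨((ε / 2 : ℝ) : ℂ), ?_, ?_⟩
      · rw [h0, mem_ball_zero_iff, Complex.norm_real, Real.norm_eq_abs, abs_of_pos (by linarith)]
        linarith
      · exact_mod_cast (by linarith : ε / 2 ≠ 0)
    · exact ⟨w₀, mem_ball_self hε, h0⟩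
  obtain ⟨h1, h2⟩ := M_inv (b := b) hw₁0
  have h3 : ContinuousAt (M b) (b + w₁⁻¹) := by
    unfold M
    exact (continuousAt_id.sub continuousAt_const).inv₀ (sub_ne_zero.2 h2)
  have h4 : M b (b + w₁⁻¹) ∈ ball w₀ ε := by rwa [h1]
  have h5 : ∀ᶠ z in 𝓝 (b + w₁⁻¹), M b z ∈ ball w₀ ε ∧ z ≠ b :=
    (h3.eventually (isOpen_ball.mem_nhds h4)).and (isOpen_ne.mem_nhds h2)
  obtain ⟨δ, hδ, h6⟩ := Metric.eventually_nhds_iff.1 h5
  obtain ⟨z, hz1, hz2⟩ := (Metric.dense_iff.1 h) (b + w₁⁻¹) δ hδ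
  obtain ⟨h7, h8⟩ := h6 (mem_ball.1 hz1)
  refine ⟨M b z, h7, ?_⟩
  have := (hp.ATT2 d b T hd hT hb).2 z hz2
  rwa [Mh_ne h8] at this

/-- **Independence** for polynomials. -/
theorem epsP (hp : Pack) (hPF : S_PFX) (hI : S_INV0) (hG : S_GOODX) (hDV : S_DVP) {d : ℕ}
    (hd : 2 ≤ d) {T : ℂ[X]} (hT : T.natDegree = d) (hdense : Dense {z : ℂ | Esc T z ∨ Atr T z})
    {N : ℕ} {ρ : Fin N → Reln} {β : Fin N → ℂ}
    (hρ : ∀ i, (ev T)^[(ρ i).n] (ρ i).c = (ev T)^[(ρ i).n'] (ρ i).c')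
    (hβ : ∀ (H : ℂ[X]) (u κ : ℂ → ℂ), H.natDegree ≤ d → DfmP T H u κ →
      ∑ i, β i * (spdP T H (ρ i).c (κ (ρ i).c) (ρ i).n -
        spdP T H (ρ i).c' (κ (ρ i).c') (ρ i).n') = 0) :
    ∑ i, β i • (dvP T (ρ i).c (ρ i).n - dvP T (ρ i).c' (ρ i).n') = 0 := by
  classical
  have hT' : derivative T ≠ 0 := by
    intro h0
    have := Polynomial.derivative_eq_zero.1 h0
    omega
  -- the choice of `b`
  obtain ⟨F, hF⟩ : ∃ F : Set ℂ, F = {c | (derivative T).eval c = 0} ∪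
      (fun c => T.eval c) '' {c | (derivative T).eval c = 0} ∪
      ⋃ i : Fin N, (((fun j => (ev T)^[j] (ρ i).c) '' Set.Iic (ρ i).n) ∪
        ((fun j => (ev T)^[j] (ρ i).c') '' Set.Iic (ρ i).n')) := ⟨_, rfl⟩
  have hcf : {c | (derivative T).eval c = 0}.Finite := by
    refine ((derivative T).roots.toFinset.finite_toSet).subset fun c hc => ?_
    rw [Finset.mem_coe, Multiset.mem_toFinset, mem_roots hT']
    exact hc
  have hFf : F.Finite := by
    rw [hF]
    refine (hcf.union (hcf.image _)).union ?_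
    refine Set.finite_iUnion fun i => ?_
    exact ((Set.finite_Iic _).image _).union ((Set.finite_Iic _).image _)
  obtain ⟨b, hbF, hb⟩ := (hp.ESCB T (by omega)).1 F hFf
  rw [hF] at hbF
  simp only [Set.mem_union, not_or] at hbF
  obtain ⟨⟨hb1, hb2⟩, hb3⟩ := hbF
  have hcb : ∀ c, (derivative T).eval c = 0 → c ≠ b := by
    rintro c hc rfl
    exact hb1 hc
  have hvb : ∀ c, (derivative T).eval c = 0 → T.eval c ≠ b := by
    intro c hc h
    exact hb2 ⟨c, hc, h⟩
  have hob : ∀ i, (∀ j ≤ (ρ i).n, (ev T)^[j] (ρ i).c ≠ b) ∧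
      ∀ j ≤ (ρ i).n', (ev T)^[j] (ρ i).c' ≠ b := by
    intro i
    refine ⟨fun j hj h => hb3 ?_, fun j hj h => hb3 ?_⟩
    · exact Set.mem_iUnion.2 ⟨i, Or.inl ⟨j, hj, h⟩⟩
    · exact Set.mem_iUnion.2 ⟨i, Or.inr ⟨j, hj, h⟩⟩
  have hcop := cop_of (b := b) hp hd hT
  have hQd := DQ_deg hp hT.le (esc_fix hb)
  have hQ0 : (DQ d b T).eval 0 ≠ 0 := by
    rw [DQ_zero hp hd hT.le, ← hT]
    have h8 : T ≠ 0 := by
      rintro rfl
      simp at hT
      omega
    exact leadingCoeff_ne_zero.2 h8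
  have hrf0 : rf (X ^ d) (DQ d b T) 0 = 0 := by
    unfold rf
    rw [eval_pow, eval_X, zero_pow (by omega), zero_div]
  have hwr0 : (wr (X ^ d) (DQ d b T)).eval 0 = 0 := wr_eval_zero hp hd hT.le
  have hQz : ∀ z : ℂ, z ≠ b → T.eval z ≠ b → (DQ d b T).eval (M b z) ≠ 0 := by
    intro z h1 h2
    rw [DQ_eval hp hT.le h1]
    exact mul_ne_zero (pow_ne_zero _ (M_ne h1)) (sub_ne_zero.2 h2)
  have hit : ∀ (c : ℂ) (m : ℕ), (∀ j ≤ m, (ev T)^[j] c ≠ b) →
      (rf (X ^ d) (DQ d b T))^[m] (M b c) = M b ((ev T)^[m] c) := fun c m h =>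
    (hp.ITD d b T (by omega) hT.le c m fun j hj => h j hj.le).1
  have hQit : ∀ (c : ℂ) (m : ℕ), (∀ j ≤ m, (ev T)^[j] c ≠ b) → ∀ j < m,
      (DQ d b T).eval ((rf (X ^ d) (DQ d b T))^[j] (M b c)) ≠ 0 := by
    intro c m h j hj
    rw [hit _ _ fun i hi => h i (by omega)]
    refine hQz _ (h j hj.le) ?_
    have := h (j + 1) hj
    rwa [Function.iterate_succ_apply'] at this
  have hN : wr (X ^ d) (DQ d b T) ≠ 0 := wr_ne_zero (by omega) hcop hQd
  -- the transferred relations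
  obtain ⟨tr, htr⟩ : ∃ tr : Reln → Reln, tr = fun ρ => ⟨M b ρ.c, ρ.n, M b ρ.c', ρ.n'⟩ := ⟨_, rfl⟩
  obtain ⟨mu, hmu⟩ : ∃ mu : Fin N → ℂ, mu = fun i => M b ((ev T)^[(ρ i).n] (ρ i).c) ^ 2 :=
    ⟨_, rfl⟩
  have hmu0 : ∀ i, mu i ≠ 0 := fun i => by
    rw [hmu]
    exact pow_ne_zero _ (M_ne ((hob i).1 _ le_rfl))
  obtain ⟨β', hβ'⟩ : ∃ β' : Fin N → ℂ, β' = fun i => β i / mu i := ⟨_, rfl⟩
  -- the linear form
  obtain ⟨f, hf⟩ : ∃ f : WW (X ^ d) (DQ d b T) d →ₗ[ℂ] ℂ,
      f = ∑ i, β' i • rform (X ^ d) (DQ d b T) d (tr (ρ i)) := ⟨_, rfl⟩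
  have hfw : ∀ w : WW (X ^ d) (DQ d b T) d, f w = ∑ i, β' i *
      (spd (X ^ d) (DQ d b T) w.1.1 (M b (ρ i).c) (w.1.2.2 (M b (ρ i).c)) (ρ i).n -
        spd (X ^ d) (DQ d b T) w.1.1 (M b (ρ i).c') (w.1.2.2 (M b (ρ i).c')) (ρ i).n') := by
    intro w
    rw [hf, LinearMap.sum_apply]
    refine Finset.sum_congr rfl fun i _ => ?_
    rw [LinearMap.smul_apply, smul_eq_mul, htr]
    rfl
  have hspan : f ∈ Submodule.span ℂ (Set.range fun _ : Fin 1 =>
      rform (X ^ d) (DQ d b T) d (⟨0, 1, 0, 0⟩ : Reln)) := by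
    refine mem_span_of_iInf_ker_le_ker fun w hw => ?_
    rw [Submodule.mem_iInf] at hw
    have h1 := hw 0
    rw [LinearMap.mem_ker] at h1
    obtain ⟨H, u', κ', α, hHd, hDP, hsp⟩ := down hp hd hT hcb w.2.1 w.2.2 (sub_eq_zero.1 h1)
    rw [LinearMap.mem_ker, hfw]
    have h2 := hβ H u' κ' hHd hDP
    rw [← neg_eq_zero, ← h2, ← Finset.sum_neg_distrib]
    refine Finset.sum_congr rfl fun i _ => ?_
    rw [hsp _ _ (hob i).1, hsp _ _ (hob i).2, ← hρ i, hβ']
    have h3 := hmu0 i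
    have h4 : M b ((ev T)^[(ρ i).n] (ρ i).c) ^ 2 = mu i := by rw [hmu]
    rw [h4]
    simp only
    field_simp
    ring
  obtain ⟨s, hs⟩ := (Submodule.mem_span_range_iff_exists_fun ℂ).1 hspan
  have hs' : ∀ w : WW (X ^ d) (DQ d b T) d, s 0 *
      (spd (X ^ d) (DQ d b T) w.1.1 0 (w.1.2.2 0) 1 -
        spd (X ^ d) (DQ d b T) w.1.1 0 (w.1.2.2 0) 0) = f w := by
    intro w
    rw [← hs, Fin.sum_univ_one, LinearMap.smul_apply, smul_eq_mul]
    rfl
  have hcritr : ∀ w, (wr (X ^ d) (DQ d b T)).eval w = 0 → (DQ d b T).eval w ≠ 0 := by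
    intro w hw
    rcases crit_cases hp hd hT.le hw with rfl | ⟨c, h1, rfl, h2⟩
    · exact hQ0
    · exact hQz c h1 (hvb c h2)
  have heps := eps hPF hI hG hd hcop (natDegree_X_pow d).le hQd hN hcritr
    (A₀ := {w : ℂ | Att d (X ^ d) (DQ d b T) (w : OnePoint ℂ)})
    ((att_open (by omega) hcop (natDegree_X_pow d).le hQd).preimage OnePoint.continuous_coe)
    (dense_conj hp hd hT hb hdense) (wandering_att hd hcop hQd)
    (m := N + 1) (ρ := Fin.cons ⟨0, 1, 0, 0⟩ fun i => tr (ρ i)) (b := Fin.cons (-(s 0)) β')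
    (by
      intro i
      refine Fin.cases ?_ (fun i => ?_) i
      · simp [hrf0]
      · simp only [Fin.cons_succ, htr]
        rw [hit _ _ (hob i).1, hit _ _ (hob i).2, hρ i])
    (by
      intro i
      refine Fin.cases ?_ (fun i => ?_) i
      · intro j hj
        simp only [Fin.cons_zero] at hj ⊢
        have : j = 0 := by omega
        subst this
        exact hQ0
      · simp only [Fin.cons_succ, htr]
        exact hQit _ _ (hob i).1)
    (by
      intro i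
      refine Fin.cases ?_ (fun i => ?_) i
      · intro j hj
        simp only [Fin.cons_zero] at hj
        exact absurd hj (Nat.not_lt_zero _)
      · simp only [Fin.cons_succ, htr]
        exact hQit _ _ (hob i).2)
    (by
      intro S u κ hS hDf
      have h1 := hs' ⟨(S, u, κ), hS, hDf⟩
      rw [hfw] at h1
      rw [Fin.sum_univ_succ]
      simp only [Fin.cons_zero, Fin.cons_succ, htr]
      linear_combination -h1)
  rw [Fin.sum_univ_succ] at heps
  simp only [Fin.cons_zero, Fin.cons_succ, htr] at heps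
  -- evaluation
  ext y
  rw [Finsupp.zero_apply, Finsupp.finsetSum_apply]
  by_cases hy : y = b
  · refine Finset.sum_eq_zero fun i _ => ?_
    obtain ⟨-, -, h1⟩ := hDV d b T hd hT _ _ (hob i).1
    obtain ⟨-, -, h2⟩ := hDV d b T hd hT _ _ (hob i).2
    rw [hy, Finsupp.smul_apply, Finsupp.sub_apply, h1, h2, sub_self, smul_zero]
  · have h1 := DFunLike.congr_fun heps (M b y)
    have hMy : M b y ≠ 0 := M_ne hy
    have h2 : dv (X ^ d) (DQ d b T) 0 1 = 0 := by
      simp only [dv, Function.iterate_zero, id_eq, hwr0, zero_div, zero_smul]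
    have h3 : dv (X ^ d) (DQ d b T) 0 0 (M b y) = 0 := by
      simp only [dv]
      rw [Finsupp.single_apply, if_neg fun h => hMy h.symm]
    rw [Finsupp.add_apply, Finsupp.smul_apply, Finsupp.sub_apply, h2, h3,
      Finsupp.finsetSum_apply] at h1
    simp only [Finsupp.zero_apply, sub_self, smul_zero, zero_add] at h1
    have h4 : ∀ i, (β' i • (dv (X ^ d) (DQ d b T) (M b (ρ i).c) (ρ i).n -
        dv (X ^ d) (DQ d b T) (M b (ρ i).c') (ρ i).n')) (M b y) =
        (y - b) ^ 2 * (β i • (dvP T (ρ i).c (ρ i).n - dvP T (ρ i).c' (ρ i).n')) y := by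
      intro i
      obtain ⟨h5, -, -⟩ := hDV d b T hd hT _ _ (hob i).1
      obtain ⟨h6, -, -⟩ := hDV d b T hd hT _ _ (hob i).2
      rw [Finsupp.smul_apply, Finsupp.sub_apply, h5 y hy, h6 y hy, Finsupp.smul_apply,
        Finsupp.sub_apply, ← hρ i, hβ']
      have h3 := hmu0 i
      have h4 : M b ((ev T)^[(ρ i).n] (ρ i).c) ^ 2 = mu i := by rw [hmu]
      rw [h4]
      simp only [smul_eq_mul]
      field_simp
    rw [Finset.sum_congr rfl fun i _ => h4 i, ← Finset.mul_sum] at h1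
    exact (mul_eq_zero.1 h1).resolve_left (pow_ne_zero _ (sub_ne_zero.2 hy))

end Pool.Agent.H207.TP
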