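import Pool.Agent.H207.TP.Stm

/-! Project TP: transfer of polynomial families to rational families. -/

set_option autoImplicit false

open Metric Set MeasureTheory Filter Topology Polynomial
open scoped OnePoint ENNReal

namespace Pool.Agent.H207.TP

open Pool.Agent.H792R2.CE Pool.Agent.H792R2 Pool.Agent.H207.TF
open Pool.Agent.H211.LR Pool.Agent.H211.AD
open Pool.Agent.H211.LD (pol pol_coeff pol_natDegree_le pol_add_smul)

/-- the lemmas of the project -/
structure Pack : Prop where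
  REV : S_REV
  RLI : S_RLI
  WRV : S_WRV
  SPH : S_SPH
  ITD : S_ITD
  ATT1 : S_ATT1
  ATT2 : S_ATT2
  ESCB : S_ESCB

/-- coefficients of polynomials -/
abbrev PC (d : ℕ) : Type := Fin (d + 1) → ℂ

/-- the linear part of the transfer -/
noncomputable def conjL (d : ℕ) (b : ℂ) (v : PC d) : EE d :=
  fun q => if q.1 = 0 then 0 else (rev d b (pol v)).coeff q.2

/-- the transfer of the coefficients -/
noncomputable def conjE (d : ℕ) (b : ℂ) (a : PC d) : EE d :=
  fun q => if q.1 = 0 then (X ^ d : ℂ[X]).coeff q.2 else (DQ d b (pol a)).coeff q.2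

theorem rev_zero (m : ℕ) (b : ℂ) : rev m b 0 = 0 := by simp [rev]

theorem rev_sum (hp : Pack) {ι : Type*} (s : Finset ι) (m : ℕ) (b : ℂ) (F : ι → ℂ[X]) :
    rev m b (∑ i ∈ s, F i) = ∑ i ∈ s, rev m b (F i) := by
  classical
  induction s using Finset.induction_on with
  | empty => simp [rev_zero]
  | insert i s hi ih => rw [Finset.sum_insert hi, Finset.sum_insert hi, hp.RLI.1, ih]

theorem DQ_eq (hp : Pack) (d : ℕ) (b : ℂ) (T : ℂ[X]) : DQ d b T = rev d b T - C b * rev d b 1 := by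
  unfold DQ
  have h1 := hp.RLI.1 d b (T - C b) (C b * 1)
  have h2 := hp.RLI.2.1 d b b 1
  rw [mul_one, sub_add_cancel] at h1
  rw [mul_one] at h2
  rw [h1, h2]
  ring

theorem deg_sub_C {T : ℂ[X]} {d : ℕ} (h : T.natDegree ≤ d) (b : ℂ) : (T - C b).natDegree ≤ d := by
  refine (natDegree_sub_le _ _).trans (max_le h ?_)
  rw [natDegree_C]
  exact Nat.zero_le _

theorem DQ_deg_le (hp : Pack) {T : ℂ[X]} {d : ℕ} (h : T.natDegree ≤ d) (b : ℂ) :
    (DQ d b T).natDegree ≤ d := (hp.REV d b _ (deg_sub_C h b)).1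

theorem PP_conjE {d : ℕ} (b : ℂ) (a : PC d) : PP (conjE d b a) = X ^ d := by
  have h : (X ^ d : ℂ[X]).natDegree ≤ d := (natDegree_X_pow d).le
  exact pol_of_coeff h

theorem QQ_conjE (hp : Pack) {d : ℕ} (b : ℂ) (a : PC d) :
    QQ (conjE d b a) = DQ d b (pol a) := pol_of_coeff (DQ_deg_le hp (pol_natDegree_le a) b)

theorem PP_conjL {d : ℕ} (b : ℂ) (v : PC d) : PP (conjL d b v) = 0 := by
  have h : (0 : ℂ[X]).natDegree ≤ d := by simp
  have := pol_of_coeff h
  simpa [PP, conjL] using this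

theorem QQ_conjL (hp : Pack) {d : ℕ} (b : ℂ) (v : PC d) :
    QQ (conjL d b v) = rev d b (pol v) := pol_of_coeff (hp.REV d b _ (pol_natDegree_le v)).1

/-- the linear part as a linear map -/
noncomputable def conjM (hp : Pack) (d : ℕ) (b : ℂ) : PC d →ₗ[ℂ] EE d where
  toFun := conjL d b
  map_add' u v := by
    funext q
    have h1 : pol (u + v) = pol u + pol v := by
      have := pol_add_smul u v 1
      simpa using this
    simp only [conjL, Pi.add_apply, h1, hp.RLI.1, coeff_add]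
    split_ifs
    · simp
    · rfl
  map_smul' s v := by
    funext q
    have h1 : pol (s • v) = C s * pol v := by
      have := pol_add_smul (0 : PC d) v s
      simpa [pol] using this
    simp only [conjL, Pi.smul_apply, h1, hp.RLI.2.1, RingHom.id_apply, smul_eq_mul]
    split_ifs
    · simp
    · rw [coeff_C_mul]

theorem conjE_eq (hp : Pack) (d : ℕ) (b : ℂ) (a : PC d) :
    conjE d b a = conjE d b 0 + conjM hp d b a := by
  have h0 : pol (0 : PC d) = 0 := by simp [pol]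
  funext q
  change conjE d b a q = conjE d b 0 q + conjL d b a q
  simp only [conjE, conjL]
  split_ifs
  · simp
  · rw [h0, DQ_eq hp, DQ_eq hp, rev_zero, coeff_sub, coeff_sub]
    simp only [coeff_zero]
    ring

theorem conjE_hasFDerivAt (hp : Pack) (d : ℕ) (b : ℂ) (a : PC d) :
    HasFDerivAt (conjE d b) (conjM hp d b).toContinuousLinearMap a := by
  have h1 : HasFDerivAt (fun a => conjE d b 0 + (conjM hp d b).toContinuousLinearMap a)
      (conjM hp d b).toContinuousLinearMap a :=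
    (ContinuousLinearMap.hasFDerivAt _).const_add _
  exact h1.congr_of_eventuallyEq (Eventually.of_forall fun a => conjE_eq hp d b a)

theorem fderiv_comp (hp : Pack) {d n : ℕ} (b : ℂ) {p : (Fin n → ℂ) → PC d} {x : Fin n → ℂ}
    (h : DifferentiableAt ℂ p x) (v : Fin n → ℂ) :
    fderiv ℂ (fun y => conjE d b (p y)) x v = conjL d b (fderiv ℂ p x v) := by
  have h1 := (conjE_hasFDerivAt hp d b (p x)).comp x h.hasFDerivAt
  have h2 : fderiv ℂ (fun y => conjE d b (p y)) x =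
      (conjM hp d b).toContinuousLinearMap.comp (fderiv ℂ p x) := h1.fderiv
  rw [h2]
  rfl

theorem diff_comp (hp : Pack) {d n : ℕ} (b : ℂ) {p : (Fin n → ℂ) → PC d} {U : Set (Fin n → ℂ)}
    (h : DifferentiableOn ℂ p U) : DifferentiableOn ℂ (fun y => conjE d b (p y)) U := by
  intro x hx
  exact (conjE_hasFDerivAt hp d b (p x)).differentiableAt.comp_differentiableWithinAt x (h x hx)

theorem varS_conj (hp : Pack) {d : ℕ} (b : ℂ) (a v : PC d) :
    varS (conjE d b a) (conjL d b v) = -(X ^ d * rev d b (pol v)) := by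
  unfold varS
  rw [PP_conjL, PP_conjE, QQ_conjL hp]
  ring

/-! ### one polynomial -/

section one
variable {d : ℕ} {b : ℂ} {T : ℂ[X]}

theorem M_ne {z : ℂ} (h : z ≠ b) : M b z ≠ 0 := inv_ne_zero (sub_ne_zero.2 h)

theorem M_inv {w : ℂ} (h : w ≠ 0) : M b (b + w⁻¹) = w ∧ b + w⁻¹ ≠ b := by
  constructor
  · unfold M
    rw [add_sub_cancel_left, inv_inv]
  · intro h'
    rw [add_eq_left] at h'
    exact inv_ne_zero h h'

theorem Mh_ne {z : ℂ} (h : z ≠ b) : Mh b z = ((M b z : ℂ) : OnePoint ℂ) := by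
  unfold Mh
  rw [if_neg h]

theorem Mh_self : Mh b b = (∞ : OnePoint ℂ) := by
  unfold Mh
  rw [if_pos rfl]

theorem DQ_eval (hp : Pack) (hT : T.natDegree ≤ d) {z : ℂ} (hz : z ≠ b) :
    (DQ d b T).eval (M b z) = M b z ^ d * (T.eval z - b) := by
  have := (hp.REV d b (T - C b) (deg_sub_C hT b)).2.1 z hz
  rwa [eval_sub, eval_C] at this

theorem wr_eval (hp : Pack) (hd : 1 ≤ d) (hT : T.natDegree ≤ d) {z : ℂ} (hz : z ≠ b) :
    (wr (X ^ d) (DQ d b T)).eval (M b z) = M b z ^ (2 * d - 2) * (derivative T).eval z := by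
  have h1 : (derivative T).natDegree ≤ d - 1 := (natDegree_derivative_le _).trans (by omega)
  rw [hp.WRV d b T hd hT, eval_mul, eval_pow, eval_X, (hp.REV (d - 1) b _ h1).2.1 z hz,
    ← mul_assoc, ← pow_add]
  congr 2
  omega

theorem wr_eval_zero (hp : Pack) (hd : 2 ≤ d) (hT : T.natDegree ≤ d) :
    (wr (X ^ d) (DQ d b T)).eval 0 = 0 := by
  rw [hp.WRV d b T (by omega) hT, eval_mul, eval_pow, eval_X, zero_pow (by omega), zero_mul]

/-- the critical points -/
theorem crit_cases (hp : Pack) (hd : 2 ≤ d) (hT : T.natDegree ≤ d) {w : ℂ}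
    (hw : (wr (X ^ d) (DQ d b T)).eval w = 0) :
    w = 0 ∨ ∃ c, c ≠ b ∧ w = M b c ∧ (derivative T).eval c = 0 := by
  by_cases h0 : w = 0
  · exact Or.inl h0
  · obtain ⟨h1, h2⟩ := M_inv (b := b) h0
    refine Or.inr ⟨b + w⁻¹, h2, h1.symm, ?_⟩
    rw [← h1, wr_eval hp (by omega) hT h2] at hw
    rcases mul_eq_zero.1 hw with h | h
    · exact absurd h (pow_ne_zero _ (M_ne h2))
    · exact h

theorem esc_ne (hb : Esc T b) {z : ℂ} (hz : ¬ Esc T z) (n : ℕ) : (ev T)^[n] z ≠ b := by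
  intro h
  apply hz
  have h1 : Tendsto (fun k : ℕ => ‖(ev T)^[k + n] z‖) atTop atTop := by
    refine hb.congr fun k => ?_
    rw [Function.iterate_add_apply, h]
  exact (tendsto_add_atTop_iff_nat n).1 h1

theorem esc_fix (hb : Esc T b) : T.eval b ≠ b := by
  intro h
  have h1 : ∀ k, (ev T)^[k] b = b := by
    intro k
    induction k with
    | zero => rfl
    | succ k ih => rw [Function.iterate_succ_apply', ih]; exact h
  have h2 : Tendsto (fun _ : ℕ => ‖b‖) atTop atTop := hb.congr fun k => by rw [h1]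
  exact not_tendsto_const_atTop _ _ h2

/-- attracted points -/
theorem att_iff (hp : Pack) (hd : 2 ≤ d) (hT : T.natDegree = d) (hb : Esc T b) (z : ℂ) :
    Att d (X ^ d) (DQ d b T) (Mh b z) ↔ Esc T z ∨ Atr T z :=
  ⟨hp.ATT1 d b T hd hT z, (hp.ATT2 d b T hd hT hb).2 z⟩

/-- the points of the plane -/
theorem natt_form (hp : Pack) (hd : 2 ≤ d) (hT : T.natDegree = d) (hb : Esc T b) {w : ℂ}
    (hw : ¬ Att d (X ^ d) (DQ d b T) (w : OnePoint ℂ)) :
    ∃ z, z ≠ b ∧ w = M b z ∧ ¬ (Esc T z ∨ Atr T z) := by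
  have h0 : w ≠ 0 := by
    rintro rfl
    exact hw (hp.ATT2 d b T hd hT hb).1
  obtain ⟨h1, h2⟩ := M_inv (b := b) h0
  refine ⟨b + w⁻¹, h2, h1.symm, fun h => hw ?_⟩
  have h3 := (att_iff hp hd hT hb (b + w⁻¹)).2 h
  rwa [Mh_ne h2, h1] at h3

theorem DQ_deg (hp : Pack) (hT : T.natDegree ≤ d) (hb : T.eval b ≠ b) :
    (DQ d b T).natDegree = d := by
  obtain ⟨h1, -, -, h2, -⟩ := hp.REV d b (T - C b) (deg_sub_C hT b)
  refine le_antisymm h1 (le_natDegree_of_ne_zero ?_)
  change (rev d b (T - C b)).coeff d ≠ 0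
  rw [h2, eval_sub, eval_C]
  exact sub_ne_zero.2 hb

theorem DQ_zero (hp : Pack) (hd : 2 ≤ d) (hT : T.natDegree ≤ d) :
    (DQ d b T).eval 0 = T.coeff d := by
  obtain ⟨-, -, h1, -, -⟩ := hp.REV d b (T - C b) (deg_sub_C hT b)
  change (rev d b (T - C b)).eval 0 = _
  rw [h1, coeff_sub, coeff_C, if_neg (by omega), sub_zero]

theorem cop_of (hp : Pack) (hd : 2 ≤ d) (hT : T.natDegree = d) :
    IsCoprime (X ^ d : ℂ[X]) (DQ d b T) := by
  have h1 : (DQ d b T).eval 0 ≠ 0 := by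
    rw [DQ_zero hp hd hT.le, ← hT]
    have h2 : T ≠ 0 := by
      rintro rfl
      simp at hT
      omega
    exact leadingCoeff_ne_zero.2 h2
  have h2 : IsCoprime (X : ℂ[X]) (DQ d b T) := by
    have h3 : Irreducible (X : ℂ[X]) := Polynomial.irreducible_X
    refine (h3.coprime_iff_not_dvd).2 fun h4 => h1 ?_
    obtain ⟨g, hg⟩ := h4
    rw [hg, eval_mul, eval_X, zero_mul]
  exact h2.pow_left

theorem cop_conv (hp : Pack) (hd : 2 ≤ d) (hT : T.natDegree ≤ d)
    (h : IsCoprime (X ^ d : ℂ[X]) (DQ d b T)) : T.natDegree = d := by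
  refine le_antisymm hT (le_natDegree_of_ne_zero ?_)
  rw [← DQ_zero hp (b := b) hd hT]
  intro h0
  obtain ⟨u, v, huv⟩ := h
  have := congrArg (Polynomial.eval 0) huv
  rw [eval_add, eval_mul, eval_mul, h0, eval_pow, eval_X, zero_pow (by omega)] at this
  simp at this

/-- the derivative at the critical value is comparable -/
theorem deriv_comp (hp : Pack) (hd : 2 ≤ d) (hT : T.natDegree = d) (hb : Esc T b) {c : ℂ}
    (hc : ¬ Esc T c) (n : ℕ) :
    rf (X ^ d) (DQ d b T) (M b c) = M b (T.eval c) ∧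
    (rf (X ^ d) (DQ d b T))^[n] (M b c) = M b ((ev T)^[n] c) ∧
    deriv ((rf (X ^ d) (DQ d b T))^[n]) (M b (T.eval c)) =
      deriv ((ev T)^[n]) (T.eval c) * ((T.eval c - b) / ((ev T)^[n] (T.eval c) - b)) ^ 2 := by
  have h1 := fun n => esc_ne hb hc n
  have hs : ∀ n, (ev T)^[n] (T.eval c) = (ev T)^[n + 1] c := fun n =>
    (Function.iterate_succ_apply _ _ _).symm
  have h2 := (hp.ITD d b T (by omega) hT.le c 1 fun j _ => h1 j).1
  refine ⟨?_, (hp.ITD d b T (by omega) hT.le c n fun j _ => h1 j).1,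
    (hp.ITD d b T (by omega) hT.le (T.eval c) n fun j _ => ?_).2 ?_ ?_⟩
  · simpa [ev] using h2
  · rw [hs]; exact h1 _
  · rw [hs]; exact h1 _
  · exact h1 1

/-- the terms of the transversality sums -/
theorem term_conj (hp : Pack) (hd : 2 ≤ d) (hT : T.natDegree = d) (hb : Esc T b) {c : ℂ}
    (hc : ¬ Esc T c) {H : ℂ[X]} (hH : H.natDegree ≤ d) (j : ℕ) :
    TF.term (X ^ d) (DQ d b T) (-(X ^ d * rev d b H)) (M b c) j =
      -((T.eval c - b) ^ 2)⁻¹ * (H.eval ((ev T)^[j] c) / deriv ((ev T)^[j]) (T.eval c)) := by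
  obtain ⟨h1, h2, h3⟩ := deriv_comp hp hd hT hb hc j
  have h4 : (ev T)^[j] c ≠ b := esc_ne hb hc j
  have h5 : (ev T)^[j + 1] c ≠ b := esc_ne hb hc (j + 1)
  have h6 : (ev T)^[j] (T.eval c) = (ev T)^[j + 1] c := (Function.iterate_succ_apply _ _ _).symm
  have h7 : T.eval ((ev T)^[j] c) = (ev T)^[j + 1] c :=
    (Function.iterate_succ_apply' (ev T) _ _).symm
  have h8 : T.eval c ≠ b := esc_ne hb hc 1
  unfold TF.term
  rw [h2, h1, h3, DQ_eval hp hT.le h4, eval_neg, eval_mul, eval_pow, eval_X,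
    (hp.REV d b H hH).2.1 _ h4, h6, h7]
  have a1 := M_ne h4
  have a2 := sub_ne_zero.2 h5
  have a3 := sub_ne_zero.2 h8
  by_cases h9 : deriv ((ev T)^[j]) (T.eval c) = 0
  · rw [h9]
    simp
  · field_simp

end one

end Pool.Agent.H207.TP
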