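import Pool.Agent.H207.TP.Base

/-! Project TP: density and null sets in transversal families of polynomials. -/

set_option autoImplicit false

open Metric Set MeasureTheory Filter Topology Polynomial
open scoped OnePoint ENNReal

namespace Pool.Agent.H207.TP

open Pool.Agent.H792R2.CE Pool.Agent.H792R2 Pool.Agent.H207.TF
open Pool.Agent.H211.LR Pool.Agent.H211.AD
open Pool.Agent.H211.LD (pol pol_coeff pol_natDegree_le pol_add_smul avg)

/-- the hyperbolic polynomials of degree `d` -/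
def hypP (d : ℕ) : Set (PC d) :=
  {a | (pol a).natDegree = d ∧
    ∀ c : ℂ, (derivative (pol a)).eval c = 0 → Esc (pol a) c ∨ Atr (pol a) c}

theorem bad_of (hp : Pack) {d : ℕ} (hd : 2 ≤ d) (b : ℂ) {a : PC d} (ha : a ∉ hypP d) :
    conjE d b a ∈ rbad d := by
  intro hgood
  apply ha
  rw [PP_conjE, QQ_conjE hp] at hgood
  obtain ⟨h1, -, -, h2, h3⟩ := hgood
  have hle := pol_natDegree_le a
  have hT := cop_conv hp hd hle h1
  refine ⟨hT, fun c hc => ?_⟩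
  by_cases hcb : c = b
  · refine hp.ATT1 d b (pol a) hd hT c ?_
    rw [hcb, Mh_self]
    exact h2
  · refine hp.ATT1 d b (pol a) hd hT c ?_
    rw [Mh_ne hcb]
    refine h3 _ ?_
    rw [wr_eval hp (by omega) hle hcb, hc, mul_zero]

/-- the family is transversal -/
def TransP {d n : ℕ} (p : (Fin n → ℂ) → PC d) (x : Fin n → ℂ) : Prop :=
  ∀ c : ℂ, (derivative (pol (p x))).eval c = 0 → ¬ (Esc (pol (p x)) c ∨ Atr (pol (p x)) c) →
    ∃ v : Fin n → ℂ, ∑' j : ℕ, (pol (fderiv ℂ p x v)).eval ((ev (pol (p x)))^[j] c) /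
      deriv ((ev (pol (p x)))^[j]) ((pol (p x)).eval c) ≠ 0

theorem sum_conj (hp : Pack) {d n : ℕ} (hd : 2 ≤ d) {p : (Fin n → ℂ) → PC d} {x : Fin n → ℂ}
    (hdx : DifferentiableAt ℂ p x) (hT : (pol (p x)).natDegree = d) {b : ℂ}
    (hb : Esc (pol (p x)) b) {c : ℂ} (hc : ¬ Esc (pol (p x)) c) (v : Fin n → ℂ) :
    ∑' j, term (PP (conjE d b (p x))) (QQ (conjE d b (p x)))
      (varS (conjE d b (p x)) (fderiv ℂ (fun y => conjE d b (p y)) x v)) (M b c) j =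
    -(((pol (p x)).eval c - b) ^ 2)⁻¹ *
      ∑' j : ℕ, (pol (fderiv ℂ p x v)).eval ((ev (pol (p x)))^[j] c) /
        deriv ((ev (pol (p x)))^[j]) ((pol (p x)).eval c) := by
  rw [← tsum_mul_left]
  refine tsum_congr fun j => ?_
  rw [fderiv_comp hp b hdx, varS_conj hp, PP_conjE, QQ_conjE hp]
  exact term_conj hp hd hT hb hc (pol_natDegree_le _) j

theorem trans_conj (hp : Pack) {d n : ℕ} (hd : 2 ≤ d) {p : (Fin n → ℂ) → PC d} {x : Fin n → ℂ}
    (hdx : DifferentiableAt ℂ p x) (hT : (pol (p x)).natDegree = d) {b : ℂ}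
    (hb : Esc (pol (p x)) b) (h : TransP p x) :
    ∀ c : ℂ, (wr (PP (conjE d b (p x))) (QQ (conjE d b (p x)))).eval c = 0 →
      ¬ Att d (PP (conjE d b (p x))) (QQ (conjE d b (p x))) (c : OnePoint ℂ) →
      ∃ v : Fin n → ℂ, ∑' j, term (PP (conjE d b (p x))) (QQ (conjE d b (p x)))
        (varS (conjE d b (p x)) (fderiv ℂ (fun y => conjE d b (p y)) x v)) c j ≠ 0 := by
  intro w hw hA
  have hw' := hw
  have hA' := hA
  rw [PP_conjE, QQ_conjE hp] at hw' hA'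
  rcases crit_cases hp hd hT.le hw' with rfl | ⟨c, hcb, rfl, hc⟩
  · exact absurd (hp.ATT2 d b _ hd hT hb).1 hA'
  · have hcA : ¬ (Esc (pol (p x)) c ∨ Atr (pol (p x)) c) := fun h' => hA' (by
      have := (hp.ATT2 d b _ hd hT hb).2 c h'
      rwa [Mh_ne hcb] at this)
    have hcE : ¬ Esc (pol (p x)) c := fun h => hcA (Or.inl h)
    obtain ⟨v, hv⟩ := h c hc hcA
    refine ⟨v, ?_⟩
    rw [sum_conj hp hd hdx hT hb hcE v]
    have h8 : (pol (p x)).eval c ≠ b := esc_ne hb hcE 1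
    exact mul_ne_zero (neg_ne_zero.2 (inv_ne_zero (pow_ne_zero _ (sub_ne_zero.2 h8)))) hv

/-- **Transversal families of polynomials, Collet-Eckmann.** -/
theorem pfamA (hp : Pack) (hPU : S_PUIS) (hIN : S_INSTG) {d n : ℕ} (hd : 2 ≤ d)
    {p : (Fin n → ℂ) → PC d} {U : Set (Fin n → ℂ)} (hU : IsOpen U) {x : Fin n → ℂ} (hx : x ∈ U)
    (hdp : DifferentiableOn ℂ p U) (hT : (pol (p x)).natDegree = d)
    (hCE : ∀ c : ℂ, (derivative (pol (p x))).eval c = 0 →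
      (Esc (pol (p x)) c ∨ Atr (pol (p x)) c) ∨ CE (pol (p x)) c)
    (htr : TransP p x) :
    (∃ 𝒱 : Finset (Submodule ℂ (Fin n → ℂ)), 𝒱.card ≤ 2 * (d - 1) ∧ (∀ V ∈ 𝒱, V ≠ ⊤) ∧
      ∀ b : Fin n → ℂ, (∀ V ∈ 𝒱, b ∉ V) →
        Rate fun r => volume {s : ℂ | ‖s‖ < r ∧ p (x + s • b) ∉ hypP d}) ∧
    Tendsto (fun r : ℝ => volume ({y | p y ∉ hypP d} ∩ ball x r) / volume (ball x r))
      (𝓝[>] 0) (𝓝 0) := by
  obtain ⟨b, -, hb⟩ := (hp.ESCB (pol (p x)) (by omega)).1 ∅ Set.finite_empty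
  have hB := base_conj hp hd hT hb hCE
  rw [← PP_conjE b (p x), ← QQ_conjE hp] at hB
  obtain ⟨⟨𝒱, h1, h2, h3⟩, h4⟩ := famA hPU hIN hU hx (diff_comp hp b hdp) hB
    (trans_conj hp hd ((hdp x hx).differentiableAt (hU.mem_nhds hx)) hT hb htr)
  refine ⟨⟨𝒱, h1, h2, fun v hv => ?_⟩, ?_⟩
  · obtain ⟨c, hc, C, hC, r₁, hr₁, h6⟩ := h3 v hv
    refine ⟨c, hc, C, hC, r₁, hr₁, fun r hr hrr => (measure_mono ?_).trans (h6 r hr hrr)⟩
    rintro s ⟨hs, hs2⟩
    exact ⟨hs, bad_of hp hd b hs2⟩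
  · refine tendsto_of_tendsto_of_tendsto_of_le_of_le tendsto_const_nhds h4 (fun _ => zero_le)
      fun r => ?_
    apply ENNReal.div_le_div_right
    apply measure_mono
    rintro y ⟨hy1, hy2⟩
    exact ⟨bad_of hp hd b hy1, hy2⟩

/-- **Transversal families of polynomials, weakly expanding.** -/
theorem pfamW (hp : Pack) (hPU : S_PUIS) (hIN : S_INSTG) {d n : ℕ} (hd : 2 ≤ d)
    {p : (Fin n → ℂ) → PC d} {U : Set (Fin n → ℂ)} (hU : IsOpen U) {x : Fin n → ℂ} (hx : x ∈ U)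
    (hdp : DifferentiableOn ℂ p U) (hT : (pol (p x)).natDegree = d)
    (hnull : volume {z : ℂ | ¬ (Esc (pol (p x)) z ∨ Atr (pol (p x)) z)} = 0)
    (hS : ∀ c : ℂ, (derivative (pol (p x))).eval c = 0 →
      (Esc (pol (p x)) c ∨ Atr (pol (p x)) c) ∨ Smb (pol (p x)) c)
    (hG : ∃ μ : ℝ, 1 < μ ∧ ∃ᶠ n : ℕ in atTop, ∀ c : ℂ, (derivative (pol (p x))).eval c = 0 →
      (Esc (pol (p x)) c ∨ Atr (pol (p x)) c) ∨
        ∃ m ≤ n, μ ^ n ≤ ‖deriv ((ev (pol (p x)))^[m]) ((pol (p x)).eval c)‖)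
    (htr : TransP p x) :
    (∃ 𝒱 : Finset (Submodule ℂ (Fin n → ℂ)), 𝒱.card ≤ 2 * (d - 1) ∧ (∀ V ∈ 𝒱, V ≠ ⊤) ∧
      ∀ b : Fin n → ℂ, (∀ V ∈ 𝒱, b ∉ V) →
        liminf (fun N => avg (propLine {y | p y ∉ hypP d} x b) N) atTop = 0) ∧
    liminf (fun N => avg (prop {y | p y ∉ hypP d} x) N) atTop = 0 := by
  obtain ⟨b, -, hb⟩ := (hp.ESCB (pol (p x)) (by omega)).1 ∅ Set.finite_empty
  have hB := sbase_conj hp hd hT hb hnull hS
  obtain ⟨μ, hμ, hexp⟩ := grow_conj hp hd hT hb hG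
  rw [← PP_conjE b (p x), ← QQ_conjE hp] at hB hexp
  obtain ⟨⟨𝒱, h1, h2, h3⟩, h4⟩ := famW hPU hIN hU hx (diff_comp hp b hdp) hB hμ hexp
    (trans_conj hp hd ((hdp x hx).differentiableAt (hU.mem_nhds hx)) hT hb htr)
  have hle : ∀ {u w : ℕ → ℝ≥0∞}, (∀ k, u k ≤ w k) → liminf (fun N => avg w N) atTop = 0 →
      liminf (fun N => avg u N) atTop = 0 := by
    intro u w huw h0
    refine le_antisymm ?_ zero_le
    rw [← h0]
    exact Filter.liminf_le_liminf (Eventually.of_forall fun N =>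
      Pool.Agent.H211.LD.avg_mono huw N)
  refine ⟨⟨𝒱, h1, h2, fun v hv => hle (fun k => ?_) (h3 v hv)⟩, hle (fun k => ?_) h4⟩
  · unfold propLine
    apply ENNReal.div_le_div_right
    exact measure_mono fun s hs => ⟨hs.1, bad_of hp hd b hs.2⟩
  · unfold Pool.Agent.H211.LR.prop
    apply ENNReal.div_le_div_right
    exact measure_mono fun s hs => ⟨bad_of hp hd b hs.1, hs.2⟩

/-- **Null sets.** -/
theorem pnull (hp : Pack) (hPU : S_PUIS) (hIN : S_INSTG) {d n : ℕ} (hd : 2 ≤ d)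
    {p : (Fin n → ℂ) → PC d} {U : Set (Fin n → ℂ)} (hU : IsOpen U)
    (hdp : DifferentiableOn ℂ p U) {A : Set (Fin n → ℂ)} (hAU : A ⊆ U)
    (hT : ∀ x ∈ A, (pol (p x)).natDegree = d)
    (hnull : ∀ x ∈ A, volume {z : ℂ | ¬ (Esc (pol (p x)) z ∨ Atr (pol (p x)) z)} = 0)
    (hS : ∀ x ∈ A, ∀ c : ℂ, (derivative (pol (p x))).eval c = 0 →
      (Esc (pol (p x)) c ∨ Atr (pol (p x)) c) ∨ Smb (pol (p x)) c)
    (hG : ∀ x ∈ A, ∃ μ : ℝ, 1 < μ ∧ ∃ᶠ n : ℕ in atTop,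
      ∀ c : ℂ, (derivative (pol (p x))).eval c = 0 → (Esc (pol (p x)) c ∨ Atr (pol (p x)) c) ∨
        ∃ m ≤ n, μ ^ n ≤ ‖deriv ((ev (pol (p x)))^[m]) ((pol (p x)).eval c)‖)
    (htr : ∀ x ∈ A, TransP p x) (hbad : ∀ x ∈ A, p x ∉ hypP d) :
    volume A = 0 := by
  have h1 := Besicovitch.ae_tendsto_measure_inter_div (volume : Measure (Fin n → ℂ)) A
  rw [ae_iff] at h1
  have h2 : A ⊆ {a | ¬ Tendsto (fun r => volume (A ∩ closedBall a r) / volume (closedBall a r))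
      (𝓝[>] 0) (𝓝 1)} := by
    intro x hx ht
    obtain ⟨-, h3⟩ := pfamW hp hPU hIN hd hU (hAU hx) hdp (hT x hx) (hnull x hx) (hS x hx)
      (hG x hx) (htr x hx)
    have h4 : Tendsto (fun k : ℕ => ((1 / 2 : ℝ) ^ k)) atTop (𝓝[>] 0) := by
      refine tendsto_nhdsWithin_iff.2 ⟨?_, Eventually.of_forall fun k => ?_⟩
      · exact tendsto_pow_atTop_nhds_zero_of_lt_one (by norm_num) (by norm_num)
      · exact Set.mem_Ioi.2 (by positivity)
    have h5 := (ht.comp h4).eventually (lt_mem_nhds (show (1 / 2 : ℝ≥0∞) < 1 by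
      rw [ENNReal.div_lt_iff (by simp) (by simp)]
      norm_num))
    obtain ⟨k₀, hk₀⟩ := Filter.eventually_atTop.1 h5
    have h6 : ∀ k ≥ k₀, 1 / 2 ≤ prop {y | p y ∉ hypP d} x k := by
      intro k hk
      refine (hk₀ k hk).le.trans ?_
      have hr' : ((1 / 2 : ℝ) ^ k) ≠ 0 := by positivity
      obtain ⟨r, hr⟩ : ∃ r, r = (1 / 2 : ℝ) ^ k := ⟨_, rfl⟩
      rw [Function.comp, prop, ← hr]
      rw [← hr] at hr'
      refine ENNReal.div_le_div ?_ (measure_mono ball_subset_closedBall)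
      calc volume (A ∩ closedBall x r) ≤
            volume (({y | p y ∉ hypP d} ∩ ball x r) ∪ sphere x r) := by
            apply measure_mono
            rintro y ⟨hy1, hy2⟩
            rcases (mem_closedBall.1 hy2).lt_or_eq with h | h
            · exact Or.inl ⟨hbad y hy1, mem_ball.2 h⟩
            · exact Or.inr (mem_sphere.2 h)
        _ ≤ volume ({y | p y ∉ hypP d} ∩ ball x r) + volume (sphere x r) := measure_union_le _ _
        _ = volume ({y | p y ∉ hypP d} ∩ ball x r) := by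
            rw [Measure.addHaar_sphere_of_ne_zero _ x hr', add_zero]
    have h7 := avg_ge h6
    rw [h3] at h7
    simp at h7
  have h3 := measure_mono_null h2 h1
  rwa [Measure.restrict_apply_self] at h3

/-- almost every point is attracted -/
theorem pnull_of_ce (hp : Pack) {d : ℕ} (hd : 2 ≤ d) {T : ℂ[X]} (hT : T.natDegree = d)
    (hCE : ∀ c : ℂ, (derivative T).eval c = 0 → (Esc T c ∨ Atr T c) ∨ CE T c) :
    volume {z : ℂ | ¬ (Esc T z ∨ Atr T z)} = 0 := by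
  obtain ⟨b, -, hb⟩ := (hp.ESCB T (by omega)).1 ∅ Set.finite_empty
  have hB := (base_conj hp hd hT hb hCE).null
  have h1 : {z : ℂ | ¬ (Esc T z ∨ Atr T z)} ⊆ (fun w : ℂ => b + w⁻¹) ''
      ({w : ℂ | ¬ Att d (X ^ d) (DQ d b T) (w : OnePoint ℂ)} ∩ {0}ᶜ) := by
    intro z hz
    have hzb : z ≠ b := by
      rintro rfl
      exact hz (Or.inl hb)
    refine ⟨M b z, ⟨fun h => hz ?_, M_ne hzb⟩, ?_⟩
    · rw [← Mh_ne hzb] at h
      exact hp.ATT1 d b T hd hT z h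
    · unfold M
      simp
  refine measure_mono_null h1 ?_
  refine MeasureTheory.addHaar_image_eq_zero_of_differentiableOn_of_addHaar_eq_zero volume
    (f := fun w : ℂ => b + w⁻¹) ?_ (measure_mono_null Set.inter_subset_left hB)
  intro w hw
  have h3 : DifferentiableAt ℂ (fun w : ℂ => b + w⁻¹) w :=
    (differentiableAt_inv hw.2).const_add b
  exact (h3.restrictScalars ℝ).differentiableWithinAt

end Pool.Agent.H207.TP
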