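import Pool.Agent.H207.TP.Fin1

/-! Project TP: transversality of the families which contain the deformations. -/

set_option autoImplicit false

open Metric Set MeasureTheory Filter Topology Polynomial
open scoped OnePoint ENNReal

namespace Pool.Agent.H207.TP

open Pool.Agent.H792R2.CE Pool.Agent.H792R2 Pool.Agent.H207.TF
open Pool.Agent.H211.LR Pool.Agent.H211.AD
open Pool.Agent.H211.LD (pol pol_coeff pol_natDegree_le pol_add_smul avg)

/-- the polynomial `H` is an infinitesimal deformation of `T` which keeps the multiplicities of the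
critical points and the coincidences of the critical values -/
def DfmP (T H : ℂ[X]) (u κ : ℂ → ℂ) : Prop :=
  ∀ c : ℂ, (derivative T).eval c = 0 → (X - C c) ^ ((derivative T).rootMultiplicity c + 1) ∣
    H - C (u (T.eval c)) + C (κ c) * derivative T

/-- speeds of the points of the orbits -/
noncomputable def spdP (T H : ℂ[X]) (c w : ℂ) : ℕ → ℂ
  | 0 => w
  | n + 1 => H.eval ((ev T)^[n] c) + (derivative T).eval ((ev T)^[n] c) * spdP T H c w n

/-- the infinitesimal conjugation by `α + β z` -/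
noncomputable def conjP (T : ℂ[X]) (α β : ℂ) : ℂ[X] :=
  C α + C β * T - derivative T * (C α + C β * X)

/-- relations -/
def OkP (T : ℂ[X]) (ρ : Reln) : Prop :=
  (derivative T).eval ρ.c = 0 ∧ (derivative T).eval ρ.c' = 0 ∧
    (ev T)^[ρ.n] ρ.c = (ev T)^[ρ.n'] ρ.c' ∧
    ((Esc T ρ.c ∨ Atr T ρ.c) ∨ Function.Injective fun j => (ev T)^[j] ρ.c) ∧
    ((Esc T ρ.c' ∨ Atr T ρ.c') ∨ Function.Injective fun j => (ev T)^[j] ρ.c')

/-- the deformation keeps the relation -/
def KeepP (T H : ℂ[X]) (κ : ℂ → ℂ) (ρ : Reln) : Prop :=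
  spdP T H ρ.c (κ ρ.c) ρ.n = spdP T H ρ.c' (κ ρ.c') ρ.n'

section
variable {d : ℕ} {b : ℂ} {T : ℂ[X]}

theorem ext_M {F G : ℂ[X]} (h : ∀ z : ℂ, z ≠ b → F.eval (M b z) = G.eval (M b z)) : F = G := by
  refine Polynomial.eq_of_infinite_eval_eq _ _ ?_
  refine Set.Infinite.mono (s := {w : ℂ | w ≠ 0}) ?_ ?_
  · intro w hw
    obtain ⟨h1, h2⟩ := M_inv (b := b) hw
    have := h _ h2
    rwa [h1] at this
  · exact (Set.finite_singleton (0 : ℂ)).infinite_compl

theorem M_pow {z : ℂ} (hz : z ≠ b) (k : ℕ) : M b z ^ k * (z - b) ^ k = 1 := by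
  rw [← mul_pow, M, inv_mul_cancel₀ (sub_ne_zero.2 hz), one_pow]

/-- the conjugations -/
theorem conj_id (hp : Pack) (hd : 2 ≤ d) (hT : T.natDegree ≤ d) (α β : ℂ) :
    -(X ^ d * rev d b (conjP T α β)) = conjS (X ^ d) (DQ d b T) 0 (-β) (-(α + β * b)) := by
  have hdeg : (conjP T α β).natDegree ≤ d := by
    unfold conjP
    have h1 : (derivative T).natDegree ≤ d - 1 := (natDegree_derivative_le _).trans (by omega)
    have h2 : (C α + C β * X : ℂ[X]).natDegree ≤ 1 := by
      refine (natDegree_add_le _ _).trans (max_le ?_ ?_)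
      · rw [natDegree_C]; exact zero_le_one
      · exact (natDegree_C_mul_le _ _).trans natDegree_X_le
    refine (natDegree_sub_le _ _).trans (max_le ((natDegree_add_le _ _).trans (max_le ?_ ?_)) ?_)
    · rw [natDegree_C]; exact Nat.zero_le _
    · exact (natDegree_C_mul_le _ _).trans hT
    · refine natDegree_mul_le.trans ?_
      omega
  refine ext_M (b := b) fun z hz => ?_
  unfold conjS
  simp only [eval_neg, eval_mul, eval_pow, eval_X, eval_sub, eval_add, eval_C,
    DQ_eval hp hT hz, wr_eval hp (show 1 ≤ d by omega) hT hz, (hp.REV d b _ hdeg).2.1 z hz]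
  unfold conjP
  simp only [eval_mul, eval_X, eval_sub, eval_add, eval_C]
  obtain ⟨k, rfl⟩ : ∃ k, d = k + 2 := ⟨d - 2, by omega⟩
  have e : 2 * (k + 2) - 2 = 2 * k + 2 := by omega
  rw [e]
  have h1 : M b z * (z - b) = 1 := by
    have := M_pow hz 1
    simpa using this
  linear_combination (M b z ^ (2 * k + 2) * (derivative T).eval z * β * M b z) * h1

/-- the critical multiplicities -/
theorem mult_conj (hp : Pack) (hd : 2 ≤ d) (hT : T.natDegree = d) {c : ℂ} (hc : c ≠ b) :
    (wr (X ^ d) (DQ d b T)).rootMultiplicity (M b c) = (derivative T).rootMultiplicity c := by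
  have hT' : derivative T ≠ 0 := by
    intro h0
    have := Polynomial.derivative_eq_zero.1 h0
    omega
  have h1 : (derivative T).natDegree ≤ d - 1 := (natDegree_derivative_le _).trans (by omega)
  obtain ⟨h2, h3⟩ := (hp.REV (d - 1) b _ h1).2.2.2.2 hT'
  have h4 : (X : ℂ[X]) ^ (d - 1) ≠ 0 := pow_ne_zero _ X_ne_zero
  rw [hp.WRV d b T (by omega) hT.le, rootMultiplicity_mul (mul_ne_zero h4 h2), h3 c hc]
  have h5 : (X ^ (d - 1) : ℂ[X]).rootMultiplicity (M b c) = 0 := by
    rw [rootMultiplicity_eq_zero_iff]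
    intro h
    rw [IsRoot.def, eval_pow, eval_X] at h
    exact absurd h (pow_ne_zero _ (M_ne hc))
  rw [h5, zero_add]

theorem mult_zero (hp : Pack) (hd : 2 ≤ d) (hT : T.natDegree = d) :
    (wr (X ^ d) (DQ d b T)).rootMultiplicity 0 = d - 1 := by
  have hT' : derivative T ≠ 0 := by
    intro h0
    have := Polynomial.derivative_eq_zero.1 h0
    omega
  have h1 : (derivative T).natDegree ≤ d - 1 := (natDegree_derivative_le _).trans (by omega)
  obtain ⟨h2, -⟩ := (hp.REV (d - 1) b _ h1).2.2.2.2 hT'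
  have h4 : (X : ℂ[X]) ^ (d - 1) ≠ 0 := pow_ne_zero _ X_ne_zero
  have h6 : (rev (d - 1) b (derivative T)).eval 0 ≠ 0 := by
    rw [(hp.REV (d - 1) b _ h1).2.2.1, coeff_derivative]
    have h7 : d - 1 + 1 = d := by omega
    rw [h7, ← hT]
    have h8 : T ≠ 0 := by
      rintro rfl
      simp at hT
      omega
    refine mul_ne_zero (leadingCoeff_ne_zero.2 h8) ?_
    have : ((T.natDegree - 1 : ℕ) : ℂ) + 1 = (T.natDegree : ℂ) := by
      rw [← Nat.cast_one (R := ℂ), ← Nat.cast_add]
      congr 1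
      omega
    rw [this]
    exact_mod_cast (by omega : T.natDegree ≠ 0)
  rw [hp.WRV d b T (by omega) hT.le, rootMultiplicity_mul (mul_ne_zero h4 h2)]
  have h5 : (rev (d - 1) b (derivative T)).rootMultiplicity 0 = 0 := by
    rw [rootMultiplicity_eq_zero_iff]
    intro h
    exact absurd h h6
  have h9 : (X ^ (d - 1) : ℂ[X]).rootMultiplicity 0 = d - 1 := by
    have := rootMultiplicity_X_sub_C_pow (0 : ℂ) (d - 1)
    rwa [C_0, sub_zero] at this
  rw [h5, h9, add_zero]

/-- vanishing order of `T - T (c)` -/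
theorem val_dvd (hT : 1 ≤ T.natDegree) (c : ℂ) :
    (X - C c) ^ ((derivative T).rootMultiplicity c + 1) ∣ T - C (T.eval c) := by
  have h0 : T - C (T.eval c) ≠ 0 := by
    intro h
    have h1 : T.natDegree = 0 := by
      rw [sub_eq_zero.1 h]
      exact natDegree_C _
    omega
  have hroot : (T - C (T.eval c)).IsRoot c := by simp [IsRoot.def]
  have h1 := Polynomial.derivative_rootMultiplicity_of_root hroot
  rw [derivative_sub, derivative_C, sub_zero] at h1
  have h2 : 0 < (T - C (T.eval c)).rootMultiplicity c := (rootMultiplicity_pos h0).2 hroot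
  have h3 : (derivative T).rootMultiplicity c + 1 = (T - C (T.eval c)).rootMultiplicity c := by
    omega
  rw [h3]
  exact pow_rootMultiplicity_dvd _ _

/-- speeds of a deformation which fixes infinity -/
theorem spd_conj (hp : Pack) (hd : 2 ≤ d) (hT : T.natDegree ≤ d) {H : ℂ[X]} (hH : H.natDegree ≤ d)
    {c : ℂ} {n : ℕ} (hav : ∀ j ≤ n, (ev T)^[j] c ≠ b) (κ : ℂ) :
    spd (X ^ d) (DQ d b T) (-(X ^ d * rev d b H)) (M b c) (-(M b c ^ 2 * κ)) n =
      -(M b ((ev T)^[n] c) ^ 2 * spdP T H c κ n) := by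
  induction n with
  | zero => rfl
  | succ n ih =>
    have h1 := ih fun j hj => hav j (by omega)
    have h2 := (hp.ITD d b T (by omega) hT c n fun j hj => hav j (by omega)).1
    have h3 := hav n (by omega)
    have h4 := hav (n + 1) le_rfl
    have h5 : T.eval ((ev T)^[n] c) = (ev T)^[n + 1] c :=
      (Function.iterate_succ_apply' (ev T) _ _).symm
    rw [spd, h1, h2, DQ_eval hp hT h3, wr_eval hp (by omega) hT h3, spdP, h5]
    simp only [eval_neg, eval_mul, eval_pow, eval_X, (hp.REV d b H hH).2.1 _ h3]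
    obtain ⟨k, hk⟩ : ∃ k, d = k + 1 := ⟨d - 1, by omega⟩
    have e : 2 * d - 2 = 2 * k := by omega
    rw [e, hk]
    have a1 := M_ne h3
    have a2 := sub_ne_zero.2 h4
    have a3 := sub_ne_zero.2 h3
    have a4 : M b ((ev T)^[n + 1] c) = ((ev T)^[n + 1] c - b)⁻¹ := rfl
    rw [a4]
    field_simp
    ring

/-- speeds of a translation -/
theorem spd_trans (hp : Pack) (hd : 2 ≤ d) (hT : T.natDegree ≤ d) {c : ℂ} {n : ℕ}
    (hav : ∀ j ≤ n, (ev T)^[j] c ≠ b) (α : ℂ) :
    spd (X ^ d) (DQ d b T) (conjS (X ^ d) (DQ d b T) α 0 0) (M b c) α n = α := by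
  induction n with
  | zero => rfl
  | succ n ih =>
    have h1 := ih fun j hj => hav j (by omega)
    have h2 := (hp.ITD d b T (by omega) hT c n fun j hj => hav j (by omega)).1
    have h3 := hav n (by omega)
    have h4 := hav (n + 1) le_rfl
    have h5 : T.eval ((ev T)^[n] c) = (ev T)^[n + 1] c :=
      (Function.iterate_succ_apply' (ev T) _ _).symm
    have hQ : (DQ d b T).eval (M b ((ev T)^[n] c)) ≠ 0 := by
      rw [DQ_eval hp hT h3, h5]
      exact mul_ne_zero (pow_ne_zero _ (M_ne h3)) (sub_ne_zero.2 h4)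
    rw [spd, h1, h2]
    unfold conjS
    simp only [eval_sub, eval_add, eval_mul, eval_C, eval_pow, eval_X, zero_mul, add_zero]
    field_simp
    ring

end

/-- **Transversality of families of polynomials.** -/
theorem pfamB (hp : Pack) {d n : ℕ} (hd : 2 ≤ d) {p : (Fin n → ℂ) → PC d} {x : Fin n → ℂ}
    (hdx : DifferentiableAt ℂ p x) (hT : (pol (p x)).natDegree = d)
    (hnull : volume {z : ℂ | ¬ (Esc (pol (p x)) z ∨ Atr (pol (p x)) z)} = 0)
    (hS : ∀ c : ℂ, (derivative (pol (p x))).eval c = 0 →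
      (Esc (pol (p x)) c ∨ Atr (pol (p x)) c) ∨ Smb (pol (p x)) c)
    {R : List Reln} (hR : ∀ ρ ∈ R, OkP (pol (p x)) ρ)
    (hcov : ∀ (H : ℂ[X]) (u κ : ℂ → ℂ), H.natDegree ≤ d → DfmP (pol (p x)) H u κ →
      (∀ ρ ∈ R, KeepP (pol (p x)) H κ ρ) →
      ∃ (v : Fin n → ℂ) (α β : ℂ), H = pol (fderiv ℂ p x v) + conjP (pol (p x)) α β) :
    TransP p x := by
  classical
  obtain ⟨T, hTx⟩ : ∃ T, T = pol (p x) := ⟨_, rfl⟩
  rw [← hTx] at hT hnull hS hR hcov
  have hT' : derivative T ≠ 0 := by
    intro h0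
    have := Polynomial.derivative_eq_zero.1 h0
    omega
  -- the choice of `b`
  obtain ⟨F, hF⟩ : ∃ F : Set ℂ, F = {c | (derivative T).eval c = 0} ∪
      (fun c => T.eval c) '' {c | (derivative T).eval c = 0} ∪
      ⋃ ρ ∈ {ρ | ρ ∈ R}, (((fun j => (ev T)^[j] ρ.c) '' Set.Iic ρ.n) ∪
        ((fun j => (ev T)^[j] ρ.c') '' Set.Iic ρ.n')) := ⟨_, rfl⟩
  have hcf : {c | (derivative T).eval c = 0}.Finite := by
    refine ((derivative T).roots.toFinset.finite_toSet).subset fun c hc => ?_
    rw [Finset.mem_coe, Multiset.mem_toFinset, mem_roots hT']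
    exact hc
  have hFf : F.Finite := by
    rw [hF]
    refine (hcf.union (hcf.image _)).union ?_
    refine Set.Finite.biUnion (List.finite_toSet R) fun ρ _ => ?_
    exact ((Set.finite_Iic _).image _).union ((Set.finite_Iic _).image _)
  obtain ⟨b, hbF, hb⟩ := (hp.ESCB T (by omega)).1 F hFf
  rw [hF] at hbF
  simp only [Set.mem_union, not_or] at hbF
  obtain ⟨⟨hb1, hb2⟩, hb3⟩ := hbF
  have hcb : ∀ c, (derivative T).eval c = 0 → c ≠ b := by
    rintro c hc rfl
    exact hb1 hc
  have hvb : ∀ c, (derivative T).eval c = 0 → T.eval c ≠ b := by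
    intro c hc h
    exact hb2 ⟨c, hc, h⟩
  have hob : ∀ ρ ∈ R, (∀ j ≤ ρ.n, (ev T)^[j] ρ.c ≠ b) ∧ ∀ j ≤ ρ.n', (ev T)^[j] ρ.c' ≠ b := by
    intro ρ hρ
    refine ⟨fun j hj h => hb3 ?_, fun j hj h => hb3 ?_⟩
    · exact Set.mem_biUnion (show ρ ∈ {ρ | ρ ∈ R} from hρ) (Or.inl ⟨j, hj, h⟩)
    · exact Set.mem_biUnion (show ρ ∈ {ρ | ρ ∈ R} from hρ) (Or.inr ⟨j, hj, h⟩)
  have hB : SBase d (X ^ d) (DQ d b T) := sbase_conj hp hd hT hb hnull hS
  have hQ0 : (DQ d b T).eval 0 ≠ 0 := by
    rw [DQ_zero hp hd hT.le, ← hT]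
    have h8 : T ≠ 0 := by
      rintro rfl
      simp at hT
      omega
    exact leadingCoeff_ne_zero.2 h8
  have hrf0 : rf (X ^ d) (DQ d b T) 0 = 0 := by
    unfold rf
    rw [eval_pow, eval_X, zero_pow (by omega), zero_div]
  have hwr0 : (wr (X ^ d) (DQ d b T)).eval 0 = 0 := wr_eval_zero hp hd hT.le
  -- transfer of the relations
  obtain ⟨tr, htr⟩ : ∃ tr : Reln → Reln, tr = fun ρ => ⟨M b ρ.c, ρ.n, M b ρ.c', ρ.n'⟩ := ⟨_, rfl⟩
  have hQz : ∀ z : ℂ, z ≠ b → T.eval z ≠ b → (DQ d b T).eval (M b z) ≠ 0 := by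
    intro z h1 h2
    rw [DQ_eval hp hT.le h1]
    exact mul_ne_zero (pow_ne_zero _ (M_ne h1)) (sub_ne_zero.2 h2)
  have hit : ∀ (c : ℂ) (m : ℕ), (∀ j ≤ m, (ev T)^[j] c ≠ b) →
      (rf (X ^ d) (DQ d b T))^[m] (M b c) = M b ((ev T)^[m] c) := fun c m h =>
    (hp.ITD d b T (by omega) hT.le c m fun j hj => h j hj.le).1
  have hcrit : ∀ c, (derivative T).eval c = 0 →
      (wr (X ^ d) (DQ d b T)).eval (M b c) = 0 := by
    intro c hc
    rw [wr_eval hp (by omega) hT.le (hcb c hc), hc, mul_zero]
  have hfree : ∀ c, (derivative T).eval c = 0 →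
      ((Esc T c ∨ Atr T c) ∨ Function.Injective fun j => (ev T)^[j] c) →
      Att d (X ^ d) (DQ d b T) ((M b c : ℂ) : OnePoint ℂ) ∨
        Function.Injective fun j => (rf (X ^ d) (DQ d b T))^[j] (M b c) := by
    intro c hc h
    by_cases hA : Esc T c ∨ Atr T c
    · left
      have := (hp.ATT2 d b T hd hT hb).2 c hA
      rwa [Mh_ne (hcb c hc)] at this
    · right
      have hE : ¬ Esc T c := fun h => hA (Or.inl h)
      have hav : ∀ j, (ev T)^[j] c ≠ b := fun j => esc_ne hb hE j
      have h1 := h.resolve_left hA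
      intro i j hij
      simp only [hit c i fun j _ => hav j, hit c j fun j _ => hav j] at hij
      unfold M at hij
      exact h1 (sub_left_injective (inv_injective hij))
  have hRat := famB (d := d) (p := fun y => conjE d b (p y)) (x := x)
    (by rw [PP_conjE, QQ_conjE hp, ← hTx]; exact hB)
    (by
      rw [PP_conjE, QQ_conjE hp, ← hTx]
      intro w hw
      rcases crit_cases hp hd hT.le hw with rfl | ⟨c, h1, rfl, h2⟩
      · exact hQ0
      · exact hQz c h1 (hvb c h2))
    (R := (⟨0, 1, 0, 0⟩ : Reln) :: R.map tr)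
    (by
      rw [PP_conjE, QQ_conjE hp, ← hTx]
      intro σ hσ
      rcases List.mem_cons.1 hσ with rfl | hσ
      · refine ⟨hwr0, hwr0, ?_, fun j hj => ?_, fun j hj => absurd hj (Nat.not_lt_zero _),
          Or.inl (hp.ATT2 d b T hd hT hb).1, Or.inl (hp.ATT2 d b T hd hT hb).1⟩
        · simp [hrf0]
        · have : j = 0 := by
            have : j < 1 := hj
            omega
          subst this
          exact hQ0
      · obtain ⟨ρ, hρ, rfl⟩ := List.mem_map.1 hσ
        obtain ⟨h1, h2, h3, h4, h5⟩ := hR ρ hρ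
        obtain ⟨h6, h7⟩ := hob ρ hρ
        rw [htr]
        refine ⟨hcrit _ h1, hcrit _ h2, ?_, fun j hj => ?_, fun j hj => ?_, hfree _ h1 h4,
          hfree _ h2 h5⟩
        · change (rf (X ^ d) (DQ d b T))^[ρ.n] (M b ρ.c) = (rf (X ^ d) (DQ d b T))^[ρ.n'] (M b ρ.c')
          rw [hit _ _ h6, hit _ _ h7, h3]
        · change (DQ d b T).eval ((rf (X ^ d) (DQ d b T))^[j] (M b ρ.c)) ≠ 0
          have hj' : j < ρ.n := hj
          rw [hit _ _ fun i hi => h6 i (by omega)]
          refine hQz _ (h6 j hj'.le) ?_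
          have := h6 (j + 1) hj'
          rwa [Function.iterate_succ_apply'] at this
        · change (DQ d b T).eval ((rf (X ^ d) (DQ d b T))^[j] (M b ρ.c')) ≠ 0
          have hj' : j < ρ.n' := hj
          rw [hit _ _ fun i hi => h7 i (by omega)]
          refine hQz _ (h7 j hj'.le) ?_
          have := h7 (j + 1) hj'
          rwa [Function.iterate_succ_apply'] at this)
    (by
      rw [PP_conjE, QQ_conjE hp, ← hTx]
      intro S u κ hSd hDf hK
      -- infinity is kept
      obtain ⟨α, hα⟩ : ∃ α, α = κ 0 := ⟨_, rfl⟩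
      have hS0 : S.eval 0 = α * (DQ d b T).eval 0 ^ 2 := by
        have h1 := hK _ List.mem_cons_self
        unfold Reln.Keep at h1
        simp only [spd, Function.iterate_zero, id_eq, hwr0, zero_div, zero_mul, add_zero] at h1
        rw [hα, ← h1, div_mul_cancel₀ _ (pow_ne_zero _ hQ0)]
      obtain ⟨S', hS'⟩ : ∃ S', S' = S - conjS (X ^ d) (DQ d b T) α 0 0 := ⟨_, rfl⟩
      have hconj0 : conjS (X ^ d) (DQ d b T) α 0 0 = C α * (DQ d b T) ^ 2 -
          C α * wr (X ^ d) (DQ d b T) := by
        unfold conjS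
        rw [C_0]
        ring
      have hdvd : X ^ d ∣ S' := by
        have h1 := hDf 0 hwr0
        rw [mult_zero hp hd hT, show d - 1 + 1 = d by omega, hrf0, ← hα, C_0, sub_zero] at h1
        have h2 : u 0 = α := by
          have h3 : (X : ℂ[X]) ∣ S - C (u 0) * DQ d b T ^ 2 +
              C α * wr (X ^ d) (DQ d b T) :=
            (dvd_pow_self X (by omega : d ≠ 0)).trans h1
          rw [X_dvd_iff, coeff_zero_eq_eval_zero] at h3
          simp only [eval_add, eval_sub, eval_mul, eval_C, eval_pow, hwr0, mul_zero,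
            add_zero] at h3
          rw [hS0, ← sub_mul] at h3
          have h4 := (mul_eq_zero.1 h3).resolve_right (pow_ne_zero _ hQ0)
          exact (sub_eq_zero.1 h4).symm
        rw [h2] at h1
        rw [hS', hconj0]
        convert h1 using 1
        ring
      obtain ⟨G, hG⟩ := hdvd
      have hQd2 : (DQ d b T ^ 2).natDegree ≤ 2 * d := by
        have := DQ_deg_le hp hT.le b
        refine natDegree_pow_le.trans ?_
        omega
      have hwrd : (wr (X ^ d) (DQ d b T)).natDegree ≤ 2 * d := by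
        have := wr_natDegree (P := X ^ d) (Q := DQ d b T) (d := d) (by omega)
          (natDegree_X_pow d).le (DQ_deg_le hp hT.le b)
        omega
      have hS'd : S'.natDegree ≤ 2 * d := by
        rw [hS', hconj0]
        refine (natDegree_sub_le _ _).trans (max_le hSd ((natDegree_sub_le _ _).trans
          (max_le ?_ ?_)))
        · exact (natDegree_C_mul_le _ _).trans hQd2
        · exact (natDegree_C_mul_le _ _).trans hwrd
      have hGd : G.natDegree ≤ d := by
        by_cases hG0 : G = 0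
        · rw [hG0]; simp
        · rw [hG, natDegree_mul (pow_ne_zero _ X_ne_zero) hG0, natDegree_X_pow] at hS'd
          omega
      obtain ⟨H, hHd, hH⟩ := hp.RLI.2.2.1 d b (-G) (by rwa [natDegree_neg])
      have hS'H : S' = -(X ^ d * rev d b H) := by rw [hH, hG]; ring
      have hSS : S = -(X ^ d * rev d b H) + conjS (X ^ d) (DQ d b T) α 0 0 := by
        rw [← hS'H, hS']; ring
      -- the polynomial deformation
      obtain ⟨u', hu'⟩ : ∃ u' : ℂ → ℂ, u' = fun y => -((u (M b y) - α) * (y - b) ^ 2) := ⟨_, rfl⟩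
      obtain ⟨κ', hκ'⟩ : ∃ κ' : ℂ → ℂ, κ' = fun y => -((κ (M b y) - α) * (y - b) ^ 2) := ⟨_, rfl⟩
      have hDP : DfmP T H u' κ' := by
        intro c hc
        have hcb' := hcb c hc
        have hvb' := hvb c hc
        have h1 := hDf (M b c) (hcrit c hc)
        rw [mult_conj hp hd hT hcb'] at h1
        have hrf : rf (X ^ d) (DQ d b T) (M b c) = M b (T.eval c) := by
          have := (hp.ITD d b T (by omega) hT.le c 1 fun j hj => by
            have : j = 0 := by omega
            subst this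
            exact hcb').1
          simpa [ev] using this
        rw [hrf] at h1
        obtain ⟨ut, hut⟩ : ∃ ut, ut = u (M b (T.eval c)) - α := ⟨_, rfl⟩
        obtain ⟨kt, hkt⟩ : ∃ kt, kt = κ (M b c) - α := ⟨_, rfl⟩
        obtain ⟨F₀, hF₀⟩ : ∃ F₀ : ℂ[X], F₀ = -H - C ut * (T - C b) ^ 2 +
            C kt * ((X - C b) ^ 2 * derivative T) := ⟨_, rfl⟩
        have hF₀d : F₀.natDegree ≤ 2 * d := by
          have e1 : ((T - C b) ^ 2).natDegree ≤ 2 * d := by
            have := deg_sub_C hT.le b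
            refine natDegree_pow_le.trans ?_
            omega
          have e2 : ((X - C b) ^ 2 * derivative T : ℂ[X]).natDegree ≤ 2 * d := by
            have e3 : (derivative T).natDegree ≤ d - 1 :=
              (natDegree_derivative_le _).trans (by omega)
            have e4 : ((X - C b : ℂ[X]) ^ 2).natDegree ≤ 2 := by
              refine natDegree_pow_le.trans ?_
              rw [natDegree_X_sub_C]
            refine natDegree_mul_le.trans ?_
            omega
          rw [hF₀]
          refine (natDegree_add_le _ _).trans (max_le ((natDegree_sub_le _ _).trans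
            (max_le ?_ ?_)) ?_)
          · rw [natDegree_neg]; omega
          · exact (natDegree_C_mul_le _ _).trans e1
          · exact (natDegree_C_mul_le _ _).trans e2
        have heq : S - C (u (M b (T.eval c))) * DQ d b T ^ 2 +
            C (κ (M b c)) * wr (X ^ d) (DQ d b T) = rev (2 * d) b F₀ := by
          refine ext_M (b := b) fun z hz => ?_
          rw [(hp.REV (2 * d) b F₀ hF₀d).2.1 z hz, hSS, hconj0]
          simp only [eval_neg, eval_mul, eval_pow, eval_X, eval_sub, eval_add, eval_C,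
            DQ_eval hp hT.le hz, wr_eval hp (show 1 ≤ d by omega) hT.le hz,
            (hp.REV d b H hHd).2.1 z hz, hF₀]
          obtain ⟨k, rfl⟩ : ∃ k, d = k + 1 := ⟨d - 1, by omega⟩
          have e : 2 * (k + 1) - 2 = 2 * k := by omega
          rw [e, hut, hkt]
          have a3 : M b z * (z - b) = 1 := by
            have := M_pow hz 1
            simpa using this
          linear_combination (-(κ (M b c) - α) * M b z ^ (2 * k) * (derivative T).eval z *
            (M b z * (z - b) + 1)) * a3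
        rw [heq] at h1
        have h2 : (X - C c) ^ ((derivative T).rootMultiplicity c + 1) ∣ F₀ := by
          by_cases hF0 : F₀ = 0
          · rw [hF0]; exact dvd_zero _
          · obtain ⟨h3, h4⟩ := (hp.REV (2 * d) b F₀ hF₀d).2.2.2.2 hF0
            have h5 := (le_rootMultiplicity_iff h3).2 h1
            rw [h4 c hcb'] at h5
            exact (le_rootMultiplicity_iff hF0).1 h5
        have h3 := val_dvd (by omega : 1 ≤ T.natDegree) c
        have h4 : (X - C c) ^ ((derivative T).rootMultiplicity c + 1) ∣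
            (X - C c) * derivative T := by
          rw [pow_succ, mul_comm]
          exact mul_dvd_mul_left _ (pow_rootMultiplicity_dvd _ _)
        have h5 : H - C (u' (T.eval c)) + C (κ' c) * derivative T =
            -F₀ + (-(C ut * (T + C (T.eval c) - 2 * C b))) * (T - C (T.eval c)) +
              (C kt * (X + C c - 2 * C b)) * ((X - C c) * derivative T) := by
          rw [hu', hκ', hF₀]
          simp only [← hut, ← hkt]
          simp only [C_neg, C_mul, C_pow, C_sub]
          ring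
        rw [h5]
        exact dvd_add (dvd_add (dvd_neg.2 h2) (Dvd.dvd.mul_left h3 _)) (Dvd.dvd.mul_left h4 _)
      have hκM : ∀ c : ℂ, c ≠ b → κ (M b c) = -(M b c ^ 2 * κ' c) + α := by
        intro c hc
        rw [hκ']
        have a3 := sub_ne_zero.2 hc
        have a4 : M b c = (c - b)⁻¹ := rfl
        simp only
        rw [a4]
        field_simp
        ring
      have hspd : ∀ (c : ℂ) (m : ℕ), (∀ j ≤ m, (ev T)^[j] c ≠ b) →
          spd (X ^ d) (DQ d b T) S (M b c) (κ (M b c)) m =
            -(M b ((ev T)^[m] c) ^ 2 * spdP T H c (κ' c) m) + α := by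
        intro c m hav
        rw [hκM c (hav 0 (Nat.zero_le _)), hSS, spd_add, spd_conj hp hd hT.le hHd hav,
          spd_trans hp hd hT.le hav]
      have hKP : ∀ ρ ∈ R, KeepP T H κ' ρ := by
        intro ρ hρ
        obtain ⟨h6, h7⟩ := hob ρ hρ
        have h1 := hK (tr ρ) (List.mem_cons_of_mem _ (List.mem_map.2 ⟨ρ, hρ, rfl⟩))
        unfold Reln.Keep at h1
        rw [htr] at h1
        simp only at h1
        rw [hspd _ _ h6, hspd _ _ h7, (hR ρ hρ).2.2.1] at h1
        have h2 := neg_injective (add_right_cancel h1)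
        exact mul_left_cancel₀ (pow_ne_zero _ (M_ne (h7 _ le_rfl))) h2
      obtain ⟨v, α', β', hv⟩ := hcov H u' κ' hHd hDP hKP
      refine ⟨v, α, -β', -(α' + β' * b), ?_⟩
      rw [fderiv_comp hp b hdx, varS_conj hp, hSS]
      have h1 : rev d b H = rev d b (pol (fderiv ℂ p x v)) + rev d b (conjP T α' β') := by
        rw [hv]
        exact hp.RLI.1 _ _ _ _
      have h2 := conj_id hp hd hT.le (b := b) α' β'
      have h3 : conjS (X ^ d) (DQ d b T) α (-β') (-(α' + β' * b)) =
          conjS (X ^ d) (DQ d b T) 0 (-β') (-(α' + β' * b)) +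
            conjS (X ^ d) (DQ d b T) α 0 0 := by
        unfold conjS
        rw [C_0]
        ring
      rw [h1, h3, ← h2]
      ring)
  -- back to the polynomial
  intro c hc hcA
  rw [← hTx] at hc hcA
  have hcE : ¬ Esc T c := fun h => hcA (Or.inl h)
  have hAtt : ¬ Att d (X ^ d) (DQ d b T) ((M b c : ℂ) : OnePoint ℂ) := by
    intro h
    rw [← Mh_ne (hcb c hc)] at h
    exact hcA (hp.ATT1 d b T hd hT c h)
  obtain ⟨v, hv⟩ := hRat (M b c) (by rw [PP_conjE, QQ_conjE hp, ← hTx]; exact hcrit c hc)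
    (by rw [PP_conjE, QQ_conjE hp, ← hTx]; exact hAtt)
  refine ⟨v, fun h0 => hv ?_⟩
  rw [sum_conj hp hd hdx (by rw [← hTx]; exact hT) (by rw [← hTx]; exact hb)
    (by rw [← hTx]; exact hcE) v, h0, mul_zero]

end Pool.Agent.H207.TP
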