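import Pool.Agent.H207.TP.Par

/-! Project TP: the strata, final form. -/

set_option autoImplicit false

open Metric Set MeasureTheory Filter Topology Polynomial
open scoped OnePoint ENNReal

namespace Pool.Agent.H207.TP

open Pool.Agent.H792R2.CE Pool.Agent.H792R2 Pool.Agent.H207.TF
open Pool.Agent.H211.LR Pool.Agent.H211.AD
open Pool.Agent.H211.LD (pol pol_coeff pol_natDegree_le pol_add_smul avg)

/-- **Strata of polynomials.** -/
theorem pfamC (hp : Pack) (hLI : S_LINP) (hSO : S_SOLP) (hPF : S_PFX) (hI : S_INV0)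
    (hG : S_GOODX) (hOR : S_ORBP) (hHD : S_HDP) (hDV : S_DVP) {d r N : ℕ} (hd : 2 ≤ d) {x : PC d}
    (hT : (pol x).natDegree = d)
    (hdense : Dense {z : ℂ | Esc (pol x) z ∨ Atr (pol x) z})
    {e : Fin r → ℂ} (he : Function.Injective e)
    (hall : ∀ z, (derivative (pol x)).eval z = 0 ↔ ∃ i, e i = z) {ρ : Fin N → RI r}
    (hρ : ∀ l, (ev (pol x))^[(ρ l).n] (e (ρ l).i) = (ev (pol x))^[(ρ l).n'] (e (ρ l).i'))
    (hind : LinearIndependent ℂ fun l => dvP (pol x) (e (ρ l).i) (ρ l).n -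
      dvP (pol x) (e (ρ l).i') (ρ l).n') :
    ∃ (n : ℕ) (Ψ : (Fin n → ℂ) → PC d) (c : (Fin n → ℂ) → Fin r → ℂ) (U : Set (Fin n → ℂ)),
      n + N = (Finset.univ.image fun i => (pol x).eval (e i)).card + 2 ∧ IsOpen U ∧ 0 ∈ U ∧
      DifferentiableOn ℂ Ψ U ∧ DifferentiableOn ℂ c U ∧ Ψ 0 = x ∧ c 0 = e ∧ InjOn Ψ U ∧
      (∀ t ∈ U, Function.Injective (fderiv ℂ Ψ t)) ∧
      (∀ t ∈ U, InSP (fun i => (derivative (pol x)).rootMultiplicity (e i))
        (fun i j => (pol x).eval (e i) = (pol x).eval (e j)) ρ (Ψ t) (c t)) ∧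
      (∃ ε > (0 : ℝ), ∀ (y : PC d) (c' : Fin r → ℂ), ‖y - x‖ < ε → ‖c' - e‖ < ε →
        InSP (fun i => (derivative (pol x)).rootMultiplicity (e i))
          (fun i j => (pol x).eval (e i) = (pol x).eval (e j)) ρ y c' →
        ∃ t ∈ U, Ψ t = y ∧ c t = c') ∧
      ∀ t ∈ U, (pol (Ψ t)).natDegree = d ∧
        (volume {z : ℂ | ¬ (Esc (pol (Ψ t)) z ∨ Atr (pol (Ψ t)) z)} = 0 →
        (∀ c : ℂ, (derivative (pol (Ψ t))).eval c = 0 →
          (Esc (pol (Ψ t)) c ∨ Atr (pol (Ψ t)) c) ∨ Smb (pol (Ψ t)) c) →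
        (∀ l, ((Esc (pol (Ψ t)) (c t (ρ l).i) ∨ Atr (pol (Ψ t)) (c t (ρ l).i)) ∨
            Function.Injective fun j => (ev (pol (Ψ t)))^[j] (c t (ρ l).i)) ∧
          ((Esc (pol (Ψ t)) (c t (ρ l).i') ∨ Atr (pol (Ψ t)) (c t (ρ l).i')) ∨
            Function.Injective fun j => (ev (pol (Ψ t)))^[j] (c t (ρ l).i'))) →
        TransP Ψ t) := by
  obtain ⟨n, Ψ, c, U, h1, h2, h3, h4, h7, h8, h9, h10, h11, h12, h13, h14⟩ := paramP hp hLI hSO
    hPF hI hG hOR hHD hDV hd hT hdense he (fun i => (hall _).2 ⟨i, rfl⟩)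
    (fun z hz => (hall z).1 hz) (m := fun i => (derivative (pol x)).rootMultiplicity (e i))
    (fun i => rfl) (ρ := ρ) hρ hind
  refine ⟨n, Ψ, c, U, h1, h2, h3, h4, h7, h8, h9, h10, h11, h12, h13,
    fun t ht => ⟨(h14 t ht).1, fun hnull hS hor => ?_⟩⟩
  obtain ⟨g1, g2, g3, g4, g5⟩ := h14 t ht
  refine pfamB hp hd ((h4 t ht).differentiableAt (h2.mem_nhds ht)) g1 hnull hS
    (R := List.ofFn fun l => (ρ l).rel (c t)) ?_ ?_
  · intro σ hσ
    rw [List.mem_ofFn] at hσ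
    obtain ⟨l, rfl⟩ := hσ
    exact ⟨(g3 _).2 ⟨_, rfl⟩, (g3 _).2 ⟨_, rfl⟩, (h12 t ht).2.2 l, (hor l).1, (hor l).2⟩
  · intro H u κ hH hDf hK
    obtain ⟨v, hv⟩ := g5 H u κ hH hDf fun l => hK _ (List.mem_ofFn.2 ⟨l, rfl⟩)
    refine ⟨v, 0, 0, ?_⟩
    rw [hv]
    simp [conjP]

/-! ### Collet-Eckmann polynomials belong to the larger class -/

theorem ce_smb {T : ℂ[X]} {c : ℂ} (h : CE T c) : Smb T c := by
  obtain ⟨μ, hμ, h⟩ := h
  have hdf : Differentiable ℂ (ev T) := T.differentiable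
  have hne : ∀ m : ℕ, deriv ((ev T)^[m]) (T.eval c) ≠ 0 := by
    intro m h0
    obtain ⟨n, hn, hmn⟩ := (h.and (eventually_ge_atTop m)).exists
    obtain ⟨k, rfl⟩ := Nat.exists_eq_add_of_le hmn
    have h1 : (ev T)^[m + k] = (ev T)^[k] ∘ (ev T)^[m] := by
      rw [← Function.iterate_add, add_comm]
    rw [h1, _root_.deriv_comp _ ((hdf.iterate k) _) ((hdf.iterate m) _), h0, mul_zero, norm_zero] at hn
    have h2 : 0 < μ ^ (m + k) := by positivity
    linarith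
  refine ⟨hne, ?_⟩
  have h1 : Summable fun n : ℕ => (μ⁻¹) ^ n :=
    summable_geometric_of_lt_one (by positivity) (inv_lt_one_of_one_lt₀ hμ)
  refine Summable.of_norm_bounded_eventually_nat h1 ?_
  filter_upwards [h] with n hn
  rw [norm_inv, norm_norm, inv_pow]
  exact inv_anti₀ (by positivity) hn

theorem ce_grow {T : ℂ[X]} (hT : derivative T ≠ 0)
    (h : ∀ c : ℂ, (derivative T).eval c = 0 → (Esc T c ∨ Atr T c) ∨ CE T c) :
    ∃ μ : ℝ, 1 < μ ∧ ∃ᶠ n : ℕ in atTop, ∀ c : ℂ, (derivative T).eval c = 0 →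
      (Esc T c ∨ Atr T c) ∨ ∃ m ≤ n, μ ^ n ≤ ‖deriv ((ev T)^[m]) (T.eval c)‖ := by
  classical
  have key : ∀ S : Finset ℂ, ∃ μ : ℝ, 1 < μ ∧ ∀ᶠ n : ℕ in atTop, ∀ c ∈ S,
      (derivative T).eval c = 0 → (Esc T c ∨ Atr T c) ∨
        μ ^ n ≤ ‖deriv ((ev T)^[n]) (T.eval c)‖ := by
    intro S
    induction S using Finset.induction_on with
    | empty => exact ⟨2, one_lt_two, Eventually.of_forall fun n c hc => absurd hc (by simp)⟩
    | insert a S _ ih =>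
      obtain ⟨μ, hμ, hS⟩ := ih
      by_cases ha : (derivative T).eval a = 0 ∧ ¬ (Esc T a ∨ Atr T a)
      · obtain ⟨μ', hμ', h'⟩ := (h a ha.1).resolve_left ha.2
        refine ⟨min μ μ', lt_min hμ hμ', ?_⟩
        filter_upwards [hS, h'] with n hn hn' c hc hc0
        have hp : (0 : ℝ) ≤ min μ μ' := (zero_lt_one.trans (lt_min hμ hμ')).le
        rcases Finset.mem_insert.1 hc with rfl | hc
        · exact Or.inr ((pow_le_pow_left₀ hp (min_le_right _ _) n).trans hn')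
        · exact (hn c hc hc0).imp_right fun h1 =>
            (pow_le_pow_left₀ hp (min_le_left _ _) n).trans h1
      · refine ⟨μ, hμ, ?_⟩
        filter_upwards [hS] with n hn c hc hc0
        rcases Finset.mem_insert.1 hc with rfl | hc
        · left
          by_contra h1
          exact ha ⟨hc0, h1⟩
        · exact hn c hc hc0
  obtain ⟨μ, hμ, h1⟩ := key (derivative T).roots.toFinset
  refine ⟨μ, hμ, h1.frequently.mono fun n hn c hc => ?_⟩
  refine (hn c ?_ hc).imp_right fun h2 => ⟨n, le_rfl, h2⟩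
  rw [Multiset.mem_toFinset, mem_roots hT]
  exact hc

theorem ce_summable (hp : Pack) {d : ℕ} (hd : 2 ≤ d) {T : ℂ[X]} (hT : T.natDegree = d)
    (h : ∀ c : ℂ, (derivative T).eval c = 0 → (Esc T c ∨ Atr T c) ∨ CE T c) :
    volume {z : ℂ | ¬ (Esc T z ∨ Atr T z)} = 0 ∧
    (∀ c : ℂ, (derivative T).eval c = 0 → (Esc T c ∨ Atr T c) ∨ Smb T c) ∧
    ∃ μ : ℝ, 1 < μ ∧ ∃ᶠ n : ℕ in atTop, ∀ c : ℂ, (derivative T).eval c = 0 →
      (Esc T c ∨ Atr T c) ∨ ∃ m ≤ n, μ ^ n ≤ ‖deriv ((ev T)^[m]) (T.eval c)‖ := by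
  refine ⟨pnull_of_ce hp hd hT h, fun c hc => (h c hc).imp_right ce_smb, ce_grow ?_ h⟩
  intro h0
  have := Polynomial.derivative_eq_zero.1 h0
  omega

end Pool.Agent.H207.TP
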