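import Pool.Agent.H207.TP.Stm3

/-! Project TP: transversality of slices (families of full dimension with critical orbit relations). -/

set_option autoImplicit false

open Metric Set MeasureTheory Filter Topology Polynomial
open scoped OnePoint ENNReal

namespace Pool.Agent.H207.TP

open Pool.Agent.H792R2.CE Pool.Agent.H792R2 Pool.Agent.H207.TF
open Pool.Agent.H211.LR Pool.Agent.H211.AD
open Pool.Agent.H211.LD (pol pol_coeff pol_natDegree_le pol_add_smul avg)

/-- the speed of a simple critical point -/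
noncomputable def kapP (T H : ℂ[X]) (c : ℂ) : ℂ :=
  -((derivative H).eval c) / (derivative (derivative T)).eval c

theorem eqP_zero_iff {T H : ℂ[X]} {c κ : ℂ} (h2 : (derivative (derivative T)).eval c ≠ 0) :
    eqP T H c κ 0 = 0 ↔ κ = kapP T H c := by
  unfold eqP kapP
  rw [hasseDeriv_zero', zero_add, hasseDeriv_one', Nat.cast_zero, zero_add, one_mul,
    eq_div_iff h2]
  constructor
  · intro h
    linear_combination h
  · intro h
    linear_combination h

theorem spdP_add (T H H' : ℂ[X]) (c w w' : ℂ) (n : ℕ) :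
    spdP T (H + H') c (w + w') n = spdP T H c w n + spdP T H' c w' n := by
  induction n with
  | zero => rfl
  | succ n ih =>
    rw [spdP, spdP, spdP, ih, Polynomial.eval_add]
    ring

theorem spdP_smul (T H : ℂ[X]) (c w s : ℂ) (n : ℕ) :
    spdP T (C s * H) c (s * w) n = s * spdP T H c w n := by
  induction n with
  | zero => rfl
  | succ n ih =>
    rw [spdP, spdP, ih, Polynomial.eval_mul, Polynomial.eval_C]
    ring

theorem pol_add {d : ℕ} (a b : PC d) : pol (a + b) = pol a + pol b := by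
  have := pol_add_smul a b 1
  rwa [one_smul, C_1, one_mul] at this

theorem pol_smul {d : ℕ} (s : ℂ) (b : PC d) : pol (s • b) = C s * pol b := by
  have h := pol_add_smul (0 : PC d) b s
  have h0 : pol (0 : PC d) = 0 := by simp [pol]
  rwa [zero_add, h0, zero_add] at h

theorem kapP_add (T H H' : ℂ[X]) (c : ℂ) : kapP T (H + H') c = kapP T H c + kapP T H' c := by
  unfold kapP
  rw [derivative_add, Polynomial.eval_add]
  ring

theorem kapP_smul (T H : ℂ[X]) (c s : ℂ) : kapP T (C s * H) c = s * kapP T H c := by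
  unfold kapP
  rw [derivative_C_mul, Polynomial.eval_mul, Polynomial.eval_C]
  ring

/-- the linearized relations between simple critical points -/
noncomputable def relL {d s N : ℕ} (T : ℂ[X]) (c : Fin s → ℂ) (ρ : Fin N → RI s) :
    PC d →ₗ[ℂ] (Fin N → ℂ) where
  toFun h l := spdP T (pol h) (c (ρ l).i) (kapP T (pol h) (c (ρ l).i)) (ρ l).n -
    spdP T (pol h) (c (ρ l).i') (kapP T (pol h) (c (ρ l).i')) (ρ l).n'
  map_add' h h' := by
    funext l
    simp only [Pi.add_apply]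
    rw [pol_add, kapP_add, kapP_add, spdP_add, spdP_add]
    ring
  map_smul' s h := by
    funext l
    simp only [Pi.smul_apply, smul_eq_mul, RingHom.id_apply]
    rw [pol_smul, kapP_smul, kapP_smul, spdP_smul, spdP_smul]
    ring

theorem relL_apply {d s N : ℕ} (T : ℂ[X]) (c : Fin s → ℂ) (ρ : Fin N → RI s) (h : PC d)
    (l : Fin N) : relL T c ρ h l =
      spdP T (pol h) (c (ρ l).i) (kapP T (pol h) (c (ρ l).i)) (ρ l).n -
      spdP T (pol h) (c (ρ l).i') (kapP T (pol h) (c (ρ l).i')) (ρ l).n' := rfl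

/-- a periodic critical point is attracted -/
theorem atr_of_per {T : ℂ[X]} {c : ℂ} {n : ℕ} (hn : 1 ≤ n) (hc : (derivative T).eval c = 0)
    (hper : (ev T)^[n] c = c) : Atr T c := by
  have hdf : Differentiable ℂ (ev T) := T.differentiable
  obtain ⟨k, rfl⟩ : ∃ k, n = k + 1 := ⟨n - 1, by omega⟩
  refine ⟨k + 1, hn, c, hper, ?_, ?_⟩
  · rw [Function.iterate_succ, _root_.deriv_comp _ ((hdf.iterate k) _) (hdf _)]
    have h1 : deriv (ev T) c = 0 := by
      change deriv (fun z => T.eval z) c = 0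
      rw [Polynomial.deriv, hc]
    rw [h1, mul_zero, norm_zero]
    exact zero_lt_one
  · have h2 : ∀ j : ℕ, (ev T)^[(k + 1) * j] c = c := by
      intro j
      rw [Function.iterate_mul]
      exact Function.iterate_fixed hper j
    simp only [h2]
    exact tendsto_const_nhds

/-- **Slices are transversal**, general form. -/
theorem pfamD0 (hp : Pack) (hLI : S_LINP) (hSO : S_SOLP) (hPF : S_PFX) (hI : S_INV0)
    (hG : S_GOODX) (hOR : S_ORBP) (hHD : S_HDP) (hDV : S_DVP) (hCK : S_CKR) (hDR : S_DRL)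
    {d m s N : ℕ} (hd : 2 ≤ d) {p : (Fin m → ℂ) → PC d} {x : Fin m → ℂ}
    (hdx : DifferentiableAt ℂ p x) (hT : (pol (p x)).natDegree = d)
    (hnull : volume {z : ℂ | ¬ (Esc (pol (p x)) z ∨ Atr (pol (p x)) z)} = 0)
    (hS : ∀ c : ℂ, (derivative (pol (p x))).eval c = 0 →
      (Esc (pol (p x)) c ∨ Atr (pol (p x)) c) ∨ Smb (pol (p x)) c)
    {c : (Fin m → ℂ) → Fin s → ℂ} (hcd : DifferentiableAt ℂ c x)
    (hcrit : ∀ᶠ y in 𝓝 x, ∀ i, (derivative (pol (p y))).eval (c y i) = 0)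
    (hsim : ∀ i, (derivative (derivative (pol (p x)))).eval (c x i) ≠ 0)
    {ρ : Fin N → RI s}
    (hrel : ∀ᶠ y in 𝓝 x, ∀ l, (ev (pol (p y)))^[(ρ l).n] (c y (ρ l).i) =
      (ev (pol (p y)))^[(ρ l).n'] (c y (ρ l).i'))
    (hfree : ∀ l, ((Esc (pol (p x)) (c x (ρ l).i) ∨ Atr (pol (p x)) (c x (ρ l).i)) ∨
        Function.Injective fun j => (ev (pol (p x)))^[j] (c x (ρ l).i)) ∧
      ((Esc (pol (p x)) (c x (ρ l).i') ∨ Atr (pol (p x)) (c x (ρ l).i')) ∨
        Function.Injective fun j => (ev (pol (p x)))^[j] (c x (ρ l).i')))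
    (hind : LinearIndependent ℂ fun l => dvP (pol (p x)) (c x (ρ l).i) (ρ l).n -
      dvP (pol (p x)) (c x (ρ l).i') (ρ l).n')
    (hK0 : Function.Surjective (relL (d := d) (pol (p x)) (c x) ρ) →
      (∀ v, relL (d := d) (pol (p x)) (c x) ρ (fderiv ℂ p x v) = 0) →
      (∀ (h : PC d) (α β : ℂ), pol h = conjP (pol (p x)) α β →
        relL (d := d) (pol (p x)) (c x) ρ h = 0) →
      ∀ h : PC d, relL (pol (p x)) (c x) ρ h = 0 → ∃ (v : Fin m → ℂ) (α β : ℂ),
        pol h = pol (fderiv ℂ p x v) + conjP (pol (p x)) α β) : TransP p x := by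
  classical
  obtain ⟨T, hTx⟩ : ∃ T, T = pol (p x) := ⟨_, rfl⟩
  have hcx : ∀ i, (derivative (pol (p x))).eval (c x i) = 0 := hcrit.self_of_nhds
  have hrx := hrel.self_of_nhds
  have hN : derivative (pol (p x)) ≠ 0 := by
    intro h0
    have := Polynomial.derivative_eq_zero.1 h0
    omega
  have hdense : Dense {z : ℂ | Esc (pol (p x)) z ∨ Atr (pol (p x)) z} :=
    MeasureTheory.Measure.dense_of_ae (μ := (volume : Measure ℂ)) (by rw [ae_iff]; exact hnull)
  -- the critical points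
  obtain ⟨S, hSd⟩ : ∃ S : Finset ℂ, S = (derivative (pol (p x))).roots.toFinset := ⟨_, rfl⟩
  have hSm : ∀ z, z ∈ S ↔ (derivative (pol (p x))).eval z = 0 := by
    intro z
    rw [hSd, Multiset.mem_toFinset, mem_roots hN]
    exact Iff.rfl
  obtain ⟨e, he⟩ : ∃ e : Fin S.card → ℂ, e = fun i => ((S.equivFin.symm i : S) : ℂ) := ⟨_, rfl⟩
  have hei : Function.Injective e := by
    rw [he]
    intro i j hij
    exact S.equivFin.symm.injective (Subtype.ext hij)
  have he0 : ∀ i, (derivative (pol (p x))).eval (e i) = 0 := by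
    intro i
    rw [he]
    exact (hSm _).1 (S.equivFin.symm i).2
  have hall : ∀ z, (derivative (pol (p x))).eval z = 0 → ∃ i, e i = z := by
    intro z hz
    refine ⟨S.equivFin ⟨z, (hSm z).2 hz⟩, ?_⟩
    rw [he]
    simp
  choose σ hσ using fun i => hall (c x i) (hcx i)
  -- the linearized relations are onto
  obtain ⟨-, hD⟩ := FFP_diff (m := fun i => (derivative (pol (p x))).rootMultiplicity (e i))
    (rep := id) (ρ := fun l => (⟨σ (ρ l).i, (ρ l).n, σ (ρ l).i', (ρ l).n'⟩ : RI S.card))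
    hOR hHD (p x) e
  have hsurj := FFP_surj hp hLI hSO hPF hI hG hOR hHD hDV hd hT hdense hei he0 hall
    (rep := id) (fun i => rfl) (fun i => rfl)
    (m := fun i => (derivative (pol (p x))).rootMultiplicity (e i)) (fun i => rfl)
    (ρ := fun l => (⟨σ (ρ l).i, (ρ l).n, σ (ρ l).i', (ρ l).n'⟩ : RI S.card))
    (fun l => by
      change (ev (pol (p x)))^[(ρ l).n] (e (σ (ρ l).i)) =
        (ev (pol (p x)))^[(ρ l).n'] (e (σ (ρ l).i'))
      rw [hσ, hσ]
      exact hrx l)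
    (by
      simp only [hσ]
      exact hind)
  have hℓ : Function.Surjective (relL (d := d) (pol (p x)) (c x) ρ) := by
    intro C
    obtain ⟨⟨v, κ⟩, hv⟩ := hsurj (0, 0, C)
    rw [hD] at hv
    have h1 : ∀ i : Fin s, κ (σ i) = kapP (pol (p x)) (pol v) (c x i) := by
      intro i
      have hm : 0 < (derivative (pol (p x))).rootMultiplicity (e (σ i)) :=
        (rootMultiplicity_pos hN).2 (he0 _)
      have h2 : eqP (pol (p x)) (pol v) (e (σ i)) (κ (σ i)) 0 = 0 :=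
        congrFun (congrFun (congrArg Prod.fst hv) (σ i)) ⟨0, hm⟩
      rw [hσ] at h2
      exact (eqP_zero_iff (hsim i)).1 h2
    refine ⟨v, ?_⟩
    funext l
    have h2 := congrFun (congrArg (fun z => z.2.2) hv) l
    change spdP (pol (p x)) (pol v) (e (σ (ρ l).i)) (κ (σ (ρ l).i)) (ρ l).n -
      spdP (pol (p x)) (pol v) (e (σ (ρ l).i')) (κ (σ (ρ l).i')) (ρ l).n' = C l at h2
    rw [hσ, hσ, h1, h1] at h2
    exact h2
  -- the tangent vectors and the conjugations
  have hcdi : ∀ i, DifferentiableAt ℂ (fun y => c y i) x := fun i =>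
    (differentiableAt_pi.1 hcd) i
  have hDv : ∀ v, relL (d := d) (pol (p x)) (c x) ρ (fderiv ℂ p x v) = 0 := by
    intro v
    funext l
    obtain ⟨h1, h2⟩ := hDR d m p (fun y => c y (ρ l).i) (fun y => c y (ρ l).i') x (ρ l).n
      (ρ l).n' hdx (hcdi _) (hcdi _) (hcrit.mono fun y h => h _) (hrel.mono fun y h => h l) v
    obtain ⟨h3, -⟩ := hDR d m p (fun y => c y (ρ l).i') (fun y => c y (ρ l).i) x (ρ l).n'
      (ρ l).n hdx (hcdi _) (hcdi _) (hcrit.mono fun y h => h _)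
      (hrel.mono fun y h => (h l).symm) v
    rw [relL_apply, ← (eqP_zero_iff (hsim _)).1 h1, ← (eqP_zero_iff (hsim _)).1 h3, h2, sub_self]
    rfl
  have hDc : ∀ (h : PC d) (α β : ℂ), pol h = conjP (pol (p x)) α β →
      relL (d := d) (pol (p x)) (c x) ρ h = 0 := by
    intro h α β hh
    funext l
    obtain ⟨h1, h2⟩ := hCK (pol (p x)) α β (c x (ρ l).i) (hcx _)
    obtain ⟨h3, h4⟩ := hCK (pol (p x)) α β (c x (ρ l).i') (hcx _)
    rw [relL_apply, hh, ← (eqP_zero_iff (hsim _)).1 h1, ← (eqP_zero_iff (hsim _)).1 h3, h2, h4,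
      hrx l, sub_self]
    rfl
  have hcov := hK0 hℓ hDv hDc
  refine pfamB hp hd hdx hT hnull hS (R := List.ofFn fun l => (ρ l).rel (c x)) ?_ ?_
  · intro τ hτ
    rw [List.mem_ofFn] at hτ
    obtain ⟨l, rfl⟩ := hτ
    exact ⟨hcx _, hcx _, hrx l, (hfree l).1, (hfree l).2⟩
  · intro H u κ hH hDf hK
    obtain ⟨h, rfl⟩ := exists_pol hH
    have hκ : ∀ i, κ (c x i) = kapP (pol (p x)) (pol h) (c x i) := by
      intro i
      have hm : 0 < (derivative (pol (p x))).rootMultiplicity (c x i) :=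
        (rootMultiplicity_pos hN).2 (hcx i)
      refine (eqP_zero_iff (hsim i)).1 ?_
      refine (hLI (pol (p x)) (pol h) (c x i) (κ (c x i)) hN (hcx i)).1 ?_ 0 hm
      rw [hDf.val (hcx i)]
      exact hDf (c x i) (hcx i)
    refine hcov h ?_
    funext l
    have h1 := hK _ (List.mem_ofFn.2 ⟨l, rfl⟩)
    unfold KeepP at h1
    change spdP (pol (p x)) (pol h) (c x (ρ l).i) (κ (c x (ρ l).i)) (ρ l).n =
      spdP (pol (p x)) (pol h) (c x (ρ l).i') (κ (c x (ρ l).i')) (ρ l).n' at h1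
    rw [relL_apply, ← hκ, ← hκ, h1, sub_self]
    rfl

/-- **Slices are transversal.** -/
theorem pfamD (hp : Pack) (hLI : S_LINP) (hSO : S_SOLP) (hPF : S_PFX) (hI : S_INV0)
    (hG : S_GOODX) (hOR : S_ORBP) (hHD : S_HDP) (hDV : S_DVP) (hCK : S_CKR) (hDR : S_DRL)
    (hLA : S_LAG) {d m s N : ℕ} (hd : 2 ≤ d) {p : (Fin m → ℂ) → PC d} {x : Fin m → ℂ}
    (hdx : DifferentiableAt ℂ p x) (hT : (pol (p x)).natDegree = d)
    (hnull : volume {z : ℂ | ¬ (Esc (pol (p x)) z ∨ Atr (pol (p x)) z)} = 0)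
    (hS : ∀ c : ℂ, (derivative (pol (p x))).eval c = 0 →
      (Esc (pol (p x)) c ∨ Atr (pol (p x)) c) ∨ Smb (pol (p x)) c)
    {c : (Fin m → ℂ) → Fin s → ℂ} (hcd : DifferentiableAt ℂ c x)
    (hcrit : ∀ᶠ y in 𝓝 x, ∀ i, (derivative (pol (p y))).eval (c y i) = 0)
    (hsim : ∀ i, (derivative (derivative (pol (p x)))).eval (c x i) ≠ 0)
    {ρ : Fin N → RI s}
    (hrel : ∀ᶠ y in 𝓝 x, ∀ l, (ev (pol (p y)))^[(ρ l).n] (c y (ρ l).i) =
      (ev (pol (p y)))^[(ρ l).n'] (c y (ρ l).i'))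
    (hfree : ∀ l, ((Esc (pol (p x)) (c x (ρ l).i) ∨ Atr (pol (p x)) (c x (ρ l).i)) ∨
        Function.Injective fun j => (ev (pol (p x)))^[j] (c x (ρ l).i)) ∧
      ((Esc (pol (p x)) (c x (ρ l).i') ∨ Atr (pol (p x)) (c x (ρ l).i')) ∨
        Function.Injective fun j => (ev (pol (p x)))^[j] (c x (ρ l).i')))
    (hind : LinearIndependent ℂ fun l => dvP (pol (p x)) (c x (ρ l).i) (ρ l).n -
      dvP (pol (p x)) (c x (ρ l).i') (ρ l).n')
    (himm : ∀ (v : Fin m → ℂ) (α β : ℂ),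
      pol (fderiv ℂ p x v) = conjP (pol (p x)) α β → v = 0)
    (hdim : m + N = d - 1) : TransP p x :=
  pfamD0 hp hLI hSO hPF hI hG hOR hHD hDV hCK hDR hd hdx hT hnull hS hcd hcrit hsim hrel hfree
    hind fun hℓ hDv hDc => hLA d m N (p x) (fderiv ℂ p x : (Fin m → ℂ) →ₗ[ℂ] PC d)
      (relL (pol (p x)) (c x) ρ) hd hT hdim himm hℓ hDv hDc

/-- `pol` as a linear map -/
noncomputable def polL (d : ℕ) : PC d →ₗ[ℂ] ℂ[X] where
  toFun := pol
  map_add' := pol_add
  map_smul' s v := by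
    rw [pol_smul, RingHom.id_apply, Polynomial.smul_eq_C_mul]

theorem polL_inj (d : ℕ) : Function.Injective (polL d) := by
  intro a b h
  have h' : pol a = pol b := h
  funext i
  have h1 := congrArg (fun F => F.coeff i) h'
  simp only [pol_coeff, dif_pos i.2] at h1
  exact h1

/-- tangent vectors and conjugations -/
noncomputable def tanL {d m : ℕ} (T : ℂ[X]) (D : (Fin m → ℂ) →ₗ[ℂ] PC d) :
    (Fin m → ℂ) × ℂ × ℂ →ₗ[ℂ] ℂ[X] where
  toFun q := pol (D q.1) + conjP T q.2.1 q.2.2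
  map_add' q q' := by
    simp only [Prod.fst_add, Prod.snd_add, map_add, pol_add]
    unfold conjP
    rw [C_add, C_add]
    ring
  map_smul' s q := by
    simp only [Prod.smul_fst, Prod.smul_snd, map_smul, pol_smul, RingHom.id_apply,
      smul_eq_mul, Polynomial.smul_eq_C_mul]
    unfold conjP
    rw [C_mul, C_mul]
    ring

theorem conjP_deg {d : ℕ} (hd : 2 ≤ d) {T : ℂ[X]} (hT : T.natDegree ≤ d) (α β : ℂ) :
    (conjP T α β).natDegree ≤ d := by
  unfold conjP
  have h1 : (derivative T).natDegree ≤ d - 1 := (natDegree_derivative_le _).trans (by omega)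
  have h2 : (C α + C β * X : ℂ[X]).natDegree ≤ 1 := by
    refine (natDegree_add_le _ _).trans (max_le ?_ ?_)
    · rw [natDegree_C]; exact zero_le_one
    · exact (natDegree_C_mul_le _ _).trans natDegree_X_le
  refine (natDegree_sub_le _ _).trans (max_le ((natDegree_add_le _ _).trans (max_le ?_ ?_)) ?_)
  · rw [natDegree_C]; exact Nat.zero_le _
  · exact (natDegree_C_mul_le _ _).trans hT
  · refine natDegree_mul_le.trans ?_
    omega

/-- dimension count, second form -/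
theorem cover_of_finrank {d m N : ℕ} (hd : 2 ≤ d) {a : PC d}
    {D : (Fin m → ℂ) →ₗ[ℂ] PC d} {ℓ : PC d →ₗ[ℂ] (Fin N → ℂ)}
    (hdim : Module.finrank ℂ (Submodule.span ℂ {H : ℂ[X] | ∃ (v : Fin m → ℂ) (α β : ℂ),
      H = pol (D v) + conjP (pol a) α β}) + N = d + 1)
    (hℓ : Function.Surjective ℓ) (hDv : ∀ v, ℓ (D v) = 0)
    (hDc : ∀ (h : PC d) (α β : ℂ), pol h = conjP (pol a) α β → ℓ h = 0) (h : PC d)
    (hh : ℓ h = 0) : ∃ (v : Fin m → ℂ) (α β : ℂ), pol h = pol (D v) + conjP (pol a) α β := by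
  have hset : {H : ℂ[X] | ∃ (v : Fin m → ℂ) (α β : ℂ), H = pol (D v) + conjP (pol a) α β} =
      (LinearMap.range (tanL (pol a) D) : Set ℂ[X]) := by
    ext H
    constructor
    · rintro ⟨v, α, β, rfl⟩
      exact ⟨(v, α, β), rfl⟩
    · rintro ⟨⟨v, α, β⟩, rfl⟩
      exact ⟨v, α, β, rfl⟩
  rw [hset, Submodule.span_eq] at hdim
  have hle : LinearMap.range (tanL (pol a) D) ≤ (LinearMap.ker ℓ).map (polL d) := by
    rintro _ ⟨⟨v, α, β⟩, rfl⟩
    obtain ⟨g, hg⟩ := exists_pol (conjP_deg hd (pol_natDegree_le a) α β)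
    refine ⟨D v + g, ?_, ?_⟩
    · change ℓ (D v + g) = 0
      rw [map_add, hDv, hDc g α β hg, add_zero]
    · change pol (D v + g) = pol (D v) + conjP (pol a) α β
      rw [pol_add, hg]
  have h1 : Module.finrank ℂ ((LinearMap.ker ℓ).map (polL d)) =
      Module.finrank ℂ (LinearMap.ker ℓ) :=
    (Submodule.equivMapOfInjective (polL d) (polL_inj d) (LinearMap.ker ℓ)).finrank_eq.symm
  have h2 := LinearMap.finrank_range_add_finrank_ker ℓ
  rw [LinearMap.range_eq_top.2 hℓ, finrank_top, Module.finrank_fin_fun,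
    Module.finrank_fin_fun] at h2
  have h3 := Submodule.eq_of_le_of_finrank_eq hle (by rw [h1]; omega)
  have h4 : pol h ∈ (LinearMap.ker ℓ).map (polL d) := ⟨h, hh, rfl⟩
  rw [← h3] at h4
  obtain ⟨⟨v, α, β⟩, h5⟩ := h4
  exact ⟨v, α, β, h5.symm⟩

/-- **Slices are transversal**, with a condition on the tangent space. -/
theorem pfamF (hp : Pack) (hLI : S_LINP) (hSO : S_SOLP) (hPF : S_PFX) (hI : S_INV0)
    (hG : S_GOODX) (hOR : S_ORBP) (hHD : S_HDP) (hDV : S_DVP) (hCK : S_CKR) (hDR : S_DRL)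
    {d m s N : ℕ} (hd : 2 ≤ d) {p : (Fin m → ℂ) → PC d} {x : Fin m → ℂ}
    (hdx : DifferentiableAt ℂ p x) (hT : (pol (p x)).natDegree = d)
    (hnull : volume {z : ℂ | ¬ (Esc (pol (p x)) z ∨ Atr (pol (p x)) z)} = 0)
    (hS : ∀ c : ℂ, (derivative (pol (p x))).eval c = 0 →
      (Esc (pol (p x)) c ∨ Atr (pol (p x)) c) ∨ Smb (pol (p x)) c)
    {c : (Fin m → ℂ) → Fin s → ℂ} (hcd : DifferentiableAt ℂ c x)
    (hcrit : ∀ᶠ y in 𝓝 x, ∀ i, (derivative (pol (p y))).eval (c y i) = 0)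
    (hsim : ∀ i, (derivative (derivative (pol (p x)))).eval (c x i) ≠ 0)
    {ρ : Fin N → RI s}
    (hrel : ∀ᶠ y in 𝓝 x, ∀ l, (ev (pol (p y)))^[(ρ l).n] (c y (ρ l).i) =
      (ev (pol (p y)))^[(ρ l).n'] (c y (ρ l).i'))
    (hfree : ∀ l, ((Esc (pol (p x)) (c x (ρ l).i) ∨ Atr (pol (p x)) (c x (ρ l).i)) ∨
        Function.Injective fun j => (ev (pol (p x)))^[j] (c x (ρ l).i)) ∧
      ((Esc (pol (p x)) (c x (ρ l).i') ∨ Atr (pol (p x)) (c x (ρ l).i')) ∨
        Function.Injective fun j => (ev (pol (p x)))^[j] (c x (ρ l).i')))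
    (hind : LinearIndependent ℂ fun l => dvP (pol (p x)) (c x (ρ l).i) (ρ l).n -
      dvP (pol (p x)) (c x (ρ l).i') (ρ l).n')
    (hdim : Module.finrank ℂ (Submodule.span ℂ {H : ℂ[X] | ∃ (v : Fin m → ℂ) (α β : ℂ),
      H = pol (fderiv ℂ p x v) + conjP (pol (p x)) α β}) + N = d + 1) : TransP p x :=
  pfamD0 hp hLI hSO hPF hI hG hOR hHD hDV hCK hDR hd hdx hT hnull hS hcd hcrit hsim hrel hfree
    hind fun hℓ hDv hDc => cover_of_finrank (D := (fderiv ℂ p x : (Fin m → ℂ) →ₗ[ℂ] PC d)) hd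
      hdim hℓ hDv hDc

end Pool.Agent.H207.TP
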