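import Pool.Agent.H207.TP.Fin4

/-! Project TP: Milnor's curves of cubic polynomials with a periodic critical point. -/

set_option autoImplicit false

open Metric Set MeasureTheory Filter Topology Polynomial
open scoped OnePoint ENNReal

namespace Pool.Agent.H207.TP

open Pool.Agent.H792R2.CE Pool.Agent.H792R2 Pool.Agent.H207.TF
open Pool.Agent.H211.LR Pool.Agent.H211.AD
open Pool.Agent.H211.LD (pol pol_coeff pol_natDegree_le pol_add_smul avg)

/-- the coefficients of `z ^ 3 - 3 a ^ 2 z + b` -/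
def cubP (a b : ℂ) : PC 3 := ![b, -3 * a ^ 2, 0, 1]

theorem pol4 (v : PC 3) : pol v = C (v 0) + C (v 1) * X + C (v 2) * X ^ 2 + C (v 3) * X ^ 3 := by
  change (∑ i : Fin 4, C (v i) * X ^ (i : ℕ)) = _
  rw [Fin.sum_univ_four]
  simp

theorem pol_cub (a b : ℂ) : pol (cubP a b) = X ^ 3 - C (3 * a ^ 2) * X + C b := by
  rw [pol4]
  simp only [cubP]
  simp [-map_mul, -map_pow]
  ring

theorem cub_der (a b : ℂ) : derivative (pol (cubP a b)) = C 3 * X ^ 2 - C (3 * a ^ 2) := by
  rw [pol_cub, derivative_add, derivative_sub, derivative_X_pow, derivative_C_mul, derivative_X,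
    derivative_C, mul_one, add_zero]
  norm_num

theorem cub_der2 (a b : ℂ) : derivative (derivative (pol (cubP a b))) = C 6 * X := by
  rw [cub_der, derivative_sub, derivative_C_mul, derivative_X_pow, derivative_C, sub_zero]
  norm_num
  rw [← mul_assoc, ← C_mul]
  norm_num

theorem cub_deg (a b : ℂ) : (pol (cubP a b)).natDegree = 3 := by
  refine le_antisymm (pol_natDegree_le _) (le_natDegree_of_ne_zero ?_)
  rw [pol_coeff, dif_pos (by norm_num)]
  simp [cubP]

theorem cub_diff {m : ℕ} {a b : (Fin m → ℂ) → ℂ} {x : Fin m → ℂ} (ha : DifferentiableAt ℂ a x)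
    (hb : DifferentiableAt ℂ b x) : DifferentiableAt ℂ (fun y => cubP (a y) (b y)) x ∧
    ∀ v, fderiv ℂ (fun y => cubP (a y) (b y)) x v =
      ![fderiv ℂ b x v, -3 * (2 * a x * fderiv ℂ a x v), 0, 0] := by
  have h1 : HasFDerivAt (fun y => -3 * a y ^ 2) ((-3 : ℂ) • ((2 * a x) • fderiv ℂ a x)) x := by
    have h2 := (ha.hasFDerivAt.pow 2).const_mul (-3 : ℂ)
    refine h2.congr_fderiv ?_
    ext v
    simp
  have h : HasFDerivAt (fun y => cubP (a y) (b y))
      (ContinuousLinearMap.pi ![fderiv ℂ b x, (-3 : ℂ) • ((2 * a x) • fderiv ℂ a x), 0, 0]) x := by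
    rw [hasFDerivAt_pi']
    intro i
    fin_cases i
    · exact hb.hasFDerivAt
    · exact h1
    · exact hasFDerivAt_const _ _
    · exact hasFDerivAt_const _ _
  refine ⟨h.differentiableAt, fun v => ?_⟩
  rw [h.fderiv]
  funext i
  fin_cases i <;> simp

/-- **Milnor's curves are transversal.** -/
theorem pfamE (hp : Pack) (hLI : S_LINP) (hSO : S_SOLP) (hPF : S_PFX) (hI : S_INV0)
    (hG : S_GOODX) (hOR : S_ORBP) (hHD : S_HDP) (hDV : S_DVP) (hCK : S_CKR) (hDR : S_DRL)
    (hLA : S_LAG) {a b : (Fin 1 → ℂ) → ℂ} {x : Fin 1 → ℂ} (ha : DifferentiableAt ℂ a x)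
    (hb : DifferentiableAt ℂ b x) {n : ℕ} (hn : 1 ≤ n)
    (hne : fderiv ℂ a x ≠ 0 ∨ fderiv ℂ b x ≠ 0)
    (hper : ∀ᶠ y in 𝓝 x, (ev (pol (cubP (a y) (b y))))^[n] (a y) = a y)
    (hnull : volume {z : ℂ | ¬ (Esc (pol (cubP (a x) (b x))) z ∨
      Atr (pol (cubP (a x) (b x))) z)} = 0)
    (hS : ∀ c : ℂ, (derivative (pol (cubP (a x) (b x)))).eval c = 0 →
      (Esc (pol (cubP (a x) (b x))) c ∨ Atr (pol (cubP (a x) (b x))) c) ∨
        Smb (pol (cubP (a x) (b x))) c) :
    TransP (fun y => cubP (a y) (b y)) x := by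
  have hcrit : ∀ y, (derivative (pol (cubP (a y) (b y)))).eval (a y) = 0 := by
    intro y
    rw [cub_der]
    simp
  have hA : Atr (pol (cubP (a x) (b x))) (a x) := atr_of_per hn (hcrit x) hper.self_of_nhds
  by_cases ha0 : a x = 0
  · intro c hc hcA
    exfalso
    apply hcA
    right
    have h1 : c = a x := by
      rw [cub_der, ha0] at hc
      simp at hc
      rw [hc, ha0]
    rw [h1]
    exact hA
  obtain ⟨hd1, hd2⟩ := cub_diff ha hb
  refine pfamD hp hLI hSO hPF hI hG hOR hHD hDV hCK hDR hLA (d := 3) (m := 1) (s := 1) (N := 1)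
    (by norm_num) (p := fun y => cubP (a y) (b y)) hd1 (cub_deg _ _) hnull hS
    (c := fun y _ => a y) (differentiableAt_pi.2 fun _ => ha)
    (Eventually.of_forall fun y _ => hcrit y) (fun _ => ?_)
    (ρ := fun _ => (⟨0, n, 0, 0⟩ : RI 1)) (hper.mono fun y hy _ => hy)
    (fun _ => ⟨Or.inl (Or.inr hA), Or.inl (Or.inr hA)⟩) ?_ ?_ (by norm_num)
  · rw [cub_der2, eval_mul, eval_C, eval_X]
    exact mul_ne_zero (by norm_num) ha0
  · exact indep_critP (T := pol (cubP (a x) (b x))) (c := fun _ : Fin 1 => a x)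
      (c' := fun _ : Fin 1 => a x) (n := fun _ => n) (fun _ => hcrit x) (fun _ => hcrit x)
      (fun _ => hn) (fun i j _ => Subsingleton.elim i j)
  · intro v α β h
    rw [hd2, pol4] at h
    unfold conjP at h
    rw [cub_der, pol_cub] at h
    have h0 := congrArg (Polynomial.eval 0) h
    have h1 := congrArg (Polynomial.eval 1) h
    have h2 := congrArg (Polynomial.eval (-1)) h
    have h3 := congrArg (Polynomial.eval 2) h
    simp at h0 h1 h2 h3
    have hβ : β = 0 := by
      linear_combination (1 / 12 : ℂ) * (3 * h0 - 3 * h1 - h2 + h3)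
    have hα : α = 0 := by
      subst hβ
      linear_combination (-1 / 6 : ℂ) * (2 * h0 - h1 - h2)
    subst hα
    subst hβ
    simp at h0 h1
    have hbv : fderiv ℂ b x v = 0 := by linear_combination h0
    have hav : fderiv ℂ a x v = 0 := by
      have h4 : a x * fderiv ℂ a x v = 0 := by linear_combination (-1 / 6 : ℂ) * (h1 - h0)
      exact (mul_eq_zero.1 h4).resolve_left ha0
    -- a nonzero linear form on a line
    by_contra hv
    have hline : ∀ w : Fin 1 → ℂ, ∃ t : ℂ, w = t • v := by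
      intro w
      have hv0 : v 0 ≠ 0 := by
        intro h5
        apply hv
        funext i
        rw [Subsingleton.elim i 0, h5]
        rfl
      refine ⟨w 0 / v 0, ?_⟩
      funext i
      rw [Subsingleton.elim i 0, Pi.smul_apply, smul_eq_mul, div_mul_cancel₀ _ hv0]
    have hz : ∀ L : (Fin 1 → ℂ) →L[ℂ] ℂ, L v = 0 → L = 0 := by
      intro L hL
      refine ContinuousLinearMap.ext fun w => ?_
      obtain ⟨t, rfl⟩ := hline w
      rw [map_smul, hL, smul_zero]
      rfl
    rcases hne with h5 | h5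
    · exact h5 (hz _ hav)
    · exact h5 (hz _ hbv)

end Pool.Agent.H207.TP
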