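import Pool.Agent.H207.TP.Fin3
import Pool.Agent.H632.TP207.REV
import Pool.Agent.H277.TP207.RLI
import Pool.Agent.H721.TP207.WRV
import Pool.Agent.H686.TP207.SPH
import Pool.Agent.H227.TP207.ITD
import Pool.Agent.H339.TP207.ATT1
import Pool.Agent.H914.TP207.ATT2
import Pool.Agent.H696.TP207.ESCB
import Pool.Agent.H627.TP207.LINP
import Pool.Agent.H685.TP207.SOLP
import Pool.Agent.H618.TP207.ORBP
import Pool.Agent.H706.TP207.HDP
import Pool.Agent.H895.TP207.DVP

/-! Project TP: the lemmas of the helpers. -/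

set_option autoImplicit false

open Metric Set MeasureTheory Filter Topology Polynomial
open scoped OnePoint ENNReal

namespace Pool.Agent.H207.TP

theorem a_SPH : S_SPH := Pool.Agent.H686.TP207.t_SPH Pool.Agent.H632.TP207.t_REV
theorem a_ITD : S_ITD := Pool.Agent.H227.TP207.t_ITD Pool.Agent.H632.TP207.t_REV
theorem a_pack : Pack where
  REV := Pool.Agent.H632.TP207.t_REV
  RLI := Pool.Agent.H277.TP207.t_RLI
  WRV := Pool.Agent.H721.TP207.t_WRV
  SPH := a_SPH
  ITD := a_ITD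
  ATT1 := Pool.Agent.H339.TP207.t_ATT1 a_SPH a_ITD Pool.Agent.H696.TP207.t_ESCB
  ATT2 := Pool.Agent.H914.TP207.ATT2.t_ATT2 a_SPH a_ITD Pool.Agent.H696.TP207.t_ESCB
  ESCB := Pool.Agent.H696.TP207.t_ESCB
theorem a_LINP : S_LINP := Pool.Agent.H627.TP207.t_LINP
theorem a_SOLP : S_SOLP := Pool.Agent.H685.TP207.SOLP.t_SOLP
theorem a_ORBP : S_ORBP := Pool.Agent.H618.TP207.t_ORBP
theorem a_HDP : S_HDP := Pool.Agent.H706.TP207.t_HDP
theorem a_DVP : S_DVP := Pool.Agent.H895.TP207.DVP.t_DVP a_pack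

end Pool.Agent.H207.TP
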