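import Pool.Agent.H207.TP.Inst
import Pool.Agent.H207.TP.Fin5
import Pool.Agent.H337.TP207.CKR
import Pool.Agent.H706.TP207.DRL
import Pool.Agent.H600.TP207.LAG

/-! Project TP: the lemmas of the helpers, second part. -/

set_option autoImplicit false

open Metric Set MeasureTheory Filter Topology Polynomial
open scoped OnePoint ENNReal

namespace Pool.Agent.H207.TP

theorem a_CKR : S_CKR := Pool.Agent.H337.TP207.t_CKR
theorem a_DRL : S_DRL := Pool.Agent.H706.TP207.t_DRL a_ORBP a_HDP
theorem a_LAG : S_LAG := Pool.Agent.H600.TP207.t_LAG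

end Pool.Agent.H207.TP
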