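import Pool.Agent.H207.TP.Eps

/-! Project TP: the strata of polynomials are complex manifolds. -/

set_option autoImplicit false

open Metric Set MeasureTheory Filter Topology Polynomial
open scoped OnePoint ENNReal

namespace Pool.Agent.H207.TP

open Pool.Agent.H792R2.CE Pool.Agent.H792R2 Pool.Agent.H207.TF
open Pool.Agent.H211.LR Pool.Agent.H211.AD
open Pool.Agent.H211.LD (pol pol_coeff pol_natDegree_le pol_add_smul avg)

section
variable {d r N : ℕ}

/-- `a` is in the stratum, with the critical points `c` -/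
def InSP (m : Fin r → ℕ) (J : Fin r → Fin r → Prop) (ρ : Fin N → RI r) (a : PC d)
    (c : Fin r → ℂ) : Prop :=
  (∀ i, (X - C (c i)) ^ m i ∣ derivative (pol a)) ∧
  (∀ i j, J i j → (pol a).eval (c i) = (pol a).eval (c j)) ∧
  ∀ l, (ev (pol a))^[(ρ l).n] (c (ρ l).i) = (ev (pol a))^[(ρ l).n'] (c (ρ l).i')

/-- the equations of the stratum -/
noncomputable def FFP (m : Fin r → ℕ) (rep : Fin r → Fin r) (ρ : Fin N → RI r)
    (y : PC d × (Fin r → ℂ)) :
    ((i : Fin r) → Fin (m i) → ℂ) × ({i : Fin r // rep i ≠ i} → ℂ) × (Fin N → ℂ) :=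
  (fun i j => (hasseDeriv (j : ℕ) (derivative (pol y.1))).eval (y.2 i),
    fun i => (ev (pol y.1))^[1] (y.2 i) - (ev (pol y.1))^[1] (y.2 (rep i)),
    fun l => (ev (pol y.1))^[(ρ l).n] (y.2 (ρ l).i) -
      (ev (pol y.1))^[(ρ l).n'] (y.2 (ρ l).i'))

/-- the linearized equations -/
noncomputable def LFP (m : Fin r → ℕ) (rep : Fin r → Fin r) (ρ : Fin N → RI r) (T H : ℂ[X])
    (e : Fin r → ℂ) (κ : Fin r → ℂ) :
    ((i : Fin r) → Fin (m i) → ℂ) × ({i : Fin r // rep i ≠ i} → ℂ) × (Fin N → ℂ) :=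
  (fun i j => eqP T H (e i) (κ i) (j : ℕ),
    fun i => spdP T H (e i) (κ i) 1 - spdP T H (e (rep i)) (κ (rep i)) 1,
    fun l => spdP T H (e (ρ l).i) (κ (ρ l).i) (ρ l).n -
      spdP T H (e (ρ l).i') (κ (ρ l).i') (ρ l).n')

/-- projection to the coefficients and one marked point -/
noncomputable def prjP (i : Fin r) : (PC d × (Fin r → ℂ)) →L[ℂ] PC d × ℂ :=
  (ContinuousLinearMap.fst ℂ _ _).prod
    ((ContinuousLinearMap.proj i).comp (ContinuousLinearMap.snd ℂ _ _))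

theorem FFP_diff (hOR : S_ORBP) (hHD : S_HDP) {m : Fin r → ℕ} {rep : Fin r → Fin r}
    {ρ : Fin N → RI r} (x : PC d) (e : Fin r → ℂ) :
    ContDiffAt ℂ 1 (FFP m rep ρ) (x, e) ∧ ∀ (v : PC d) (κ : Fin r → ℂ),
      fderiv ℂ (FFP m rep ρ) (x, e) (v, κ) = LFP m rep ρ (pol x) (pol v) e κ := by
  -- the pieces
  have hW : ∀ (i : Fin r) (j : ℕ),
      HasStrictFDerivAt (fun y : PC d × (Fin r → ℂ) =>
        (hasseDeriv j (derivative (pol y.1))).eval (y.2 i))
        ((fderiv ℂ (fun p : PC d × ℂ => (hasseDeriv j (derivative (pol p.1))).eval p.2)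
          (x, e i)).comp (prjP i)) (x, e) ∧
      ContDiffAt ℂ 1 (fun y : PC d × (Fin r → ℂ) =>
        (hasseDeriv j (derivative (pol y.1))).eval (y.2 i)) (x, e) := by
    intro i j
    obtain ⟨h1, -⟩ := hHD d x (e i) j
    constructor
    · exact (h1.hasStrictFDerivAt (by norm_num)).comp (x, e)
        (g := fun p : PC d × ℂ => (hasseDeriv j (derivative (pol p.1))).eval p.2)
        (f := prjP i) ((prjP i).hasStrictFDerivAt)
    · exact ContDiffAt.comp (x, e)
        (g := fun p : PC d × ℂ => (hasseDeriv j (derivative (pol p.1))).eval p.2)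
        (f := prjP i) h1 (prjP i).contDiff.contDiffAt
  have hO : ∀ (i : Fin r) (n : ℕ),
      HasStrictFDerivAt (fun y : PC d × (Fin r → ℂ) => (ev (pol y.1))^[n] (y.2 i))
        ((fderiv ℂ (fun p : PC d × ℂ => (ev (pol p.1))^[n] p.2) (x, e i)).comp (prjP i)) (x, e) ∧
      ContDiffAt ℂ 1 (fun y : PC d × (Fin r → ℂ) => (ev (pol y.1))^[n] (y.2 i)) (x, e) := by
    intro i n
    obtain ⟨h1, -⟩ := hOR d x (e i) n
    constructor
    · exact (h1.hasStrictFDerivAt (by norm_num)).comp (x, e)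
        (g := fun p : PC d × ℂ => (ev (pol p.1))^[n] p.2)
        (f := prjP i) ((prjP i).hasStrictFDerivAt)
    · exact ContDiffAt.comp (x, e)
        (g := fun p : PC d × ℂ => (ev (pol p.1))^[n] p.2)
        (f := prjP i) h1 (prjP i).contDiff.contDiffAt
  have hC : ContDiffAt ℂ 1 (FFP m rep ρ) (x, e) := by
    unfold FFP
    refine ContDiffAt.prodMk ?_ (ContDiffAt.prodMk ?_ ?_)
    · refine contDiffAt_pi.2 fun i => contDiffAt_pi.2 fun j => (hW i j).2
    · refine contDiffAt_pi.2 fun i => ?_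
      exact ((hO i 1).2).sub ((hO (rep i) 1).2)
    · refine contDiffAt_pi.2 fun l => ?_
      exact ((hO _ _).2).sub ((hO _ _).2)
  refine ⟨hC, fun v κ => ?_⟩
  have hD : HasFDerivAt (FFP m rep ρ)
      ((ContinuousLinearMap.pi fun i => ContinuousLinearMap.pi fun j : Fin (m i) =>
        (fderiv ℂ (fun p : PC d × ℂ => (hasseDeriv (j : ℕ) (derivative (pol p.1))).eval p.2)
          (x, e i)).comp (prjP i)).prod
        ((ContinuousLinearMap.pi fun i : {i : Fin r // rep i ≠ i} =>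
          (fderiv ℂ (fun p : PC d × ℂ => (ev (pol p.1))^[1] p.2)
            (x, e i)).comp (prjP (i : Fin r)) -
          (fderiv ℂ (fun p : PC d × ℂ => (ev (pol p.1))^[1] p.2)
            (x, e (rep i))).comp (prjP (rep i))).prod
        (ContinuousLinearMap.pi fun l : Fin N =>
          (fderiv ℂ (fun p : PC d × ℂ => (ev (pol p.1))^[(ρ l).n] p.2)
            (x, e (ρ l).i)).comp (prjP (ρ l).i) -
          (fderiv ℂ (fun p : PC d × ℂ => (ev (pol p.1))^[(ρ l).n'] p.2)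
            (x, e (ρ l).i')).comp (prjP (ρ l).i')))) (x, e) := by
    refine HasFDerivAt.prodMk ?_ (HasFDerivAt.prodMk ?_ ?_)
    · refine hasFDerivAt_pi.2 fun i => hasFDerivAt_pi.2 fun j => (hW i j).1.hasFDerivAt
    · refine hasFDerivAt_pi.2 fun i => ?_
      exact ((hO i 1).1.hasFDerivAt).sub ((hO (rep i) 1).1.hasFDerivAt)
    · refine hasFDerivAt_pi.2 fun l => ?_
      exact ((hO _ _).1.hasFDerivAt).sub ((hO _ _).1.hasFDerivAt)
  rw [hD.fderiv]
  refine Prod.ext ?_ (Prod.ext ?_ ?_)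
  · funext i j
    change (fderiv ℂ (fun p : PC d × ℂ => (hasseDeriv (j : ℕ) (derivative (pol p.1))).eval p.2)
      (x, e i)) (v, κ i) = _
    rw [(hHD d x (e i) j).2]
    rfl
  · funext i
    change (fderiv ℂ (fun p : PC d × ℂ => (ev (pol p.1))^[1] p.2) (x, e i)) (v, κ i) -
      (fderiv ℂ (fun p : PC d × ℂ => (ev (pol p.1))^[1] p.2) (x, e (rep i))) (v, κ (rep i)) = _
    rw [(hOR d x (e i) 1).2, (hOR d x (e (rep i)) 1).2]
    rfl
  · funext l
    change (fderiv ℂ (fun p : PC d × ℂ => (ev (pol p.1))^[(ρ l).n] p.2)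
        (x, e (ρ l).i)) (v, κ (ρ l).i) -
      (fderiv ℂ (fun p : PC d × ℂ => (ev (pol p.1))^[(ρ l).n'] p.2)
        (x, e (ρ l).i')) (v, κ (ρ l).i') = _
    rw [(hOR d x (e (ρ l).i) _).2, (hOR d x (e (ρ l).i') _).2]
    rfl

/-- a deformation evaluated at a critical point -/
theorem DfmP.val {T H : ℂ[X]} {u κ : ℂ → ℂ} (h : DfmP T H u κ) {e : ℂ}
    (he : (derivative T).eval e = 0) : H.eval e = u (T.eval e) := by
  obtain ⟨g, hg⟩ := h e he
  have h1 := congrArg (Polynomial.eval e) hg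
  simp only [Polynomial.eval_add, Polynomial.eval_sub, Polynomial.eval_mul, Polynomial.eval_C,
    Polynomial.eval_pow, he, mul_zero, add_zero, Polynomial.eval_X, sub_self] at h1
  rw [zero_pow (Nat.succ_ne_zero _), zero_mul] at h1
  exact sub_eq_zero.1 h1

/-- a deformation solves the linearized equations -/
theorem LFP_of_Dfm (hLI : S_LINP) {T H : ℂ[X]} {e : Fin r → ℂ} {rep : Fin r → Fin r}
    {ρ : Fin N → RI r} (hN : derivative T ≠ 0)
    (he0 : ∀ i, (derivative T).eval (e i) = 0)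
    (hrep : ∀ i, T.eval (e (rep i)) = T.eval (e i)) {m : Fin r → ℕ}
    (hm : ∀ i, (derivative T).rootMultiplicity (e i) = m i)
    {u κ : ℂ → ℂ} (h : DfmP T H u κ) :
    (LFP m rep ρ T H e (fun i => κ (e i))).1 = 0 ∧
    (LFP m rep ρ T H e (fun i => κ (e i))).2.1 = 0 := by
  constructor
  · funext i j
    change eqP T H (e i) (κ (e i)) (j : ℕ) = 0
    refine (hLI T H (e i) (κ (e i)) hN (he0 i)).1 ?_ j (by rw [hm]; exact j.2)
    rw [h.val (he0 i)]
    exact h (e i) (he0 i)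
  · funext i
    change spdP T H (e i) (κ (e i)) 1 - spdP T H (e (rep i)) (κ (e (rep i))) 1 = 0
    simp only [spdP, Function.iterate_zero, id_eq, he0, zero_mul, add_zero]
    rw [h.val (he0 _), h.val (he0 _), hrep, sub_self]

theorem exists_pol {H : ℂ[X]} (hH : H.natDegree ≤ d) : ∃ v : PC d, pol v = H :=
  ⟨_, pol_of_coeff hH⟩

/-- **The equations of the stratum are independent.** -/
theorem FFP_surj (hp : Pack) (hLI : S_LINP) (hSO : S_SOLP) (hPF : S_PFX) (hI : S_INV0)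
    (hG : S_GOODX) (hOR : S_ORBP) (hHD : S_HDP) (hDV : S_DVP) (hd : 2 ≤ d) {x : PC d}
    (hT : (pol x).natDegree = d)
    (hdense : Dense {z : ℂ | Esc (pol x) z ∨ Atr (pol x) z})
    {e : Fin r → ℂ} (he : Function.Injective e) (he0 : ∀ i, (derivative (pol x)).eval (e i) = 0)
    (hall : ∀ z, (derivative (pol x)).eval z = 0 → ∃ i, e i = z) {rep : Fin r → Fin r}
    (hrep : ∀ i, (pol x).eval (e (rep i)) = (pol x).eval (e i))
    (hrep2 : ∀ i, rep (rep i) = rep i) {m : Fin r → ℕ}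
    (hm : ∀ i, (derivative (pol x)).rootMultiplicity (e i) = m i) {ρ : Fin N → RI r}
    (hρ : ∀ l, (ev (pol x))^[(ρ l).n] (e (ρ l).i) = (ev (pol x))^[(ρ l).n'] (e (ρ l).i'))
    (hind : LinearIndependent ℂ fun l => dvP (pol x) (e (ρ l).i) (ρ l).n -
      dvP (pol x) (e (ρ l).i') (ρ l).n') :
    Function.Surjective (fderiv ℂ (FFP m rep ρ) (x, e)) := by
  classical
  have hN : derivative (pol x) ≠ 0 := by
    intro h0
    have := Polynomial.derivative_eq_zero.1 h0
    omega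
  obtain ⟨-, hD⟩ := FFP_diff (m := m) (rep := rep) (ρ := ρ) hOR hHD x e
  have hLD : ∀ {H : ℂ[X]} {u κ : ℂ → ℂ}, DfmP (pol x) H u κ →
    (LFP m rep ρ (pol x) H e (fun i => κ (e i))).1 = 0 ∧
    (LFP m rep ρ (pol x) H e (fun i => κ (e i))).2.1 = 0 := fun h =>
    LFP_of_Dfm hLI hN he0 hrep hm h
  obtain ⟨D, hDd⟩ : ∃ D, D = fderiv ℂ (FFP m rep ρ) (x, e) := ⟨_, rfl⟩
  rw [← hDd] at hD ⊢
  -- the third component is onto
  let D' : PC d × (Fin r → ℂ) →ₗ[ℂ]
    ((i : Fin r) → Fin (m i) → ℂ) × ({i : Fin r // rep i ≠ i} → ℂ) × (Fin N → ℂ) := D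
  let K : Submodule ℂ (PC d × (Fin r → ℂ)) :=
    LinearMap.ker (LinearMap.fst ℂ _ _ ∘ₗ D') ⊓
      LinearMap.ker (LinearMap.fst ℂ _ _ ∘ₗ LinearMap.snd ℂ _ _ ∘ₗ D')
  let R : Submodule ℂ (Fin N → ℂ) :=
    K.map (LinearMap.snd ℂ _ _ ∘ₗ LinearMap.snd ℂ _ _ ∘ₗ D')
  have hKm : ∀ y, y ∈ K ↔ (D y).1 = 0 ∧ (D y).2.1 = 0 := fun y => Iff.rfl
  have hR : R = ⊤ := by
    by_contra hne
    obtain ⟨φ, hφ0, hφ⟩ := Submodule.exists_le_ker_of_lt_top R (lt_top_iff_ne_top.2 hne)
    obtain ⟨b, hb⟩ : ∃ b : Fin N → ℂ, b = fun l => φ (Pi.single l 1) := ⟨_, rfl⟩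
    have hφb : ∀ z, φ z = ∑ l, b l * z l := by
      intro z
      have h1 : z = ∑ l, z l • (Pi.single l (1 : ℂ) : Fin N → ℂ) := by
        funext k
        simp [Finset.sum_apply, Pi.single_apply]
      conv_lhs => rw [h1]
      rw [map_sum]
      refine Finset.sum_congr rfl fun l _ => ?_
      rw [map_smul, hb, smul_eq_mul, mul_comm]
    have h0 : ∑ l, b l • (dvP (pol x) (e (ρ l).i) (ρ l).n -
        dvP (pol x) (e (ρ l).i') (ρ l).n') = 0 := by
      refine epsP (ρ := fun l => (ρ l).rel e) hp hPF hI hG hDV hd hT hdense hρ ?_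
      intro H u κ hH hDf
      obtain ⟨v, hv⟩ := exists_pol hH
      rw [← hv] at hDf ⊢
      obtain ⟨h1, h2⟩ := hLD hDf
      have hK : ((v, fun i => κ (e i)) : PC d × (Fin r → ℂ)) ∈ K := by
        rw [hKm, hD]
        exact ⟨h1, h2⟩
      have h3 : (D ((v, fun i => κ (e i)) : PC d × (Fin r → ℂ))).2.2 ∈ R :=
        ⟨_, hK, rfl⟩
      have h4 := hφ h3
      rw [LinearMap.mem_ker, hφb, hD] at h4
      exact h4
    have hb0 : b = 0 := by
      funext l
      exact Fintype.linearIndependent_iff.1 hind b h0 l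
    apply hφ0
    ext l
    rw [LinearMap.comp_apply, hφb]
    simp [hb0]
  -- the first two components
  rintro ⟨a, b, c⟩
  obtain ⟨H₀, κ₀, hH₀, h1, h2⟩ := hSO d (pol x) hd hT r e he he0 hall
    (fun i j => if h : j < m i then a i ⟨j, h⟩ else 0)
    (fun i => if h : rep i ≠ i then b ⟨i, h⟩ else 0)
  obtain ⟨v₀, hv₀⟩ := exists_pol hH₀
  have h3 : (D (v₀, κ₀)).1 = a := by
    rw [hD, hv₀]
    funext i j
    change eqP (pol x) H₀ (e i) (κ₀ i) (j : ℕ) = _
    have hj : (j : ℕ) < (derivative (pol x)).rootMultiplicity (e i) := by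
      rw [hm]
      exact j.2
    rw [h1 i j hj, dif_pos j.2]
  have h4 : (D (v₀, κ₀)).2.1 = b := by
    rw [hD, hv₀]
    funext i
    change spdP (pol x) H₀ (e i) (κ₀ i) 1 - spdP (pol x) H₀ (e (rep i)) (κ₀ (rep i)) 1 = _
    simp only [spdP, Function.iterate_zero, id_eq, he0, zero_mul, add_zero]
    rw [h2, h2, dif_pos i.2, dif_neg (by rw [hrep2]; simp), sub_zero]
  have h5' : c - (D (v₀, κ₀)).2.2 ∈ R := by rw [hR]; trivial
  obtain ⟨y, hy, hy2⟩ := h5'
  obtain ⟨hy3, hy4⟩ := (hKm y).1 hy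
  refine ⟨(v₀, κ₀) + y, ?_⟩
  rw [map_add]
  refine Prod.ext ?_ (Prod.ext ?_ ?_)
  · rw [Prod.fst_add, hy3, add_zero, h3]
  · rw [Prod.snd_add, Prod.fst_add, hy4, add_zero, h4]
  · rw [Prod.snd_add, Prod.snd_add]
    change (D (v₀, κ₀)).2.2 + (D y).2.2 = c
    have h7 : (D y).2.2 = c - (D (v₀, κ₀)).2.2 := hy2
    rw [h7]
    abel

theorem finrank_YP : Module.finrank ℂ (PC d × (Fin r → ℂ)) = d + 1 + r := by
  rw [Module.finrank_prod, Module.finrank_fin_fun, Module.finrank_fin_fun]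

/-- the kernel of the projection to the coefficients -/
theorem LFP_fst_zero {T : ℂ[X]} {e κ : Fin r → ℂ} {rep : Fin r → Fin r} {ρ : Fin N → RI r}
    (hN : derivative T ≠ 0) (he0 : ∀ i, (derivative T).eval (e i) = 0) {m : Fin r → ℕ}
    (hm : ∀ i, (derivative T).rootMultiplicity (e i) = m i)
    (h : (LFP m rep ρ T 0 e κ).1 = 0) : κ = 0 := by
  funext i
  have hmi : 0 < m i := by
    rw [← hm]
    exact (rootMultiplicity_pos hN).2 (he0 i)
  have h1 := congrFun (congrFun h i) ⟨m i - 1, by omega⟩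
  change eqP T 0 (e i) (κ i) (m i - 1) = 0 at h1
  unfold eqP at h1
  rw [derivative_zero, map_zero, Polynomial.eval_zero, zero_add] at h1
  have h2 : m i - 1 + 1 = m i := by omega
  rw [h2] at h1
  have h3 : (hasseDeriv (m i) (derivative T)).eval (e i) ≠ 0 := by
    intro h0
    have h4 : (X - C (e i)) ^ (m i + 1) ∣ derivative T := by
      rw [dvd_iff_hasse]
      intro j
      rcases Nat.lt_succ_iff_lt_or_eq.1 j.2 with h5 | h5
      · have h6 := (dvd_iff_hasse (derivative T) (e i) (m i)).1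
          (by rw [← hm]; exact pow_rootMultiplicity_dvd _ _)
        exact h6 ⟨j, h5⟩
      · rw [h5]
        exact h0
    have h7 := (le_rootMultiplicity_iff hN).2 h4
    rw [hm] at h7
    omega
  have h4 : ((m i - 1 : ℕ) : ℂ) + 1 ≠ 0 := Nat.cast_add_one_ne_zero _
  rcases mul_eq_zero.1 h1 with h5 | h5
  · exact absurd h5 (mul_ne_zero h4 h3)
  · exact h5

/-- **The strata are complex manifolds.** -/
theorem paramP (hp : Pack) (hLI : S_LINP) (hSO : S_SOLP) (hPF : S_PFX) (hI : S_INV0)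
    (hG : S_GOODX) (hOR : S_ORBP) (hHD : S_HDP) (hDV : S_DVP) (hd : 2 ≤ d) {x : PC d}
    (hT : (pol x).natDegree = d)
    (hdense : Dense {z : ℂ | Esc (pol x) z ∨ Atr (pol x) z})
    {e : Fin r → ℂ} (he : Function.Injective e) (he0 : ∀ i, (derivative (pol x)).eval (e i) = 0)
    (hall : ∀ z, (derivative (pol x)).eval z = 0 → ∃ i, e i = z) {m : Fin r → ℕ}
    (hm : ∀ i, (derivative (pol x)).rootMultiplicity (e i) = m i) {ρ : Fin N → RI r}
    (hρ : ∀ l, (ev (pol x))^[(ρ l).n] (e (ρ l).i) = (ev (pol x))^[(ρ l).n'] (e (ρ l).i'))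
    (hind : LinearIndependent ℂ fun l => dvP (pol x) (e (ρ l).i) (ρ l).n -
      dvP (pol x) (e (ρ l).i') (ρ l).n') :
    ∃ (n : ℕ) (Ψ : (Fin n → ℂ) → PC d) (c : (Fin n → ℂ) → Fin r → ℂ) (U : Set (Fin n → ℂ)),
      n + N = (Finset.univ.image fun i => (pol x).eval (e i)).card + 2 ∧ IsOpen U ∧ 0 ∈ U ∧
      DifferentiableOn ℂ Ψ U ∧ DifferentiableOn ℂ c U ∧ Ψ 0 = x ∧ c 0 = e ∧ InjOn Ψ U ∧
      (∀ t ∈ U, Function.Injective (fderiv ℂ Ψ t)) ∧
      (∀ t ∈ U, InSP m (fun i j => (pol x).eval (e i) = (pol x).eval (e j)) ρ (Ψ t) (c t)) ∧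
      (∃ ε > (0 : ℝ), ∀ (y : PC d) (c' : Fin r → ℂ), ‖y - x‖ < ε → ‖c' - e‖ < ε →
        InSP m (fun i j => (pol x).eval (e i) = (pol x).eval (e j)) ρ y c' →
        ∃ t ∈ U, Ψ t = y ∧ c t = c') ∧
      ∀ t ∈ U, (pol (Ψ t)).natDegree = d ∧ Function.Injective (c t) ∧
        (∀ z, (derivative (pol (Ψ t))).eval z = 0 ↔ ∃ i, c t i = z) ∧
        (∀ i, (derivative (pol (Ψ t))).rootMultiplicity (c t i) = m i) ∧
        ∀ (H : ℂ[X]) (u κ : ℂ → ℂ), H.natDegree ≤ d → DfmP (pol (Ψ t)) H u κ →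
          (∀ l, KeepP (pol (Ψ t)) H κ ((ρ l).rel (c t))) →
          ∃ v, pol (fderiv ℂ Ψ t v) = H := by
  classical
  have hN : derivative (pol x) ≠ 0 := by
    intro h0
    have := Polynomial.derivative_eq_zero.1 h0
    omega
  obtain ⟨rep, hrep, hrep2, hrep3, hcard⟩ := exists_rep fun i => (pol x).eval (e i)
  have hFB : ∀ {y : PC d} {c' : Fin r → ℂ}, FFP m rep ρ (y, c') = 0 →
      ∀ i, (pol y).eval (c' (rep i)) = (pol y).eval (c' i) := by
    intro y c' h i
    have hB : ∀ i : {i : Fin r // rep i ≠ i}, (ev (pol y))^[1] (c' i) -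
        (ev (pol y))^[1] (c' (rep i)) = 0 :=
      fun i => congrFun (congrArg (fun z => z.2.1) h) i
    by_cases hi : rep i = i
    · rw [hi]
    · exact (sub_eq_zero.1 (hB ⟨i, hi⟩)).symm
  -- the equations describe the stratum
  have hFS : ∀ (y : PC d) (c' : Fin r → ℂ), FFP m rep ρ (y, c') = 0 ↔
      InSP m (fun i j => (pol x).eval (e i) = (pol x).eval (e j)) ρ y c' := by
    intro y c'
    constructor
    · intro h
      have hA : ∀ i (j : Fin (m i)), (hasseDeriv (j : ℕ) (derivative (pol y))).eval (c' i) = 0 :=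
        fun i j => congrFun (congrFun (congrArg Prod.fst h) i) j
      have hC : ∀ l, (ev (pol y))^[(ρ l).n] (c' (ρ l).i) -
          (ev (pol y))^[(ρ l).n'] (c' (ρ l).i') = 0 :=
        fun l => congrFun (congrArg (fun z => z.2.2) h) l
      refine ⟨fun i => (dvd_iff_hasse _ _ _).2 (hA i), fun i j hij => ?_,
        fun l => sub_eq_zero.1 (hC l)⟩
      rw [← hFB h i, ← hFB h j, hrep3 i j hij]
    · rintro ⟨h1, h2, h3⟩
      refine Prod.ext ?_ (Prod.ext ?_ ?_)
      · funext i j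
        exact (dvd_iff_hasse _ _ _).1 (h1 i) j
      · funext i
        change (pol y).eval (c' i) - (pol y).eval (c' (rep i)) = 0
        rw [sub_eq_zero]
        exact h2 i (rep i) (hrep i).symm
      · funext l
        exact sub_eq_zero.2 (h3 l)
  obtain ⟨hC1, hD⟩ := FFP_diff (m := m) (rep := rep) (ρ := ρ) hOR hHD x e
  have hF0 : FFP m rep ρ (x, e) = 0 := by
    rw [hFS]
    exact ⟨fun i => by rw [← hm]; exact pow_rootMultiplicity_dvd _ _, fun i j hij => hij, hρ⟩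
  have hsurj := FFP_surj hp hLI hSO hPF hI hG hOR hHD hDV hd hT hdense he he0
    hall hrep hrep2 hm hρ hind
  obtain ⟨n, ψ, U, hdim, hUo, hU0, hψ, hψ0, hinj, hFψ, hψinj, hFd, htan, hloc⟩ :=
    ift_main (PC d × (Fin r → ℂ)) _ (FFP m rep ρ) (x, e) hC1 hF0 hsurj
  have hdegN : ∀ {T : ℂ[X]}, T.natDegree = d → (derivative T).natDegree = d - 1 := by
    intro T hT
    rw [Polynomial.natDegree_derivative, hT]
  have hsm : ∑ i, m i = d - 1 := by
    rw [← hdegN hT, ← sum_mult hN he he0 hall]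
    exact Finset.sum_congr rfl fun i _ => (hm i).symm
  have hmpos : ∀ i, 0 < m i := fun i => by
    rw [← hm]
    exact (rootMultiplicity_pos hN).2 (he0 i)
  -- the dimension
  have hn : n + N = (Finset.univ.image fun i => (pol x).eval (e i)).card + 2 := by
    rw [finrank_Z, finrank_YP] at hdim
    rw [hsm] at hdim
    omega
  -- the projections
  have hψd : ∀ t ∈ U, HasFDerivAt ψ (fderiv ℂ ψ t) t := fun t ht =>
    ((hψ t ht).differentiableAt one_ne_zero).hasFDerivAt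
  have hΨd : ∀ t ∈ U, HasFDerivAt (fun t => (ψ t).1)
      ((ContinuousLinearMap.fst ℂ _ _).comp (fderiv ℂ ψ t)) t := fun t ht => (hψd t ht).fst
  have hcd : ∀ t ∈ U, HasFDerivAt (fun t => (ψ t).2)
      ((ContinuousLinearMap.snd ℂ _ _).comp (fderiv ℂ ψ t)) t := fun t ht => (hψd t ht).snd
  have hΨt : ∀ s ∈ U, ∀ t, fderiv ℂ (fun t => (ψ t).1) s t = (fderiv ℂ ψ s t).1 := by
    intro s hs t
    rw [(hΨd s hs).fderiv]
    rfl
  have hpol0 : pol (0 : PC d) = 0 := by simp [pol]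
  have hΨinj : Function.Injective (fderiv ℂ (fun t => (ψ t).1) 0) := by
    rw [injective_iff_map_eq_zero]
    intro t ht
    rw [hΨt 0 hU0] at ht
    have h1 := hFd t
    obtain ⟨κ, hκ⟩ : ∃ κ, κ = (fderiv ℂ ψ 0 t).2 := ⟨_, rfl⟩
    have h2 : fderiv ℂ ψ 0 t = (0, κ) := by
      rw [hκ]
      exact Prod.ext ht rfl
    rw [h2, hD, hpol0] at h1
    have h3 := LFP_fst_zero hN he0 hm (congrArg Prod.fst h1)
    rw [h3] at h2
    have h4 : fderiv ℂ ψ 0 t = fderiv ℂ ψ 0 0 := by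
      rw [h2, map_zero]
      rfl
    exact hψinj h4
  have hΨc : ContDiffAt ℂ 1 (fun t => (ψ t).1) 0 := (hψ 0 hU0).fst
  obtain ⟨V₁, hV₁, hV₁i⟩ := locInj (hΨc.hasStrictFDerivAt (by norm_num)) hΨinj
  have hV₂ : (fderiv ℂ fun t => (ψ t).1) ⁻¹' {L | Function.Injective L} ∈ 𝓝 0 := by
    have h1 : ContinuousAt (fderiv ℂ fun t => (ψ t).1) 0 :=
      (hΨc.fderiv_right (m := 0) (by norm_num)).continuousAt
    exact h1.preimage_mem_nhds (ContinuousLinearMap.isOpen_injective.mem_nhds hΨinj)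
  -- the open conditions
  have hG4 : ∀ᶠ y : PC d × (Fin r → ℂ) in 𝓝 (x, e), (pol y.1).natDegree = d := by
    have h1 : ∀ y : PC d, (pol y).coeff d = y (Fin.last d) := by
      intro y
      rw [pol_coeff, dif_pos (Nat.lt_succ_self d)]
      rfl
    have h2 : x (Fin.last d) ≠ 0 := by
      rw [← h1 x]
      have h5 : (pol x).coeff d = (pol x).leadingCoeff := by
        rw [Polynomial.leadingCoeff, hT]
      rw [h5]
      refine Polynomial.leadingCoeff_ne_zero.2 fun h0 => ?_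
      rw [h0] at hT
      simp at hT
      omega
    have h3 : Continuous fun y : PC d × (Fin r → ℂ) => y.1 (Fin.last d) := by fun_prop
    filter_upwards [(h3.continuousAt (x := (x, e))).eventually_ne h2] with y hy
    refine le_antisymm (pol_natDegree_le _) (Polynomial.le_natDegree_of_ne_zero ?_)
    rw [h1]
    exact hy
  have hG5 : ∀ᶠ y : PC d × (Fin r → ℂ) in 𝓝 (x, e), Function.Injective y.2 := by
    have h1 : ∀ᶠ y : PC d × (Fin r → ℂ) in 𝓝 (x, e), ∀ i j, i ≠ j → y.2 i ≠ y.2 j := by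
      rw [eventually_all]
      intro i
      rw [eventually_all]
      intro j
      by_cases hij : i = j
      · exact Eventually.of_forall fun y h => absurd hij h
      · have h2 : ∀ᶠ y : PC d × (Fin r → ℂ) in 𝓝 (x, e), y.2 i ≠ y.2 j := by
          have h3 : Continuous fun y : PC d × (Fin r → ℂ) => y.2 i := by fun_prop
          have h4 : Continuous fun y : PC d × (Fin r → ℂ) => y.2 j := by fun_prop
          exact (h3.continuousAt.ne_iff_eventually_ne h4.continuousAt).1 fun h => hij (he h)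
        exact h2.mono fun y hy _ => hy
    refine h1.mono fun y hy i j hij => ?_
    by_contra h
    exact hy i j h hij
  have hGt : ∀ᶠ t in 𝓝 (0 : Fin n → ℂ), (pol (ψ t).1).natDegree = d ∧
      Function.Injective (ψ t).2 := by
    have h1 : Tendsto ψ (𝓝 0) (𝓝 (x, e)) := by
      rw [← hψ0]
      exact (hψ 0 hU0).continuousAt
    exact h1.eventually (hG4.and hG5)
  obtain ⟨V, hV, hVo, hV0⟩ :=
    _root_.mem_nhds_iff.1 (Filter.inter_mem (Filter.inter_mem hV₁ hV₂) hGt)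
  obtain ⟨ε, hε, hloc⟩ := hloc V (hVo.mem_nhds hV0)
  refine ⟨n, fun t => (ψ t).1, fun t => (ψ t).2, U ∩ V, hn, hUo.inter hVo, ⟨hU0, hV0⟩,
    fun t ht => (hΨd t ht.1).differentiableAt.differentiableWithinAt,
    fun t ht => (hcd t ht.1).differentiableAt.differentiableWithinAt, congrArg Prod.fst hψ0,
    congrArg Prod.snd hψ0,
    hV₁i.mono fun t ht => (hV ht.2).1.1, fun t ht => (hV ht.2).1.2, fun t ht => ?_,
    ⟨ε, hε, fun y c' hy hc' hS => ?_⟩, fun t ht => ?_⟩
  · rw [← hFS]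
    exact hFψ t ht.1
  · have h1 : ‖((y, c') : PC d × (Fin r → ℂ)) - (x, e)‖ < ε := by
      rw [Prod.mk_sub_mk, Prod.norm_mk]
      exact max_lt hy hc'
    obtain ⟨t, ht, ht2⟩ := hloc (y, c') h1 ((hFS y c').2 hS)
    exact ⟨t, ht, congrArg Prod.fst ht2, congrArg Prod.snd ht2⟩
  · obtain ⟨g4, g5⟩ := (hV ht.2).2
    have g4' : derivative (pol (ψ t).1) ≠ 0 := by
      intro h0
      have := Polynomial.derivative_eq_zero.1 h0
      omega
    have hIS := (hFS (ψ t).1 (ψ t).2).1 (hFψ t ht.1)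
    obtain ⟨g6, g7⟩ := mult_eq g4' g5 hIS.1 (by rw [hsm, hdegN g4]) hmpos
    refine ⟨g4, g5, g7, g6, fun H u κ hH hDf hK => ?_⟩
    obtain ⟨v, hv⟩ := exists_pol hH
    rw [← hv] at hDf hK ⊢
    obtain ⟨h1, h2⟩ := LFP_of_Dfm (ρ := ρ) hLI g4' (fun i => (g7 _).2 ⟨i, rfl⟩)
      (hFB (hFψ t ht.1)) g6 hDf
    obtain ⟨-, hD'⟩ := FFP_diff (m := m) (rep := rep) (ρ := ρ) hOR hHD (ψ t).1 (ψ t).2
    have h3 : fderiv ℂ (FFP m rep ρ) (ψ t) (v, fun i => κ ((ψ t).2 i)) = 0 := by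
      have h4 := hD' v fun i => κ ((ψ t).2 i)
      refine h4.trans (Prod.ext h1 (Prod.ext h2 ?_))
      funext l
      exact sub_eq_zero.2 (hK l)
    obtain ⟨s, hs⟩ := htan t ht.1 _ h3
    refine ⟨s, ?_⟩
    rw [hΨt t ht.1, hs]

/-- **Relations whose targets are different critical points are independent.** -/
theorem dvP_crit {T : ℂ[X]} {c : ℂ} (hc : (derivative T).eval c = 0) {e : ℂ}
    (he : (derivative T).eval e = 0) (n : ℕ) : dvP T c (n + 1) e = 0 := by
  classical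
  induction n with
  | zero =>
    simp only [dvP, Function.iterate_zero, id_eq, hc, zero_smul, Finsupp.zero_apply]
  | succ n ih =>
    rw [dvP, Finsupp.smul_apply, Finsupp.sub_apply, ih, zero_sub, Finsupp.single_apply]
    split_ifs with h
    · rw [h, he]
      simp
    · simp

theorem indep_critP {T : ℂ[X]} {N : ℕ} {c c' : Fin N → ℂ} {n : Fin N → ℕ}
    (hc : ∀ l, (derivative T).eval (c l) = 0) (hc' : ∀ l, (derivative T).eval (c' l) = 0)
    (hn : ∀ l, 1 ≤ n l) (hinj : Function.Injective c') :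
    LinearIndependent ℂ fun l => dvP T (c l) (n l) - dvP T (c' l) 0 := by
  classical
  rw [Fintype.linearIndependent_iff]
  intro b hb l
  have h1 := DFunLike.congr_fun hb (c' l)
  rw [Finsupp.finsetSum_apply, Finsupp.zero_apply] at h1
  have h2 : ∀ k, (b k • (dvP T (c k) (n k) - dvP T (c' k) 0)) (c' l) =
      if k = l then -b k else 0 := by
    intro k
    obtain ⟨j, hj⟩ : ∃ j, n k = j + 1 := ⟨n k - 1, by have := hn k; omega⟩
    rw [Finsupp.smul_apply, Finsupp.sub_apply, hj, dvP_crit (hc k) (hc' l), dvP,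
      Finsupp.single_apply]
    by_cases hkl : k = l
    · rw [if_pos (by rw [hkl]), if_pos hkl]
      simp
    · rw [if_neg fun h => hkl (hinj h), if_neg hkl]
      simp
  simp only [h2] at h1
  rw [Finset.sum_ite_eq' Finset.univ l fun k => -b k, if_pos (Finset.mem_univ l)] at h1
  exact neg_eq_zero.1 h1

end

end Pool.Agent.H207.TP
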