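import Pool.Agent.H207.TF.Fin

/-!
# Project TP: Collet-Eckmann polynomials in transversal families; transfer from rational maps

A polynomial `T` of degree `d ≥ 2` is written in the coordinate `w = 1 / (z - b)`: it becomes the rational
map `w ^ d / (w ^ d (T (b + 1 / w) - b)) = X ^ d / DQ d b T`, for which `w = 0` (the point `z = ∞`) is a
superattracting fixed point.
-/

set_option autoImplicit false

open Metric Set MeasureTheory Filter Topology Polynomial
open scoped OnePoint ENNReal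

namespace Pool.Agent.H207.TP

open Pool.Agent.H792R2.CE

/-- the coordinate `w = 1 / (z - b)` (junk value `0` at `b`) -/
noncomputable def M (b z : ℂ) : ℂ := (z - b)⁻¹

open Classical in
/-- the coordinate as a map to the sphere -/
noncomputable def Mh (b z : ℂ) : OnePoint ℂ := if z = b then ∞ else ((M b z : ℂ) : OnePoint ℂ)

/-- the polynomial `w ^ m * F (b + 1 / w)`, for `F` of degree at most `m` -/
noncomputable def rev (m : ℕ) (b : ℂ) (F : ℂ[X]) : ℂ[X] := (F.comp (X + C b)).reflect m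

/-- the denominator of the polynomial map `T` in the coordinate `w`; the numerator is `X ^ d` -/
noncomputable def DQ (d : ℕ) (b : ℂ) (T : ℂ[X]) : ℂ[X] := rev d b (T - C b)

/-- the polynomial as a map -/
def ev (T : ℂ[X]) : ℂ → ℂ := fun z => T.eval z

/-- the orbit of `z` escapes -/
def Esc (T : ℂ[X]) (z : ℂ) : Prop := Tendsto (fun k : ℕ => ‖(ev T)^[k] z‖) atTop atTop

/-- the orbit of `z` is attracted by a sink -/
def Atr (T : ℂ[X]) (z : ℂ) : Prop :=
  ∃ n : ℕ, 0 < n ∧ ∃ x : ℂ, (ev T)^[n] x = x ∧ ‖deriv ((ev T)^[n]) x‖ < 1 ∧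
    Tendsto (fun k : ℕ => (ev T)^[n * k] z) atTop (𝓝 x)

/-- **Algebra of `rev`.**

Proof. `Polynomial.reflect m G` has the coefficient `G.coeff (m - i)` at `i ≤ m` (`coeff_reflect`, `revAt_le`);
`Polynomial.eval₂_reflect_mul_pow` / `reflect_mul` or a direct computation with `G = ∑ coeff` gives the value
at `w ≠ 0`: `w ^ m * G (1 / w)`, here with `G = F.comp (X + C b)`, `G (1 / w) = F (b + 1 / w)`, `b + 1 / M b z = z`.
Multiplicities: `F = (X - C z) ^ k * G`, `k = F.rootMultiplicity z`, `G.eval z ≠ 0`, gives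
`rev m b F = C ((b - z) ^ k) * (X - C (M b z)) ^ k * rev (m - k) b G` (compare the values at all `w ≠ 0`:
`w (b + 1 / w - z) = (b - z) (w - M b z)`), and the last factor does not vanish at `M b z`; use
`Polynomial.rootMultiplicity` of a product or `Polynomial.rootMultiplicity_eq_of...`. -/
def S_REV : Prop :=
  ∀ (m : ℕ) (b : ℂ) (F : ℂ[X]), F.natDegree ≤ m →
    (rev m b F).natDegree ≤ m ∧
    (∀ z : ℂ, z ≠ b → (rev m b F).eval (M b z) = M b z ^ m * F.eval z) ∧
    (rev m b F).eval 0 = F.coeff m ∧ (rev m b F).coeff m = F.eval b ∧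
    (F ≠ 0 → rev m b F ≠ 0 ∧ ∀ z : ℂ, z ≠ b →
      (rev m b F).rootMultiplicity (M b z) = F.rootMultiplicity z)

/-- **Linearity and surjectivity of `rev`.**

Proof. `reflect` is additive and an involution (`reflect_add`, `reflect_invol`), `comp` is additive and
`F = (G.reflect m).comp (X - C b)` solves `rev m b F = G`. -/
def S_RLI : Prop :=
  (∀ (m : ℕ) (b : ℂ) (F G : ℂ[X]), rev m b (F + G) = rev m b F + rev m b G) ∧
  (∀ (m : ℕ) (b s : ℂ) (F : ℂ[X]), rev m b (C s * F) = C s * rev m b F) ∧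
  (∀ (m : ℕ) (b : ℂ) (G : ℂ[X]), G.natDegree ≤ m → ∃ F : ℂ[X], F.natDegree ≤ m ∧ rev m b F = G) ∧
  ∀ (m : ℕ) (b : ℂ) (i : ℕ), rev m b (X ^ i) = ((X + C b) ^ i).reflect m

/-- **The Wronskian.**

Proof. Polynomial identity; both sides have the same value at every `w ≠ 0` (`w = M b z`, `z = b + 1 / w`):
`Q (w) = w ^ d (T (b + 1 / w) - b)` has the derivative `d w ^ (d - 1) (T - b) - w ^ (d - 2) T'`, so
`d w ^ (d - 1) Q - w ^ d Q' = w ^ (2 d - 2) T' (b + 1 / w)`. Or compute with coefficients. -/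
def S_WRV : Prop :=
  ∀ (d : ℕ) (b : ℂ) (T : ℂ[X]), 1 ≤ d → T.natDegree ≤ d →
    wr (X ^ d) (DQ d b T) = X ^ (d - 1) * rev (d - 1) b (derivative T)

/-- **The map of the sphere.**

Proof. For `z ≠ b`, `w = M b z ≠ 0`: `sph (w) = pr (w ^ d) (w ^ d (T z - b))` (`sph_coe`, value of `rev`), which is `∞`
for `T z = b` (`pr_zero`) and `1 / (T z - b)` otherwise (`pr_ne`). For `z = b`: `sph ∞ = pr 1 (T b - b)`
(`sph_infty`, `(rev m b F).coeff m = F.eval b`). At `0`: `pr 0 (T.coeff d)`. -/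
def S_SPH : Prop :=
  ∀ (d : ℕ) (b : ℂ) (T : ℂ[X]), 2 ≤ d → T.natDegree = d →
    (∀ z : ℂ, sph d (X ^ d) (DQ d b T) (Mh b z) = Mh b (T.eval z)) ∧
    sph d (X ^ d) (DQ d b T) ((0 : ℂ) : OnePoint ℂ) = ((0 : ℂ) : OnePoint ℂ) ∧
    deriv (rf (X ^ d) (DQ d b T)) 0 = 0

/-- **Iterates in the plane.**

Proof. `rf (X ^ d) (DQ d b T) (M b z) = M b (T z)` for all `z ≠ b` (also for `T z = b`: both sides are `0`).
Near a point `w₀ = M b z`, `z ≠ b`, whose orbit avoids `b` the map `rf^[n]` is `M b ∘ (ev T)^[n] ∘ (fun w => b + 1 / w)`;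
chain rule: `M b` has the derivative `-1 / (y - b) ^ 2` at `y`, `w ↦ b + 1 / w` has the derivative
`-1 / w ^ 2 = - (z - b) ^ 2`. -/
def S_ITD : Prop :=
  ∀ (d : ℕ) (b : ℂ) (T : ℂ[X]), 1 ≤ d → T.natDegree ≤ d → ∀ (z : ℂ) (n : ℕ),
    (∀ j < n, (ev T)^[j] z ≠ b) →
      (rf (X ^ d) (DQ d b T))^[n] (M b z) = M b ((ev T)^[n] z) ∧
      ((ev T)^[n] z ≠ b → z ≠ b → deriv ((rf (X ^ d) (DQ d b T))^[n]) (M b z) =
        deriv ((ev T)^[n]) z * ((z - b) / ((ev T)^[n] z - b)) ^ 2)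

/-- **Attracted points, from the sphere to the plane** (any `b`).

Proof. By `S_SPH`, `sph^[k] (Mh b z) = Mh b ((ev T)^[k] z)`. Let the cycle of the definition of `Att` be that of
`w₀`, of period `n`. If `w₀ = 0`: `(ev T)^[n * k] z` tends to `∞`, so at some time the orbit is outside a disc on
whose complement `|T (y)| ≥ 2 |y|`, and `Esc T z`. If `w₀ ≠ 0`: put `x = b + 1 / w₀`, `Mh b x = w₀`; the points
`(ev T)^[i] x` are not `b` since `sph^[i] w₀ ≠ ∞`; `Mh b` is injective on the plane, so `(ev T)^[n] x = x`; the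
multiplier is the same (`S_ITD`), and `(ev T)^[n * k] z = b + 1 / w_k` with `w_k → w₀`, so it tends to `x`. -/
def S_ATT1 : Prop :=
  ∀ (d : ℕ) (b : ℂ) (T : ℂ[X]), 2 ≤ d → T.natDegree = d → ∀ z : ℂ,
    Att d (X ^ d) (DQ d b T) (Mh b z) → Esc T z ∨ Atr T z

/-- **Attracted points, from the plane to the sphere** (`b` escapes).

Proof. The fixed point `0` is superattracting (`S_SPH`) and never mapped to `∞`. If `z` escapes, then
`Mh b ((ev T)^[k] z)` tends to `0`. If `z` is attracted by the cycle of `x`, of period `n`, then this cycle does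
not contain `b` (the orbit of `b` is unbounded), so `w₀ = M b x` has an orbit in the plane, the same
multiplier by `S_ITD`, and `Mh b ((ev T)^[n * k] z)` tends to `w₀` because `M b` is continuous at `x ≠ b`. -/
def S_ATT2 : Prop :=
  ∀ (d : ℕ) (b : ℂ) (T : ℂ[X]), 2 ≤ d → T.natDegree = d → Esc T b →
    Att d (X ^ d) (DQ d b T) ((0 : ℂ) : OnePoint ℂ) ∧
    ∀ z : ℂ, Esc T z ∨ Atr T z → Att d (X ^ d) (DQ d b T) (Mh b z)

/-- **Escaping points and bounded orbits.**

Proof. There is `R` with `|T (y)| ≥ 2 |y|` for `|y| ≥ R` (leading term); all points outside the disc escape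
and a point whose orbit leaves the disc escapes. -/
def S_ESCB : Prop :=
  ∀ T : ℂ[X], 2 ≤ T.natDegree →
    (∀ F : Set ℂ, F.Finite → ∃ b : ℂ, b ∉ F ∧ Esc T b) ∧
    ∃ R : ℝ, 0 < R ∧ ∀ z : ℂ, ¬ Esc T z → ∀ n : ℕ, ‖(ev T)^[n] z‖ ≤ R

end Pool.Agent.H207.TP
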