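import Pool.Agent.H207.TP.Fin2

/-!
# Project TP, part 2: the strata of polynomials are complex manifolds; statements
-/

set_option autoImplicit false

open Metric Set MeasureTheory Filter Topology Polynomial
open scoped OnePoint ENNReal

namespace Pool.Agent.H207.TP

open Pool.Agent.H792R2.CE Pool.Agent.H207.TF
open Pool.Agent.H211.LD (pol)

/-- The linearized equation of order `j` for a critical point `e` with speed `κ`, for the infinitesimal
deformation `H` of the polynomial `T`. -/
noncomputable def eqP (T H : ℂ[X]) (e κ : ℂ) (j : ℕ) : ℂ :=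
  (hasseDeriv j (derivative H)).eval e +
    ((j : ℂ) + 1) * (hasseDeriv (j + 1) (derivative T)).eval e * κ

/-- **Deformations are the solutions of the linearized equations.**

Proof. Let `U = H - C (H.eval e) + C κ * derivative T`. It vanishes at `e`, so (characteristic zero,
`Polynomial.derivative_rootMultiplicity_of_root`) `(X - C e) ^ (k + 1) ∣ U` iff `(X - C e) ^ k ∣ derivative U`, iff the
Taylor coefficients `hasseDeriv j`, `j < k`, of `derivative U = derivative H + C κ * derivative (derivative T)` at `e`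
vanish (`Pool.Agent.H207.TF.dvd_iff_hasse`), and `hasseDeriv j (derivative N) = (j + 1) hasseDeriv (j + 1) N`. -/
def S_LINP : Prop :=
  ∀ (T H : ℂ[X]) (e κ : ℂ), derivative T ≠ 0 → (derivative T).eval e = 0 →
    ((X - C e) ^ ((derivative T).rootMultiplicity e + 1) ∣
        H - C (H.eval e) + C κ * derivative T ↔
      ∀ j < (derivative T).rootMultiplicity e, eqP T H e κ j = 0)

/-- **The linearized equations can be solved.**

Proof. Let `m i` be the multiplicity of the root `e i` of `derivative T`; `∑ m i = d - 1`. By the Chinese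
remainder theorem (pairwise coprime `(X - C (e i)) ^ (m i)`; reduction modulo the product) choose `H` of
degree `≤ d` with the Taylor coefficients `hasseDeriv 0 H = b i` and
`hasseDeriv (j + 1) H = a i j / (j + 1)`, `j + 1 < m i`, at `e i` (`hasseDeriv j (derivative H) = (j + 1) hasseDeriv (j + 1) H`,
and `hasseDeriv (j + 1) (derivative T)` vanishes at `e i` for `j + 1 < m i`); so `eqP = a i j` for `j + 1 < m i` and any
`κ i`. For `j = m i - 1` choose `κ i`, as `hasseDeriv (m i) (derivative T)` does not vanish at `e i`.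
See `Pool/Agent/H167/TF207/SOLVE.lean` for the rational case (lemmas `hd_of_dvd`, `hd_mul`, `loc`). -/
def S_SOLP : Prop :=
  ∀ (d : ℕ) (T : ℂ[X]), 2 ≤ d → T.natDegree = d → ∀ (r : ℕ) (e : Fin r → ℂ),
    Function.Injective e → (∀ i, (derivative T).eval (e i) = 0) →
    (∀ z, (derivative T).eval z = 0 → ∃ i, e i = z) →
    ∀ (a : Fin r → ℕ → ℂ) (b : Fin r → ℂ), ∃ (H : ℂ[X]) (κ : Fin r → ℂ), H.natDegree ≤ d ∧
      (∀ i, ∀ j < (derivative T).rootMultiplicity (e i), eqP T H (e i) (κ i) j = a i j) ∧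
      ∀ i, H.eval (e i) = b i

/-- **Derivatives of the orbit maps.**

Proof. `(a, z) ↦ (ev (pol a))^[n] z` is polynomial; induction on `n`, chain rule. See
`Pool/Agent/H356/TF207/ORBD.lean` for the rational case. -/
def S_ORBP : Prop :=
  ∀ (d : ℕ) (a : PC d) (z : ℂ) (n : ℕ),
    ContDiffAt ℂ 1 (fun p : PC d × ℂ => (ev (pol p.1))^[n] p.2) (a, z) ∧
    ∀ (v : PC d) (w : ℂ), fderiv ℂ (fun p : PC d × ℂ => (ev (pol p.1))^[n] p.2) (a, z) (v, w) =
      spdP (pol a) (pol v) z w n

/-- **Derivatives of the Taylor coefficients of the derivative.**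

Proof. The map is linear in the coefficients and polynomial in `z`;
`d/dz (hasseDeriv j N)(z) = (j + 1) (hasseDeriv (j + 1) N)(z)`. See `Pool/Agent/H350/TF207/WRD.lean` for the
rational case. -/
def S_HDP : Prop :=
  ∀ (d : ℕ) (a : PC d) (z : ℂ) (j : ℕ),
    ContDiffAt ℂ 1 (fun p : PC d × ℂ => (hasseDeriv j (derivative (pol p.1))).eval p.2) (a, z) ∧
    ∀ (v : PC d) (w : ℂ),
      fderiv ℂ (fun p : PC d × ℂ => (hasseDeriv j (derivative (pol p.1))).eval p.2) (a, z) (v, w) =
        eqP (pol a) (pol v) z w j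

/-- The formal sum of the points `c, T c, …, T^(n - 1) c` which belongs to the point `T^n c`. -/
noncomputable def dvP (T : ℂ[X]) (c : ℂ) : ℕ → (ℂ →₀ ℂ)
  | 0 => Finsupp.single c 1
  | n + 1 => ((derivative T).eval ((ev T)^[n] c)) •
      (dvP T c n - Finsupp.single ((ev T)^[n] c) 1)

/-- **Transfer of the formal sums.**

Proof. Induction on `n`. With `z = (ev T)^[n] c`, `w = M b z` and `y = T z`: `(rf …)^[n] (M b c) = w` (`S_ITD`),
`wr (w) / Q (w) ^ 2 = T'(z) (z - b) ^ 2 / (y - b) ^ 2` (`wr_eval`, `DQ_eval` in `TP/Fam.lean`), and `M b` is injective on the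
points different from `b` (with values `≠ 0`). -/
def S_DVP : Prop :=
  ∀ (d : ℕ) (b : ℂ) (T : ℂ[X]), 2 ≤ d → T.natDegree = d → ∀ (c : ℂ) (n : ℕ),
    (∀ j ≤ n, (ev T)^[j] c ≠ b) →
    (∀ y : ℂ, y ≠ b → dv (X ^ d) (DQ d b T) (M b c) n (M b y) =
      M b ((ev T)^[n] c) ^ 2 * ((y - b) ^ 2 * dvP T c n y)) ∧
    dv (X ^ d) (DQ d b T) (M b c) n 0 = 0 ∧ dvP T c n b = 0

end Pool.Agent.H207.TP
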