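import Pool.Agent.H207.TP.Fin3

/-!
# Project TP, part 3: slices (families of full dimension with critical orbit relations); statements
-/

set_option autoImplicit false

open Metric Set MeasureTheory Filter Topology Polynomial
open scoped OnePoint ENNReal

namespace Pool.Agent.H207.TP

open Pool.Agent.H792R2.CE Pool.Agent.H207.TF
open Pool.Agent.H211.LD (pol)

/-- **Infinitesimal conjugations keep everything.**

Proof. `conjP T α β = h (T) - T' h` with `h = α + β z`. Its derivative at the critical point `c` is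
`- T'' (c) h (c)`, and `hasseDeriv 0 N = N`, `hasseDeriv 1 N = derivative N`. Induction on `n`:
`h (T z) - T' (z) h (z) + T' (z) h (z) = h (T z)`. -/
def S_CKR : Prop :=
  ∀ (T : ℂ[X]) (α β c : ℂ), (derivative T).eval c = 0 →
    eqP T (conjP T α β) c (α + β * c) 0 = 0 ∧
    ∀ n : ℕ, spdP T (conjP T α β) c (α + β * c) n = α + β * (ev T)^[n] c

/-- **Derivatives of relations which hold in a family.** (May assume `S_ORBP` and `S_HDP`.)

Proof. Differentiate the two equations at `x` in the direction `v` by the chain rule: the derivative of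
`(a, z) ↦ (derivative (pol a)).eval z` is `eqP … 0` (`S_HDP` with `j = 0`, `hasseDeriv_zero'`), the derivative of
`(a, z) ↦ (ev (pol a))^[n] z` is `spdP` (`S_ORBP`); `ContDiffAt` gives `HasFDerivAt` of the outer function, the
inner function is `y ↦ (p y, c y)`, with the derivative `v ↦ (fderiv ℂ p x v, fderiv ℂ c x v)`. A function that
vanishes near `x` has derivative `0` (`Filter.EventuallyEq.fderiv_eq`). -/
def S_DRL : Prop :=
  ∀ (d m : ℕ) (p : (Fin m → ℂ) → PC d) (c c' : (Fin m → ℂ) → ℂ) (x : Fin m → ℂ) (n n' : ℕ),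
    DifferentiableAt ℂ p x → DifferentiableAt ℂ c x → DifferentiableAt ℂ c' x →
    (∀ᶠ y in 𝓝 x, (derivative (pol (p y))).eval (c y) = 0) →
    (∀ᶠ y in 𝓝 x, (ev (pol (p y)))^[n] (c y) = (ev (pol (p y)))^[n'] (c' y)) →
    ∀ v, eqP (pol (p x)) (pol (fderiv ℂ p x v)) (c x) (fderiv ℂ c x v) 0 = 0 ∧
      spdP (pol (p x)) (pol (fderiv ℂ p x v)) (c x) (fderiv ℂ c x v) n =
        spdP (pol (p x)) (pol (fderiv ℂ p x v)) (c' x) (fderiv ℂ c' x v) n'

/-- **Dimension count.**

Proof. The linear map `Φ (v, α, β) = D v + (coefficients of conjP (pol a) α β)` from `ℂ ^ m × ℂ × ℂ` (dimension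
`m + 2`) to `PC d` (dimension `d + 1`) has its range in the kernel of `ℓ`, of dimension `d + 1 - N = m + 2`. It is
injective: if `Φ (v, α, β) = 0` then `pol (D v) = conjP (pol a) (-α) (-β)`, so `v = 0` and `conjP (pol a) α β = 0`; for a
polynomial of degree `d ≥ 2` the leading coefficient of `conjP` is `(1 - d) β` times that of `pol a` and for
`β = 0` its coefficient of order `d - 1` is `- d α` times that of `pol a` (`conjP T α 0 = C α - C α * derivative T`; for
`d ≥ 2` the degree of `derivative T` is `d - 1 ≥ 1`). So the range is the kernel of `ℓ`. The degree of `conjP` is at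
most `d`, so it is `pol` of its coefficients (`pol_coeff`). -/
def S_LAG : Prop :=
  ∀ (d m N : ℕ) (a : PC d) (D : (Fin m → ℂ) →ₗ[ℂ] PC d) (ℓ : PC d →ₗ[ℂ] (Fin N → ℂ)),
    2 ≤ d → (pol a).natDegree = d → m + N = d - 1 →
    (∀ (v : Fin m → ℂ) (α β : ℂ), pol (D v) = conjP (pol a) α β → v = 0) →
    Function.Surjective ℓ → (∀ v, ℓ (D v) = 0) →
    (∀ (h : PC d) (α β : ℂ), pol h = conjP (pol a) α β → ℓ h = 0) →
    ∀ h : PC d, ℓ h = 0 → ∃ (v : Fin m → ℂ) (α β : ℂ), pol h = pol (D v) + conjP (pol a) α β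

end Pool.Agent.H207.TP
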